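import Pool.Agent.H630XR.Defs

/-!
# P11: a monotone circuit for unsatisfiability of systems of equations with two variables (helper793)
-/

open scoped Classical
open Finset

namespace H630XR

variable {V : Type*} [Fintype V] {K : ℕ}

section P11
variable {I : Type*}

/-- the indicator function -/
noncomputable def p11_ind (p : I → Prop) : I → ℝ := fun x => if p x then 1 else 0

theorem p11_ind_congr {p q : I → Prop} (h : ∀ x, p x ↔ q x) : p11_ind p = p11_ind q := by
  have : p = q := funext fun x => propext (h x)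
  rw [this]

theorem p11_and (p q : I → Prop) :
    (fun x => min (p11_ind p x) (p11_ind q x)) = p11_ind (fun x => p x ∧ q x) := by
  funext x
  unfold p11_ind
  by_cases h1 : p x <;> by_cases h2 : q x <;> simp [h1, h2]

theorem p11_or (p q : I → Prop) :
    (fun x => max (p11_ind p x) (p11_ind q x)) = p11_ind (fun x => p x ∨ q x) := by
  funext x
  unfold p11_ind
  by_cases h1 : p x <;> by_cases h2 : q x <;> simp [h1, h2]

/-- from the functions in `A` the functions in `B` can be computed with `n` more gates -/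
def p11_R (inp : Set (I → ℝ)) (A : Set (I → ℝ)) (n : ℕ) (B : Set (I → ℝ)) : Prop :=
  ∀ l : List (I → ℝ), MProg inp l → (∀ f ∈ A, f ∈ l) → ∃ l' : List (I → ℝ), MProg inp l' ∧
    (∀ f ∈ l, f ∈ l') ∧ (∀ f ∈ B, f ∈ l') ∧ l'.length ≤ l.length + n

variable {inp : Set (I → ℝ)}

theorem p11_trans {A B C : Set (I → ℝ)} {n m : ℕ} (h1 : p11_R inp A n B) (h2 : p11_R inp B m C) :
    p11_R inp A (n + m) C := by
  intro l hl hA
  obtain ⟨l', a1, a2, a3, a4⟩ := h1 l hl hA
  obtain ⟨l'', b1, b2, b3, b4⟩ := h2 l' a1 a3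
  exact ⟨l'', b1, fun f hf => b2 f (a2 f hf), b3, by omega⟩

theorem p11_mono {A B A' B' : Set (I → ℝ)} {n m : ℕ} (h : p11_R inp A n B) (hA : A ⊆ A')
    (hB : B' ⊆ B) (hn : n ≤ m) : p11_R inp A' m B' := by
  intro l hl hA'
  obtain ⟨l', a1, a2, a3, a4⟩ := h l hl (fun f hf => hA' f (hA hf))
  exact ⟨l', a1, a2, fun f hf => a3 f (hB hf), by omega⟩

theorem p11_keep {A B : Set (I → ℝ)} {n : ℕ} (h : p11_R inp A n B) : p11_R inp A n (A ∪ B) := by
  intro l hl hA
  obtain ⟨l', a1, a2, a3, a4⟩ := h l hl hA
  refine ⟨l', a1, a2, ?_, a4⟩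
  rintro f (hf | hf)
  · exact a2 f (hA f hf)
  · exact a3 f hf

theorem p11_union {A B C : Set (I → ℝ)} {n m : ℕ} (h1 : p11_R inp A n B) (h2 : p11_R inp A m C) :
    p11_R inp A (n + m) (B ∪ C) := by
  intro l hl hA
  obtain ⟨l', a1, a2, a3, a4⟩ := h1 l hl hA
  obtain ⟨l'', b1, b2, b3, b4⟩ := h2 l' a1 (fun f hf => a2 f (hA f hf))
  refine ⟨l'', b1, fun f hf => b2 f (a2 f hf), ?_, by omega⟩
  rintro f (hf | hf)
  · exact b2 f (a3 f hf)
  · exact b3 f hf

theorem p11_family {J : Type*} {A : Set (I → ℝ)} {n : ℕ} (s : Finset J) (B : J → I → ℝ)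
    (h : ∀ j ∈ s, p11_R inp A n {B j}) : p11_R inp A (s.card * n) {f | ∃ j ∈ s, f = B j} := by
  induction s using Finset.induction_on with
  | empty =>
    intro l hl hA
    refine ⟨l, hl, fun f hf => hf, ?_, by omega⟩
    rintro f ⟨j, hj, -⟩
    exact absurd hj (Finset.notMem_empty j)
  | insert j s hj ih =>
    have h1 := ih fun k hk => h k (Finset.mem_insert_of_mem hk)
    have h2 := h j (Finset.mem_insert_self j s)
    refine p11_mono (p11_union h1 h2) (Set.Subset.refl _) ?_ ?_
    · rintro f ⟨k, hk, rfl⟩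
      rcases Finset.mem_insert.1 hk with rfl | hk
      · exact Or.inr rfl
      · exact Or.inl ⟨k, hk, rfl⟩
    · rw [Finset.card_insert_of_notMem hj]
      nlinarith

theorem p11_input {A : Set (I → ℝ)} {f : I → ℝ} (hf : f ∈ inp) : p11_R inp A 1 {f} := by
  intro l hl hA
  refine ⟨f :: l, MProg.input hl hf, fun g hg => List.mem_cons_of_mem _ hg, ?_, by simp⟩
  rintro g rfl
  exact List.mem_cons_self

theorem p11_gand {A : Set (I → ℝ)} {p q : I → Prop} (hp : p11_ind p ∈ A) (hq : p11_ind q ∈ A) :
    p11_R inp A 1 {p11_ind (fun x => p x ∧ q x)} := by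
  intro l hl hA
  refine ⟨p11_ind (fun x => p x ∧ q x) :: l, ?_, fun g hg => List.mem_cons_of_mem _ hg, ?_,
    by simp⟩
  · rw [← p11_and]
    exact MProg.and hl (hA _ hp) (hA _ hq)
  · rintro g rfl
    exact List.mem_cons_self

theorem p11_gor {A : Set (I → ℝ)} {p q : I → Prop} (hp : p11_ind p ∈ A) (hq : p11_ind q ∈ A) :
    p11_R inp A 1 {p11_ind (fun x => p x ∨ q x)} := by
  intro l hl hA
  refine ⟨p11_ind (fun x => p x ∨ q x) :: l, ?_, fun g hg => List.mem_cons_of_mem _ hg, ?_,
    by simp⟩
  · rw [← p11_or]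
    exact MProg.or hl (hA _ hp) (hA _ hq)
  · rintro g rfl
    exact List.mem_cons_self

theorem p11_zero : (fun _ => (0 : ℝ)) = p11_ind (fun _ : I => False) := by
  funext x
  simp [p11_ind]

theorem p11_one : (fun _ => (1 : ℝ)) = p11_ind (fun _ : I => True) := by
  funext x
  simp [p11_ind]

theorem p11_bigor {J : Type*} {A : Set (I → ℝ)} (h0 : (fun _ => (0 : ℝ)) ∈ inp) (s : Finset J)
    (p : J → I → Prop) (h : ∀ j ∈ s, p11_ind (p j) ∈ A) :
    p11_R inp A (s.card + 1) {p11_ind (fun x => ∃ j ∈ s, p j x)} := by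
  induction s using Finset.induction_on with
  | empty =>
    have h1 : p11_ind (fun x => ∃ j ∈ (∅ : Finset J), p j x) = fun _ : I => (0 : ℝ) := by
      rw [p11_zero]
      exact p11_ind_congr fun x => ⟨fun ⟨j, hj, _⟩ => absurd hj (Finset.notMem_empty j),
        fun h => h.elim⟩
    rw [h1]
    exact p11_input h0
  | insert j s hj ih =>
    have h1 := p11_keep (ih fun k hk => h k (Finset.mem_insert_of_mem hk))
    have h2 : p11_R inp (A ∪ {p11_ind (fun x => ∃ j ∈ s, p j x)}) 1
        {p11_ind (fun x => p j x ∨ ∃ j ∈ s, p j x)} :=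
      p11_gor (Or.inl (h j (Finset.mem_insert_self j s))) (Or.inr rfl)
    have h3 : p11_ind (fun x => ∃ k ∈ insert j s, p k x) =
        p11_ind (fun x => p j x ∨ ∃ j ∈ s, p j x) := by
      refine p11_ind_congr fun x => ?_
      constructor
      · rintro ⟨k, hk, hp⟩
        rcases Finset.mem_insert.1 hk with rfl | hk
        · exact Or.inl hp
        · exact Or.inr ⟨k, hk, hp⟩
      · rintro (hp | ⟨k, hk, hp⟩)
        · exact ⟨j, Finset.mem_insert_self j s, hp⟩
        · exact ⟨k, Finset.mem_insert_of_mem hk, hp⟩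
    rw [h3, Finset.card_insert_of_notMem hj]
    exact p11_trans h1 h2

/-! ### closure under composition, one intermediate vertex after the other -/

/-- paths with intermediate vertices in the list -/
def p11_F {N : Type*} (e : N → N → Prop) : List N → N → N → Prop
  | [], p, q => e p q ∨ p = q
  | w :: A, p, q => p11_F e A p q ∨ (p11_F e A p w ∧ p11_F e A w q)

theorem p11_F_base {N : Type*} (e : N → N → Prop) (A : List N) (p q : N) (h : e p q ∨ p = q) :
    p11_F e A p q := by
  induction A with
  | nil => exact h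
  | cons w A ih => exact Or.inl ih

theorem p11_F_trans {N : Type*} (e : N → N → Prop) (A : List N) :
    ∀ p v q, v ∈ A → p11_F e A p v → p11_F e A v q → p11_F e A p q := by
  induction A with
  | nil =>
    intro p v q hv
    exact absurd hv List.not_mem_nil
  | cons w A ih =>
    intro p v q hv h1 h2
    have g1 : p11_F e A p v ∨ (p11_F e A p w ∧ p11_F e A w v) := h1
    have g2 : p11_F e A v q ∨ (p11_F e A v w ∧ p11_F e A w q) := h2
    show p11_F e A p q ∨ (p11_F e A p w ∧ p11_F e A w q)
    by_cases hw : v = w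
    · subst hw
      have k1 : p11_F e A p v := by
        rcases g1 with h | h
        · exact h
        · exact h.1
      have k2 : p11_F e A v q := by
        rcases g2 with h | h
        · exact h
        · exact h.2
      exact Or.inr ⟨k1, k2⟩
    · have hvA : v ∈ A := by
        rcases List.mem_cons.1 hv with h | h
        · exact absurd h hw
        · exact h
      rcases g1 with h | ⟨h, h'⟩
      · rcases g2 with k | ⟨k, k'⟩
        · exact Or.inl (ih p v q hvA h k)
        · exact Or.inr ⟨ih p v w hvA h k, k'⟩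
      · rcases g2 with k | ⟨k, k'⟩
        · exact Or.inr ⟨h, ih w v q hvA h' k⟩
        · exact Or.inr ⟨h, k'⟩

theorem p11_F_min {N : Type*} (e : N → N → Prop) (P : N → N → Prop) (hr : ∀ p, P p p)
    (ht : ∀ p q r, P p q → P q r → P p r) (he : ∀ p q, e p q → P p q) (A : List N) :
    ∀ p q, p11_F e A p q → P p q := by
  induction A with
  | nil =>
    intro p q h
    rcases h with h | h
    · exact he p q h
    · exact h ▸ hr p
  | cons w A ih =>
    intro p q h
    rcases h with h | ⟨h, h'⟩
    · exact ih p q h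
    · exact ht p w q (ih p w h) (ih w q h')

theorem p11_F_gates {N : Type*} [Fintype N] (e : N → N → I → Prop) {B : Set (I → ℝ)} {m : ℕ}
    (h : p11_R inp B m {f | ∃ j ∈ (univ : Finset (N × N)),
      f = p11_ind (fun x => p11_F (fun p q => e p q x) [] j.1 j.2)}) (A : List N) :
    p11_R inp B (m + A.length * (2 * Fintype.card N ^ 2)) {f | ∃ j ∈ (univ : Finset (N × N)),
      f = p11_ind (fun x => p11_F (fun p q => e p q x) A j.1 j.2)} := by
  induction A with
  | nil => exact p11_mono h (Set.Subset.refl _) (Set.Subset.refl _) (Nat.le_add_right _ _)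
  | cons w A ih =>
    have h1 : p11_R inp {f | ∃ j ∈ (univ : Finset (N × N)),
        f = p11_ind (fun x => p11_F (fun p q => e p q x) A j.1 j.2)}
        ((univ : Finset (N × N)).card * 2) {f | ∃ j ∈ (univ : Finset (N × N)),
        f = p11_ind (fun x => p11_F (fun p q => e p q x) (w :: A) j.1 j.2)} := by
      apply p11_family
      rintro ⟨p, q⟩ -
      have k1 := p11_keep (p11_gand (inp := inp)
        (A := {f | ∃ j ∈ (univ : Finset (N × N)),
          f = p11_ind (fun x => p11_F (fun p q => e p q x) A j.1 j.2)})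
        (p := fun x => p11_F (fun p q => e p q x) A p w)
        (q := fun x => p11_F (fun p q => e p q x) A w q)
        ⟨(p, w), Finset.mem_univ _, rfl⟩ ⟨(w, q), Finset.mem_univ _, rfl⟩)
      exact p11_trans k1 (p11_gor (p := fun x => p11_F (fun p q => e p q x) A p q)
        (Or.inl ⟨(p, q), Finset.mem_univ _, rfl⟩) (Or.inr rfl))
    have h2 := p11_trans ih h1
    refine p11_mono h2 (Set.Subset.refl _) (Set.Subset.refl _) (le_of_eq ?_)
    rw [Finset.card_univ, Fintype.card_prod, List.length_cons]
    ring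

/-! ### the system -/

/-- the vertices `p`, `q` are joined by the equation `c` -/
def p11_J {C H : Type*} (a b : C → H) (r : C → Bool) (c : C) (p q : H × Bool) : Prop :=
  ∃ i, (p = (a c, i) ∧ q = (b c, i ^^ r c)) ∨ (q = (a c, i) ∧ p = (b c, i ^^ r c))

theorem p11_J_symm {C H : Type*} {a b : C → H} {r : C → Bool} {c : C} {p q : H × Bool}
    (h : p11_J a b r c p q) : p11_J a b r c q p := by
  obtain ⟨i, h | h⟩ := h
  · exact ⟨i, Or.inr h⟩
  · exact ⟨i, Or.inl h⟩

theorem p11_J_mirror {C H : Type*} {a b : C → H} {r : C → Bool} {c : C} {p q : H × Bool}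
    (h : p11_J a b r c p q) : p11_J a b r c (p.1, !p.2) (q.1, !q.2) := by
  obtain ⟨i, ⟨h, h'⟩ | ⟨h, h'⟩⟩ := h
  · refine ⟨!i, Or.inl ⟨?_, ?_⟩⟩
    · rw [h]
    · rw [h']
      cases i <;> cases r c <;> rfl
  · refine ⟨!i, Or.inr ⟨?_, ?_⟩⟩
    · rw [h]
    · rw [h']
      cases i <;> cases r c <;> rfl

theorem p11_sound {C H : Type*} (u : C → Prop) (a b : C → H) (r : C → Bool)
    (A : List (H × Bool)) (hA : ∀ p, p ∈ A) :
    (∃ h : H, p11_F (fun p q => ∃ c, u c ∧ p11_J a b r c p q) A (h, false) (h, true)) ↔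
      ¬ ∃ y : H → Bool, ∀ c, u c → (y (a c) ^^ y (b c)) = r c := by
  set e : H × Bool → H × Bool → Prop := fun p q => ∃ c, u c ∧ p11_J a b r c p q with he
  constructor
  · rintro ⟨h, hh⟩ ⟨y, hy⟩
    have := p11_F_min e (fun p q => (y p.1 ^^ p.2) = (y q.1 ^^ q.2)) (fun p => rfl)
      (fun p q r h1 h2 => h1.trans h2) (by
        rintro p q ⟨c, hc, i, ⟨rfl, rfl⟩ | ⟨rfl, rfl⟩⟩
        · have := hy c hc
          simp only
          rw [← this]
          cases y (a c) <;> cases y (b c) <;> cases i <;> rfl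
        · have := hy c hc
          simp only
          rw [← this]
          cases y (a c) <;> cases y (b c) <;> cases i <;> rfl) A _ _ hh
    simp at this
  · intro hno
    by_contra hcon
    rw [not_exists] at hcon
    apply hno
    set T := p11_F e A with hT
    have hrefl : ∀ p, T p p := fun p => p11_F_base e A p p (Or.inr rfl)
    have htr : ∀ p q r, T p q → T q r → T p r := fun p q r => p11_F_trans e A p q r (hA q)
    have hbase : ∀ p q, e p q → T p q := fun p q h => p11_F_base e A p q (Or.inl h)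
    have hsym : ∀ p q, T p q → T q p :=
      p11_F_min e (fun p q => T q p) hrefl (fun p q r h1 h2 => htr r q p h2 h1)
        (fun p q ⟨c, hc, hj⟩ => hbase q p ⟨c, hc, p11_J_symm hj⟩) A
    have hmir : ∀ p q, T p q → T (p.1, !p.2) (q.1, !q.2) :=
      p11_F_min e (fun p q => T (p.1, !p.2) (q.1, !q.2)) (fun p => hrefl _)
        (fun p q r h1 h2 => htr _ _ _ h1 h2)
        (fun p q ⟨c, hc, hj⟩ => hbase _ _ ⟨c, hc, p11_J_mirror hj⟩) A
    have hm1 : ∀ h h' : H, T (h, true) (h', false) ↔ T (h, false) (h', true) := fun h h' =>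
      ⟨fun k => hmir _ _ k, fun k => hmir _ _ k⟩
    have hm2 : ∀ h h' : H, T (h, true) (h', true) ↔ T (h, false) (h', false) := fun h h' =>
      ⟨fun k => hmir _ _ k, fun k => hmir _ _ k⟩
    let s : Setoid H := ⟨fun h h' => T (h, true) (h', true) ∨ T (h, true) (h', false), by
      refine ⟨fun h => Or.inl (hrefl _), ?_, ?_⟩
      · rintro h h' (k | k)
        · exact Or.inl (hsym _ _ k)
        · exact Or.inr ((hm1 _ _).2 (hsym _ _ k))
      · rintro h h' h'' (k | k) (k' | k')
        · exact Or.inl (htr _ _ _ k k')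
        · exact Or.inr (htr _ _ _ k k')
        · exact Or.inr (htr _ _ _ k ((hm2 _ _).1 k'))
        · exact Or.inl (htr _ _ _ k ((hm1 _ _).1 k'))⟩
    let ρ : H → H := fun h => (Quotient.mk s h).out
    have hρ : ∀ h, T (h, true) (ρ h, true) ∨ T (h, true) (ρ h, false) := fun h =>
      s.symm (Quotient.mk_out h)
    refine ⟨fun h => decide (T (h, true) (ρ h, true)), ?_⟩
    intro c hc
    have hne : ¬ (T (b c, true) (ρ (b c), true) ∧ T (b c, true) (ρ (b c), false)) := by
      rintro ⟨k1, k2⟩
      exact hcon (ρ (b c)) (hsym _ _ (htr _ _ _ (hsym _ _ k1) k2))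
    have hedge : T (a c, true) (b c, true ^^ r c) :=
      hbase _ _ ⟨c, hc, true, Or.inl ⟨rfl, rfl⟩⟩
    have hρab : ρ (a c) = ρ (b c) := by
      have : Quotient.mk s (a c) = Quotient.mk s (b c) := by
        apply Quotient.sound
        cases hr : r c
        · rw [hr] at hedge
          exact Or.inl hedge
        · rw [hr] at hedge
          exact Or.inr hedge
      show (Quotient.mk s (a c)).out = (Quotient.mk s (b c)).out
      rw [this]
    show (decide (T (a c, true) (ρ (a c), true)) ^^ decide (T (b c, true) (ρ (b c), true))) = r c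
    rw [hρab]
    have hb := hρ (b c)
    cases hr : r c
    · rw [hr] at hedge
      have h1 : T (a c, true) (b c, true) := hedge
      have h2 : T (a c, true) (ρ (b c), true) ↔ T (b c, true) (ρ (b c), true) :=
        ⟨fun k => htr _ _ _ (hsym _ _ h1) k, fun k => htr _ _ _ h1 k⟩
      by_cases k : T (b c, true) (ρ (b c), true)
      · simp [k, h2.2 k]
      · have k' : ¬ T (a c, true) (ρ (b c), true) := fun h => k (h2.1 h)
        simp [k, k']
    · rw [hr] at hedge
      have h1 : T (a c, true) (b c, false) := hedge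
      have h2 : T (a c, true) (ρ (b c), true) ↔ T (b c, false) (ρ (b c), true) :=
        ⟨fun k => htr _ _ _ (hsym _ _ h1) k, fun k => htr _ _ _ h1 k⟩
      rw [← hm1] at h2
      by_cases k : T (b c, true) (ρ (b c), true)
      · have k' : ¬ T (a c, true) (ρ (b c), true) := fun h => hne ⟨k, h2.1 h⟩
        simp [k, k']
      · have k' : T (a c, true) (ρ (b c), true) := h2.2 (hb.resolve_left k)
        simp [k, k']

end P11

theorem exists_reach {I : Type*} {inp : Set (I → ℝ)} (h0 : (fun _ => (0 : ℝ)) ∈ inp)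
    (h1 : (fun _ => (1 : ℝ)) ∈ inp) {C H : Type*} [Fintype C] [Fintype H] (u : C → I → Prop)
    (hu : ∀ c, (fun x => if u c x then (1 : ℝ) else 0) ∈ inp) (a b : C → H) (r : C → Bool) :
    ∃ l : List (I → ℝ), MProg inp l ∧
      l.length ≤ 1000 * (Fintype.card C + 1) * (Fintype.card H + 1) ^ 4 ∧
      ∃ f ∈ l, ∀ x, (f x = 0 ∨ f x = 1) ∧
        (f x = 1 ↔ ¬ ∃ y : H → Bool, ∀ c, u c x → (y (a c) ^^ y (b c)) = r c) := by
  set A : List (H × Bool) := (univ : Finset (H × Bool)).toList with hA
  have hmem : ∀ p, p ∈ A := fun p => by rw [hA, Finset.mem_toList]; exact Finset.mem_univ p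
  have hlen : A.length = 2 * Fintype.card H := by
    rw [hA, Finset.length_toList, Finset.card_univ, Fintype.card_prod, Fintype.card_bool, mul_comm]
  set e : H × Bool → H × Bool → I → Prop := fun p q x => ∃ c, u c x ∧ p11_J a b r c p q with he
  -- the inputs
  have s1 : p11_R inp ∅ (Fintype.card C * 1) {f | ∃ c ∈ (univ : Finset C), f = p11_ind (u c)} := by
    have := p11_family (inp := inp) (A := ∅) (n := 1) (univ : Finset C)
      (fun c => p11_ind (u c)) (fun c _ => p11_input (hu c))
    rwa [Finset.card_univ] at this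
  -- the edges
  have s2 : p11_R inp {f | ∃ c ∈ (univ : Finset C), f = p11_ind (u c)}
      ((univ : Finset ((H × Bool) × (H × Bool))).card * (Fintype.card C + 1))
      {f | ∃ j ∈ (univ : Finset ((H × Bool) × (H × Bool))),
        f = p11_ind (fun x => p11_F (fun p q => e p q x) [] j.1 j.2)} := by
    apply p11_family
    rintro ⟨p, q⟩ -
    by_cases hpq : p = q
    · have : p11_ind (fun x => p11_F (fun p q => e p q x) [] p q) = fun _ : I => (1 : ℝ) := by
        rw [p11_one]
        exact p11_ind_congr fun x => ⟨fun _ => trivial, fun _ => Or.inr hpq⟩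
      simp only
      rw [this]
      exact p11_mono (p11_input h1) (Set.Subset.refl _) (Set.Subset.refl _) (by omega)
    · have : p11_ind (fun x => p11_F (fun p q => e p q x) [] p q) =
          p11_ind (fun x => ∃ c ∈ univ.filter (fun c => p11_J a b r c p q), u c x) := by
        refine p11_ind_congr fun x => ?_
        constructor
        · rintro (⟨c, hc, hj⟩ | h)
          · exact ⟨c, Finset.mem_filter.2 ⟨Finset.mem_univ _, hj⟩, hc⟩
          · exact absurd h hpq
        · rintro ⟨c, hc, hc'⟩
          exact Or.inl ⟨c, hc', (Finset.mem_filter.1 hc).2⟩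
      simp only
      rw [this]
      have k1 : p11_R inp {f | ∃ c ∈ (univ : Finset C), f = p11_ind (u c)}
          ((univ.filter (fun c => p11_J a b r c p q)).card + 1)
          {p11_ind (fun x => ∃ c ∈ univ.filter (fun c => p11_J a b r c p q), u c x)} :=
        p11_bigor h0 (univ.filter (fun c => p11_J a b r c p q)) u
          (fun c _ => ⟨c, Finset.mem_univ _, rfl⟩)
      refine p11_mono k1 (Set.Subset.refl _) (Set.Subset.refl _) ?_
      have := Finset.card_le_univ (univ.filter (fun c => p11_J a b r c p q))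
      omega
  have s3 := p11_F_gates e (p11_trans s1 s2) A
  have s4 : p11_R inp {f | ∃ j ∈ (univ : Finset ((H × Bool) × (H × Bool))),
        f = p11_ind (fun x => p11_F (fun p q => e p q x) A j.1 j.2)} ((univ : Finset H).card + 1)
      {p11_ind (fun x => ∃ h ∈ (univ : Finset H),
        p11_F (fun p q => e p q x) A (h, false) (h, true))} := by
    refine p11_bigor h0 univ (fun h x => p11_F (fun p q => e p q x) A (h, false) (h, true)) ?_
    intro h _
    exact ⟨((h, false), (h, true)), Finset.mem_univ _, rfl⟩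
  obtain ⟨l, hl, -, hl2, hl3⟩ := p11_trans s3 s4 [] MProg.nil (fun f hf => absurd hf (by simp))
  refine ⟨l, hl, ?_, _, hl2 _ rfl, ?_⟩
  · refine hl3.trans ?_
    rw [hlen, Finset.card_univ, Finset.card_univ, Fintype.card_prod, Fintype.card_prod,
      Fintype.card_bool, List.length_nil]
    set c := Fintype.card C
    set h := Fintype.card H
    have e1 : c ≤ c + 1 := Nat.le_succ c
    have e2 : (h + 1) ^ 4 = (h + 1) ^ 4 := rfl
    nlinarith [Nat.zero_le (h ^ 4 * c), Nat.zero_le (h ^ 3 * c), Nat.zero_le (h ^ 2 * c),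
      Nat.zero_le (h * c), Nat.zero_le (h ^ 4), Nat.zero_le (h ^ 3), Nat.zero_le (h ^ 2)]
  · intro x
    have hs := p11_sound (fun c => u c x) a b r A hmem
    constructor
    · by_cases hh : ∃ h ∈ (univ : Finset H), p11_F (fun p q => e p q x) A (h, false) (h, true)
      · exact Or.inr (if_pos hh)
      · exact Or.inl (if_neg hh)
    · rw [← hs]
      unfold p11_ind
      constructor
      · intro hf
        by_contra hcon
        rw [if_neg] at hf
        · norm_num at hf
        · rintro ⟨h, -, hh⟩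
          exact hcon ⟨h, hh⟩
      · rintro ⟨h, hh⟩
        exact if_pos ⟨h, Finset.mem_univ _, hh⟩

end H630XR
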