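import Pool.Agent.H630XR.Model

/-!
# Internal definitions for the lower bound on refuting random formulas (helper630)

Everything is classical: all files open `Classical`.
-/

open scoped Classical
open Finset

namespace H630XR

variable {V : Type*} [Fintype V] {K : ℕ}

/-- an odd number of literals of `c` is true -/
def OddSat (x : V → Bool) (c : Cl V K) : Prop :=
  Odd (univ.filter fun i => x (c i).1 = (c i).2).card

/-- all clauses of `t` are satisfied in the parity sense -/
def Sats (x : V → Bool) (t : Finset (Cl V K)) : Prop := ∀ c ∈ t, OddSat x c

/-- the variables of `t` -/
noncomputable def vars (t : Finset (Cl V K)) : Finset V :=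
  univ.filter fun v => ∃ c ∈ t, ∃ i, (c i).1 = v

/-- the number of occurrences of `v` in the clauses of `B` -/
noncomputable def mult (B : Finset (Cl V K)) (v : V) : ℕ :=
  ∑ c ∈ B, (univ.filter fun i => (c i).1 = v).card

/-- every variable outside `W` occurs an even number of times in `B` -/
def EvenOut (W : Finset V) (B : Finset (Cl V K)) : Prop := ∀ v, v ∉ W → Even (mult B v)

/-- the assignment that is `y` on `Z` and `x` elsewhere -/
noncomputable def glue (Z : Finset V) (y x : V → Bool) : V → Bool := fun v => if v ∈ Z then y v else x v

end H630XR
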