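import Pool.Agent.H630XR.Four

/-! The final forms of the theorem (helper630) -/

open scoped Classical
open Finset Filter

namespace H630XR

open H630VC (Prog Mono2)

theorem full_eq {n K : ℕ} (x : Fin n → Bool) : (full x : Finset (Cl (Fin n) K)) = oddFormula x := by
  unfold full oddFormula OddSat
  congr!

theorem sat_oddFormula {n K : ℕ} (x : Fin n → Bool) :
    SatCNF (oddFormula x : Finset (Cl (Fin n) K)) := by
  refine ⟨x, fun c hc => ?_⟩
  rw [oddFormula, mem_filter] at hc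
  by_contra hne
  push Not at hne
  have h0 : (univ.filter fun i => x (c i).1 = (c i).2) = ∅ :=
    filter_eq_empty_iff.2 fun i _ => hne i
  rw [h0] at hc
  simp at hc

/-- (A) the dichotomy -/
theorem dichotomy (K : ℕ) (hK : 1 ≤ K) (δ ν : ℝ) (hν : 0 < ν) (h : (3 * K + 1) * ν < δ) :
    ∃ N : ℕ, ∀ n : ℕ, N ≤ n → ∀ m : ℕ, (m : ℝ) ≤ (n : ℝ) ^ ((K : ℝ) / 2 - δ) →
      ∀ l : List (Finset (Cl (Fin n) K) → ℝ), Prog (cnfInputs (Fin n) K) l →
      (l.length : ℝ) ≤ 2 ^ ((n : ℝ) ^ ν) → ∀ f ∈ l,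
      ((univ.filter fun x : Fin n → Bool => ¬ 1 ≤ f (oddFormula x)).card : ℝ)
          ≤ 2 ^ (-(n : ℝ) ^ ν) * 2 ^ n ∨
        ((univ.filter fun ω : Fin m → Cl (Fin n) K => 1 ≤ f (univ.image ω)).card : ℝ)
          ≤ (n : ℝ) ^ (-ν) * (Fintype.card (Cl (Fin n) K) : ℝ) ^ m := by
  obtain ⟨N, hN⟩ := asymp_random K hK δ ν hν h
  refine ⟨N, fun n hn m hm l hp hl f hf => ?_⟩
  have h1 := hN n hn m hm l hp hl f hf 1
  simp only [full_eq] at h1
  exact h1

/-- a circuit that rejects all satisfiable formulas accepts few random formulas -/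
theorem refute (K : ℕ) (hK : 1 ≤ K) (δ ν : ℝ) (hν : 0 < ν) (h : (3 * K + 1) * ν < δ) :
    ∃ N : ℕ, ∀ n : ℕ, N ≤ n → ∀ m : ℕ, (m : ℝ) ≤ (n : ℝ) ^ ((K : ℝ) / 2 - δ) →
      ∀ l : List (Finset (Cl (Fin n) K) → ℝ), Prog (cnfInputs (Fin n) K) l →
      (l.length : ℝ) ≤ 2 ^ ((n : ℝ) ^ ν) → ∀ f ∈ l,
      (∀ F : Finset (Cl (Fin n) K), SatCNF F → f F < 1) →
        ((univ.filter fun ω : Fin m → Cl (Fin n) K => 1 ≤ f (univ.image ω)).card : ℝ)
          ≤ (n : ℝ) ^ (-ν) * (Fintype.card (Cl (Fin n) K) : ℝ) ^ m := by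
  obtain ⟨N, hN⟩ := dichotomy K hK δ ν hν h
  refine ⟨max N 1, fun n hn m hm l hp hl f hf hsat => ?_⟩
  have hn1 : 1 ≤ n := (le_max_right _ _).trans hn
  rcases hN n ((le_max_left _ _).trans hn) m hm l hp hl f hf with h1 | h1
  · exfalso
    have h2 : (univ.filter fun x : Fin n → Bool => ¬ 1 ≤ f (oddFormula x)) = univ :=
      filter_true_of_mem fun x _ => not_le.2 (hsat _ (sat_oddFormula x))
    rw [h2, card_univ, Fintype.card_fun, Fintype.card_fin, Fintype.card_bool] at h1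
    push_cast at h1
    have h3 : (2 : ℝ) ^ (-(n : ℝ) ^ ν) < 1 := by
      have hnr : (1 : ℝ) ≤ n := by exact_mod_cast hn1
      apply Real.rpow_lt_one_of_one_lt_of_neg (by norm_num)
      have : 0 < (n : ℝ) ^ ν := by positivity
      linarith
    have h4 : (0 : ℝ) < 2 ^ n := by positivity
    nlinarith
  · exact h1

theorem card_collision {n K : ℕ} (m : ℕ) :
    (univ.filter fun ω : Fin m → Cl (Fin n) K => ¬ Function.Injective ω).card
      * Fintype.card (Cl (Fin n) K) ≤ m ^ 2 * Fintype.card (Cl (Fin n) K) ^ m := by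
  have hsub : (univ.filter fun ω : Fin m → Cl (Fin n) K => ¬ Function.Injective ω) ⊆
      (univ.filter fun p : Fin m × Fin m => p.1 ≠ p.2).biUnion
        fun p => univ.filter fun ω : Fin m → Cl (Fin n) K => ω p.1 = ω p.2 := by
    intro ω hω
    rw [mem_filter] at hω
    have h := hω.2
    unfold Function.Injective at h
    push Not at h
    obtain ⟨i, j, hij, hne⟩ := h
    rw [mem_biUnion]
    exact ⟨(i, j), by simp [hne], by simp [hij]⟩
  have hpair : ∀ p ∈ (univ.filter fun p : Fin m × Fin m => p.1 ≠ p.2),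
      (univ.filter fun ω : Fin m → Cl (Fin n) K => ω p.1 = ω p.2).card
        * Fintype.card (Cl (Fin n) K) ≤ Fintype.card (Cl (Fin n) K) ^ m := by
    intro p hp
    have hp' : p.1 ≠ p.2 := (mem_filter.1 hp).2
    have h1 : ((univ.filter fun ω : Fin m → Cl (Fin n) K => ω p.1 = ω p.2) ×ˢ
        (univ : Finset (Cl (Fin n) K))).card ≤ (univ : Finset (Fin m → Cl (Fin n) K)).card := by
      refine card_le_card_of_injOn (fun q => Function.update q.1 p.1 q.2)
        (fun _ _ => Finset.mem_coe.2 (mem_univ _)) ?_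
      rintro ⟨ω, c⟩ hω ⟨ω', c'⟩ hω' heq
      simp only [coe_product, coe_filter, mem_univ, true_and, Set.mem_prod, Set.mem_ofPred_eq,
        coe_univ, Set.mem_univ, and_true] at hω hω'
      simp only at heq
      have hc : c = c' := by
        have := congrFun heq p.1
        simpa using this
      have hω2 : ω = ω' := by
        funext i
        by_cases hi : i = p.1
        · rw [hi, hω, hω']
          have := congrFun heq p.2
          simpa [Function.update_of_ne hp'.symm] using this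
        · have := congrFun heq i
          simpa [Function.update_of_ne hi] using this
      rw [hω2, hc]
    have h2 : Fintype.card (Fin m → Cl (Fin n) K) = Fintype.card (Cl (Fin n) K) ^ m := by
      rw [Fintype.card_fun, Fintype.card_fin]
    rw [card_product, card_univ, card_univ, h2] at h1
    exact h1
  calc _ ≤ (∑ p ∈ (univ.filter fun p : Fin m × Fin m => p.1 ≠ p.2),
        (univ.filter fun ω : Fin m → Cl (Fin n) K => ω p.1 = ω p.2).card)
        * Fintype.card (Cl (Fin n) K) :=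
        Nat.mul_le_mul_right _ ((card_le_card hsub).trans card_biUnion_le)
    _ = ∑ p ∈ (univ.filter fun p : Fin m × Fin m => p.1 ≠ p.2),
        (univ.filter fun ω : Fin m → Cl (Fin n) K => ω p.1 = ω p.2).card
        * Fintype.card (Cl (Fin n) K) := by rw [Finset.sum_mul]
    _ ≤ ∑ p ∈ (univ.filter fun p : Fin m × Fin m => p.1 ≠ p.2),
        Fintype.card (Cl (Fin n) K) ^ m := Finset.sum_le_sum hpair
    _ = (univ.filter fun p : Fin m × Fin m => p.1 ≠ p.2).card *
        Fintype.card (Cl (Fin n) K) ^ m := by rw [sum_const, smul_eq_mul]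
    _ ≤ m ^ 2 * Fintype.card (Cl (Fin n) K) ^ m := by
        refine Nat.mul_le_mul_right _ ((card_filter_le _ _).trans ?_)
        simp [pow_two]

/-- (B) the gap version -/
theorem gap (K : ℕ) (hK : 3 ≤ K) (ε ν : ℝ) (hε : 0 < ε) (hν : 0 < ν)
    (h : (3 * K + 1) * ν < (K : ℝ) / 2 - 1) :
    ∃ N : ℕ, ∀ n : ℕ, N ≤ n →
      ∀ l : List (Finset (Cl (Fin n) K) → ℝ), Prog (cnfInputs (Fin n) K) l → ∀ f ∈ l,
      (∀ F : Finset (Cl (Fin n) K), SatCNF F → f F < 1) →
      (∀ F : Finset (Cl (Fin n) K), Far ((1 / 2) ^ K - ε) F → 1 ≤ f F) →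
        (2 : ℝ) ^ ((n : ℝ) ^ ν) < l.length := by
  obtain ⟨δ, hδ1, hδ2⟩ := exists_between h
  obtain ⟨N, hN⟩ := refute K (by omega) δ ν hν hδ1
  obtain ⟨C, hC, hfar⟩ := card_far K (by omega) ε hε
  set η := (K : ℝ) / 2 - δ - 1 with hη
  have hη0 : 0 < η := by rw [hη]; linarith
  have e1 : ∀ᶠ n : ℕ in atTop, C + 1 ≤ (n : ℝ) ^ η :=
    ((tendsto_rpow_atTop hη0).comp (tendsto_natCast_atTop_atTop (R := ℝ))).eventually_ge_atTop _
  have e2 : ∀ᶠ n : ℕ in atTop, (5 : ℝ) ≤ (n : ℝ) ^ ν :=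
    ((tendsto_rpow_atTop hν).comp (tendsto_natCast_atTop_atTop (R := ℝ))).eventually_ge_atTop _
  have e3 : ∀ᶠ n : ℕ in atTop, (C + 1) ^ 2 ≤ (n : ℝ) :=
    (tendsto_natCast_atTop_atTop (R := ℝ)).eventually_ge_atTop _
  obtain ⟨N1, hN1⟩ := (((e1.and e2).and e3).and (eventually_ge_atTop 3)).exists_forall_of_atTop
  refine ⟨max N N1, fun n hn l hp f hf hsat hfarf => ?_⟩
  obtain ⟨⟨⟨h1, h2⟩, h3⟩, hn3⟩ := hN1 n ((le_max_right _ _).trans hn)
  by_contra hlt
  rw [not_lt] at hlt
  have hn1 : 1 ≤ n := by omega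
  have hnR : (1 : ℝ) ≤ n := by exact_mod_cast hn1
  have hn0 : (0 : ℝ) < n := by linarith
  set m : ℕ := ⌈C * n⌉₊ with hm
  have hm1 : C * n ≤ m := Nat.le_ceil _
  have hm2 : (m : ℝ) ≤ (C + 1) * n := by
    have := Nat.ceil_lt_add_one (show 0 ≤ C * n by positivity)
    rw [← hm] at this
    nlinarith
  have hm3 : (m : ℝ) ≤ (n : ℝ) ^ ((K : ℝ) / 2 - δ) := by
    have h4 : (n : ℝ) ^ ((K : ℝ) / 2 - δ) = (n : ℝ) ^ η * n := by
      rw [← Real.rpow_add_one hn0.ne']
      congr 1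
      rw [hη]
      ring
    rw [h4]
    exact hm2.trans (mul_le_mul_of_nonneg_right h1 hn0.le)
  have hmpos : 0 < m := by
    have : 0 < C * n := by positivity
    have h5 : (0 : ℝ) < m := by linarith
    exact_mod_cast h5
  have hA3 := hN n ((le_max_left _ _).trans hn) m hm3 l hp hlt f hf hsat
  have hA1 := hfar n m hn1 hm1
  have hA2 := card_collision (n := n) (K := K) m
  set D : ℝ := (Fintype.card (Cl (Fin n) K) : ℝ) with hD
  have hDval : D = (2 * (n : ℝ)) ^ K := by
    rw [hD, card_cl]; push_cast; rfl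
  have hD0 : 0 < D := by rw [hDval]; positivity
  have hDm : 0 < D ^ m := by positivity
  -- the three bad events have total probability less than one
  have b1 : ((1 : ℝ) / 2) ^ n ≤ 1 / 4 := by
    calc ((1 : ℝ) / 2) ^ n ≤ (1 / 2) ^ 2 :=
          pow_le_pow_of_le_one (by norm_num) (by norm_num) (by omega)
      _ = 1 / 4 := by norm_num
  have b3 : (n : ℝ) ^ (-ν) ≤ 1 / 4 := by
    rw [Real.rpow_neg hn0.le, inv_le_comm₀ (by positivity) (by norm_num)]
    norm_num
    linarith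
  have b2 : ((univ.filter fun ω : Fin m → Cl (Fin n) K => ¬ Function.Injective ω).card : ℝ) ≤
      1 / 4 * D ^ m := by
    have h6 : ((univ.filter fun ω : Fin m → Cl (Fin n) K =>
        ¬ Function.Injective ω).card : ℝ) * D ≤ (m : ℝ) ^ 2 * D ^ m := by
      rw [hD]; exact_mod_cast hA2
    have h7 : (m : ℝ) ^ 2 ≤ 1 / 4 * D := by
      have h8 : (2 * (n : ℝ)) ^ 3 ≤ D := by
        rw [hDval]
        exact pow_le_pow_right₀ (by linarith) hK
      calc (m : ℝ) ^ 2 ≤ ((C + 1) * n) ^ 2 := pow_le_pow_left₀ (Nat.cast_nonneg _) hm2 2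
        _ = (C + 1) ^ 2 * (n : ℝ) ^ 2 := by ring
        _ ≤ n * (n : ℝ) ^ 2 := mul_le_mul_of_nonneg_right h3 (by positivity)
        _ ≤ 1 / 4 * (2 * (n : ℝ)) ^ 3 := by
            have : 0 ≤ (n : ℝ) * (n : ℝ) ^ 2 := by positivity
            nlinarith
        _ ≤ _ := by linarith
    have h9 : ((univ.filter fun ω : Fin m → Cl (Fin n) K =>
        ¬ Function.Injective ω).card : ℝ) * D ≤ (1 / 4 * D ^ m) * D := by
      refine h6.trans ?_
      calc (m : ℝ) ^ 2 * D ^ m ≤ (1 / 4 * D) * D ^ m := mul_le_mul_of_nonneg_right h7 hDm.le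
        _ = _ := by ring
    exact le_of_mul_le_mul_right h9 hD0
  -- a formula outside the bad events
  obtain ⟨ω, hω⟩ : ∃ ω : Fin m → Cl (Fin n) K,
      ω ∉ (univ.filter fun ω : Fin m → Cl (Fin n) K => ∃ x : Fin n → Bool,
        ((univ.filter fun j => ∀ i, x (ω j i).1 ≠ (ω j i).2).card : ℝ)
          < ((1 / 2) ^ K - ε) * m) ∪
        ((univ.filter fun ω : Fin m → Cl (Fin n) K => ¬ Function.Injective ω) ∪
        (univ.filter fun ω : Fin m → Cl (Fin n) K => 1 ≤ f (univ.image ω))) := by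
    by_contra hall
    push Not at hall
    have h10 : ((univ : Finset (Fin m → Cl (Fin n) K)).card : ℝ) ≤
        ((univ.filter fun ω : Fin m → Cl (Fin n) K => ∃ x : Fin n → Bool,
        ((univ.filter fun j => ∀ i, x (ω j i).1 ≠ (ω j i).2).card : ℝ)
          < ((1 / 2) ^ K - ε) * m).card : ℝ) +
        (((univ.filter fun ω : Fin m → Cl (Fin n) K => ¬ Function.Injective ω).card : ℝ) +
        ((univ.filter fun ω : Fin m → Cl (Fin n) K => 1 ≤ f (univ.image ω)).card : ℝ)) := by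
      have h11 := (card_le_card (fun ω (_ : ω ∈ (univ : Finset (Fin m → Cl (Fin n) K))) =>
        hall ω)).trans ((card_union_le _ _).trans (Nat.add_le_add_left (card_union_le _ _) _))
      exact_mod_cast h11
    rw [card_univ, Fintype.card_fun, Fintype.card_fin] at h10
    push_cast at h10
    rw [← hD] at h10
    have h12 : ((1 : ℝ) / 2) ^ n * D ^ m ≤ 1 / 4 * D ^ m := mul_le_mul_of_nonneg_right b1 hDm.le
    have h13 : (n : ℝ) ^ (-ν) * D ^ m ≤ 1 / 4 * D ^ m := mul_le_mul_of_nonneg_right b3 hDm.le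
    linarith
  simp only [mem_union, mem_filter, mem_univ, true_and, not_or, not_exists, not_lt, not_not,
    not_le] at hω
  obtain ⟨g1, g2, g3⟩ := hω
  refine absurd (hfarf (univ.image ω) ⟨?_, ?_⟩) (not_le.2 g3)
  · exact ⟨ω ⟨0, hmpos⟩, mem_image.2 ⟨_, mem_univ _, rfl⟩⟩
  · intro x
    have h14 : (univ.image ω).card = m := by
      rw [card_image_of_injective _ g2, card_univ, Fintype.card_fin]
    have h15 : ((univ.image ω).filter fun c => ∀ i, x (c i).1 ≠ (c i).2).card =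
        (univ.filter fun j => ∀ i, x (ω j i).1 ≠ (ω j i).2).card := by
      rw [Finset.filter_image, card_image_of_injective _ g2]
    rw [h14, h15]
    exact g1 x

/-- (C) Boolean circuits of polynomial size refute random systems with more clauses -/
theorem upper (k n : ℕ) (hk : 1 ≤ k) :
    ∃ l : List (Finset (Cl (Fin n) (k + k)) → ℝ), MProg (bitInputs (Fin n) (k + k)) l ∧
      l.length ≤ 1000 * ((2 * n) ^ (k + k) + 1) * (n ^ k + 1) ^ 4 ∧
      ∃ f ∈ l, (∀ F : Finset (Cl (Fin n) (k + k)), SatXOR F → f F = 0) ∧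
        ∀ m : ℕ, (univ.filter fun ω : Fin m → Cl (Fin n) (k + k) =>
          f (univ.image ω) ≠ 1).card * 2 ^ m ≤
          2 ^ (n ^ k) * Fintype.card (Cl (Fin n) (k + k)) ^ m := by
  obtain ⟨a, b, r, g, flip, h1, h2, h3, h4, h5⟩ := oddSat_split (V := Fin n) k hk
  obtain ⟨l, hl, hlen, f, hf, hfx⟩ := exists_reach
    (I := Finset (Cl (Fin n) (k + k))) (inp := bitInputs (Fin n) (k + k))
    (Or.inr (Or.inl rfl)) (Or.inr (Or.inr rfl)) (C := Cl (Fin n) (k + k)) (H := Fin k → Fin n)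
    (fun c F => c ∈ F) (fun c => Or.inl ⟨c, by congr!⟩) a b r
  refine ⟨l, hl, ?_, f, hf, ?_, ?_⟩
  · refine hlen.trans (le_of_eq ?_)
    rw [card_cl]
    simp
  · rintro F ⟨x, hx⟩
    rcases (hfx F).1 with h0 | h0
    · exact h0
    · exfalso
      refine (hfx F).2.1 h0 ⟨g x, fun c hc => h1 x c ?_⟩
      have := hx c hc
      unfold OddSat
      convert this
  · intro m
    have h6 := card_labelling a b r flip h2 h3 h4 h5 m
    have h7 : Fintype.card (Fin k → Fin n) = n ^ k := by simp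
    rw [h7] at h6
    refine le_trans (Nat.mul_le_mul_right _ (card_le_card ?_)) h6
    intro ω hω
    simp only [mem_filter, mem_univ, true_and] at hω ⊢
    by_contra hne
    refine hω ((hfx _).2.2 ?_)
    rintro ⟨y, hy⟩
    exact hne ⟨y, fun j => hy _ (mem_image.2 ⟨j, mem_univ _, rfl⟩)⟩

end H630XR
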