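import Pool.Agent.H630XR.Three

/-! The asymptotic form of the dichotomy (helper630) -/

open scoped Classical
open Finset Filter

namespace H630XR

open H630VC (Prog Mono2)

theorem card_tm {V : Type*} [Fintype V] (K l : ℕ) :
    Fintype.card (Tm V K l) ≤ (Fintype.card (Cl V K) + 1) ^ l := by
  have h : Function.Surjective (fun (g : Fin l → Option (Cl V K)) =>
      (⟨univ.filter fun c => ∃ i, g i = some c, by
        have h1 : (univ.filter fun c : Cl V K => ∃ i, g i = some c) ⊆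
            (univ.image g).biUnion (fun o => o.toFinset) := by
          intro c hc
          rw [mem_filter] at hc
          obtain ⟨i, hi⟩ := hc.2
          rw [mem_biUnion]
          exact ⟨g i, mem_image.2 ⟨i, mem_univ _, rfl⟩, by rw [hi]; simp⟩
        calc (univ.filter fun c : Cl V K => ∃ i, g i = some c).card
            ≤ ((univ.image g).biUnion (fun o => o.toFinset)).card := card_le_card h1
          _ ≤ ∑ o ∈ univ.image g, o.toFinset.card := card_biUnion_le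
          _ ≤ ∑ o ∈ univ.image g, 1 := Finset.sum_le_sum fun o _ => by
              cases o <;> simp
          _ = (univ.image g).card := by simp
          _ ≤ (univ : Finset (Fin l)).card := card_image_le
          _ = l := by simp⟩ : Tm V K l)) := by
    rintro ⟨t, ht⟩
    let e := t.equivFin
    refine ⟨fun i => if h : (i : ℕ) < t.card then some (e.symm ⟨i, h⟩).1 else none, ?_⟩
    apply Subtype.ext
    ext c
    simp only [mem_filter, mem_univ, true_and]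
    constructor
    · rintro ⟨i, hi⟩
      by_cases h : (i : ℕ) < t.card
      · rw [dif_pos h] at hi
        have := Option.some.inj hi
        rw [← this]
        exact (e.symm ⟨i, h⟩).2
      · rw [dif_neg h] at hi
        exact absurd hi (by simp)
    · intro hc
      refine ⟨⟨e ⟨c, hc⟩, (e ⟨c, hc⟩).2.trans_le ht⟩, ?_⟩
      rw [dif_pos (e ⟨c, hc⟩).2]
      simp
  have h2 := Fintype.card_le_of_surjective _ h
  rwa [Fintype.card_fun, Fintype.card_option, Fintype.card_fin] at h2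

theorem card_cl (n K : ℕ) : Fintype.card (Cl (Fin n) K) = (2 * n) ^ K := by
  rw [Fintype.card_fun, Fintype.card_prod, Fintype.card_fin, Fintype.card_fin, Fintype.card_bool,
    mul_comm]

/-- the choice of the parameters -/
theorem params (K : ℕ) (hK : 1 ≤ K) (δ ν : ℝ) (hν : 0 < ν) (h : (3 * K + 1) * ν < δ) :
    ∃ N : ℕ, ∀ n : ℕ, N ≤ n → 1 ≤ n ∧ ∃ s L q : ℕ, n ≤ s ^ 2 ∧ 1 ≤ s ∧ 1 ≤ L ∧ 1 ≤ q ∧
      2 * (n : ℝ) ^ ν ≤ L ∧
      (2 : ℝ) ^ (2 * (n : ℝ) ^ ν) * (((2 * n) ^ K + 1 : ℕ) : ℝ) ^ (2 * L) ≤ (2 : ℝ) ^ q ∧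
      ∀ m : ℕ, (m : ℝ) ≤ (n : ℝ) ^ ((K : ℝ) / 2 - δ) →
        ((K0 K s (2 * L) * K1 K (2 * L) q ^ K * m : ℕ) : ℝ) ≤
          (n : ℝ) ^ (-ν) / 4 * ((2 * n : ℕ) : ℝ) ^ K := by
  have hKr : (1 : ℝ) ≤ K := by exact_mod_cast hK
  -- an exponent between
  obtain ⟨ν1, hν1, hν1'⟩ : ∃ ν1 : ℝ, ν < ν1 ∧ 3 * K * ν1 + ν < δ := by
    refine ⟨(ν + (δ - ν) / (3 * K)) / 2, ?_, ?_⟩
    · have : ν < (δ - ν) / (3 * K) := by
        rw [lt_div_iff₀ (by positivity)]
        linarith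
      linarith
    · have h1 : 3 * K * ((ν + (δ - ν) / (3 * K)) / 2) = (3 * K * ν + (δ - ν)) / 2 := by
        field_simp
      rw [h1]
      linarith
  have hν1pos : 0 < ν1 := hν.trans hν1
  set η := δ - ν - 3 * K * ν1 with hη
  have hη0 : 0 < η := by linarith
  -- the constant
  set C : ℝ := 16 * 2 ^ K * (24 * K) ^ K * (64 * K) ^ K with hC
  have hC0 : 0 < C := by positivity
  have e1 : ∀ᶠ n : ℕ in atTop, 4 * C ≤ (n : ℝ) ^ η :=
    ((tendsto_rpow_atTop hη0).comp (tendsto_natCast_atTop_atTop (R := ℝ))).eventually_ge_atTop _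
  have e2 : ∀ᶠ n : ℕ in atTop, (3 : ℝ) ≤ (n : ℝ) ^ ν :=
    ((tendsto_rpow_atTop hν).comp (tendsto_natCast_atTop_atTop (R := ℝ))).eventually_ge_atTop _
  have e3 : ∀ᶠ n : ℕ in atTop, (3 : ℝ) ≤ (n : ℝ) ^ (ν1 - ν) :=
    ((tendsto_rpow_atTop (sub_pos.2 hν1)).comp
      (tendsto_natCast_atTop_atTop (R := ℝ))).eventually_ge_atTop _
  -- logarithms are small
  have e4 : ∀ᶠ n : ℕ in atTop, 4 + 12 * K * Real.log n ≤ (n : ℝ) ^ (ν1 - ν) / 2 := by
    have h1 : (fun x : ℝ => Real.log x) =o[atTop] fun x : ℝ => x ^ (ν1 - ν) :=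
      isLittleO_log_rpow_atTop (sub_pos.2 hν1)
    have h2 := (h1.bound (show (0 : ℝ) < 1 / (48 * K) by positivity))
    have h3 := (tendsto_natCast_atTop_atTop (R := ℝ)).eventually h2
    have h4 : ∀ᶠ n : ℕ in atTop, (16 : ℝ) ≤ (n : ℝ) ^ (ν1 - ν) :=
      ((tendsto_rpow_atTop (sub_pos.2 hν1)).comp
        (tendsto_natCast_atTop_atTop (R := ℝ))).eventually_ge_atTop _
    filter_upwards [h3, h4, eventually_ge_atTop 1] with n hn hn4 hn1
    have hlog : 0 ≤ Real.log n := Real.log_nonneg (by exact_mod_cast hn1)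
    rw [Real.norm_of_nonneg hlog, Real.norm_of_nonneg (by positivity)] at hn
    have h5 : 12 * K * Real.log n ≤ 12 * K * (1 / (48 * K) * (n : ℝ) ^ (ν1 - ν)) :=
      mul_le_mul_of_nonneg_left hn (by positivity)
    have h6 : 12 * K * (1 / (48 * K) * (n : ℝ) ^ (ν1 - ν)) = (n : ℝ) ^ (ν1 - ν) / 4 := by
      field_simp
      ring
    linarith
  obtain ⟨N, hN⟩ := (((e1.and e2).and (e3.and e4)).and (eventually_ge_atTop 4)).exists_forall_of_atTop
  refine ⟨N, fun n hn => ?_⟩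
  obtain ⟨⟨⟨h1, h2⟩, h3, h4⟩, hn4⟩ := hN n hn
  have hn1 : 1 ≤ n := by omega
  have hnR : (1 : ℝ) ≤ n := by exact_mod_cast hn1
  have hnR4 : (4 : ℝ) ≤ n := by exact_mod_cast hn4
  have hn0 : (0 : ℝ) < n := by linarith
  set s : ℕ := n.sqrt + 1 with hs
  set L : ℕ := ⌈2 * (n : ℝ) ^ ν⌉₊ with hL
  set q : ℕ := ⌈(n : ℝ) ^ ν1⌉₊ with hq
  have hsplit : (n : ℝ) ^ ν1 = (n : ℝ) ^ ν * (n : ℝ) ^ (ν1 - ν) := by
    rw [← Real.rpow_add hn0]
    congr 1
    ring
  have hL1 : 2 * (n : ℝ) ^ ν ≤ L := Nat.le_ceil _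
  have hL2 : (L : ℝ) ≤ 3 * (n : ℝ) ^ ν := by
    have := Nat.ceil_lt_add_one (show 0 ≤ 2 * (n : ℝ) ^ ν by positivity)
    rw [← hL] at this
    linarith
  have hL3 : (L : ℝ) ≤ (n : ℝ) ^ ν1 := by
    rw [hsplit]
    have : (n : ℝ) ^ ν * 3 ≤ (n : ℝ) ^ ν * (n : ℝ) ^ (ν1 - ν) :=
      mul_le_mul_of_nonneg_left h3 (by positivity)
    linarith
  have hLpos : 1 ≤ L := by
    have : (1 : ℝ) ≤ L := by linarith
    exact_mod_cast this
  have hq1 : (n : ℝ) ^ ν1 ≤ q := Nat.le_ceil _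
  have hν1big : (1 : ℝ) ≤ (n : ℝ) ^ ν1 := Real.one_le_rpow hnR hν1pos.le
  have hq2 : (q : ℝ) ≤ 2 * (n : ℝ) ^ ν1 := by
    have := Nat.ceil_lt_add_one (show 0 ≤ (n : ℝ) ^ ν1 by positivity)
    rw [← hq] at this
    linarith
  have hqpos : 1 ≤ q := by
    have : (1 : ℝ) ≤ q := by linarith
    exact_mod_cast this
  have hsn : n ≤ s ^ 2 := by
    have := Nat.lt_succ_sqrt' n
    rw [hs]
    exact this.le
  have hs2 : (s : ℝ) ≤ 2 * (n : ℝ) ^ (1 / 2 : ℝ) := by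
    have h5 : (n.sqrt : ℝ) ≤ Real.sqrt n := by
      apply Real.le_sqrt_of_sq_le
      exact_mod_cast Nat.sqrt_le' n
    have h6 : (1 : ℝ) ≤ Real.sqrt n := by
      rw [show (1 : ℝ) = Real.sqrt 1 by simp]
      exact Real.sqrt_le_sqrt hnR
    rw [hs, ← Real.sqrt_eq_rpow]
    push_cast
    linarith
  refine ⟨hn1, s, L, q, hsn, by omega, hLpos, hqpos, hL1, ?_, ?_⟩
  · -- the closure parameter
    have h5 : (((2 * n) ^ K + 1 : ℕ) : ℝ) ≤ (2 : ℝ) ^ ((1 : ℝ) + 2 * K * (Real.log n / Real.log 2)) := by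
      have h6 : (2 : ℝ) ^ ((1 : ℝ) + 2 * K * (Real.log n / Real.log 2)) =
          2 * ((n : ℝ) ^ (2 * K)) := by
        rw [Real.rpow_add (by norm_num), Real.rpow_one]
        congr 1
        have : (2 : ℝ) ^ (Real.log n / Real.log 2) = n := by
          rw [Real.rpow_def_of_pos (by norm_num)]
          rw [mul_div_cancel₀ _ (by positivity)]
          exact Real.exp_log hn0
        rw [mul_comm (2 * (K : ℝ)), Real.rpow_mul (by norm_num), this]
        rw [← Real.rpow_natCast]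
        push_cast
        rfl
      rw [h6]
      push_cast
      have h7 : (2 * (n : ℝ)) ^ K ≤ (n : ℝ) ^ (2 * K) := by
        rw [pow_mul]
        exact pow_le_pow_left₀ (by positivity) (by nlinarith) K
      have h8 : (1 : ℝ) ≤ (n : ℝ) ^ (2 * K) := one_le_pow₀ hnR
      linarith
    calc (2 : ℝ) ^ (2 * (n : ℝ) ^ ν) * (((2 * n) ^ K + 1 : ℕ) : ℝ) ^ (2 * L)
        ≤ (2 : ℝ) ^ (2 * (n : ℝ) ^ ν) *
          ((2 : ℝ) ^ ((1 : ℝ) + 2 * K * (Real.log n / Real.log 2))) ^ (2 * L) := by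
          gcongr
      _ = (2 : ℝ) ^ (2 * (n : ℝ) ^ ν +
            ((1 : ℝ) + 2 * K * (Real.log n / Real.log 2)) * (2 * L : ℕ)) := by
          rw [← Real.rpow_natCast, ← Real.rpow_mul (by norm_num), ← Real.rpow_add (by norm_num)]
      _ ≤ (2 : ℝ) ^ (q : ℝ) := by
          apply Real.rpow_le_rpow_of_exponent_le (by norm_num)
          have hlog2 : (1 / 2 : ℝ) < Real.log 2 := by
            have := Real.log_two_gt_d9
            linarith
          have hlogn : 0 ≤ Real.log n := Real.log_nonneg hnR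
          have h9 : Real.log n / Real.log 2 ≤ 2 * Real.log n := by
            rw [div_le_iff₀ (by linarith)]
            nlinarith
          have h10 : (1 : ℝ) + 2 * K * (Real.log n / Real.log 2) ≤ 1 + 4 * K * Real.log n := by
            have := mul_le_mul_of_nonneg_left h9 (show (0 : ℝ) ≤ 2 * K by positivity)
            linarith
          have h11 : ((2 * L : ℕ) : ℝ) ≤ 6 * (n : ℝ) ^ ν := by
            push_cast
            linarith
          calc 2 * (n : ℝ) ^ ν + ((1 : ℝ) + 2 * K * (Real.log n / Real.log 2)) * (2 * L : ℕ)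
              ≤ 2 * (n : ℝ) ^ ν + (1 + 4 * K * Real.log n) * (6 * (n : ℝ) ^ ν) := by
                gcongr
            _ = (n : ℝ) ^ ν * (8 + 24 * K * Real.log n) := by ring
            _ ≤ (n : ℝ) ^ ν * (n : ℝ) ^ (ν1 - ν) := by
                refine mul_le_mul_of_nonneg_left ?_ (by positivity)
                nlinarith
            _ = (n : ℝ) ^ ν1 := hsplit.symm
            _ ≤ q := hq1
      _ = (2 : ℝ) ^ q := Real.rpow_natCast _ _
  · intro m hm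
    unfold K0 K1
    push_cast
    have hs3 : 3 * (s : ℝ) * K * (2 * L) ≤ (24 * K) * ((n : ℝ) ^ (1 / 2 : ℝ) * (n : ℝ) ^ ν1) := by
      calc 3 * (s : ℝ) * K * (2 * L) = 6 * K * (s * L) := by ring
        _ ≤ 6 * K * ((2 * (n : ℝ) ^ (1 / 2 : ℝ)) * (n : ℝ) ^ ν1) := by gcongr
        _ ≤ (24 * K) * ((n : ℝ) ^ (1 / 2 : ℝ) * (n : ℝ) ^ ν1) := by
            have : (0 : ℝ) ≤ K * ((n : ℝ) ^ (1 / 2 : ℝ) * (n : ℝ) ^ ν1) := by positivity
            nlinarith
    have hq3 : 16 * (q : ℝ) * K * (2 * L) ≤ (64 * K) * ((n : ℝ) ^ ν1 * (n : ℝ) ^ ν1) := by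
      calc 16 * (q : ℝ) * K * (2 * L) = 32 * K * (q * L) := by ring
        _ ≤ 32 * K * ((2 * (n : ℝ) ^ ν1) * (n : ℝ) ^ ν1) := by gcongr
        _ = (64 * K) * ((n : ℝ) ^ ν1 * (n : ℝ) ^ ν1) := by ring
    calc 16 * ((2 : ℝ) ^ K * (3 * (s : ℝ) * K * (2 * L)) ^ K) *
          (16 * (q : ℝ) * K * (2 * L)) ^ K * m
        ≤ 16 * ((2 : ℝ) ^ K * ((24 * K) * ((n : ℝ) ^ (1 / 2 : ℝ) * (n : ℝ) ^ ν1)) ^ K) *
          ((64 * K) * ((n : ℝ) ^ ν1 * (n : ℝ) ^ ν1)) ^ K * (n : ℝ) ^ ((K : ℝ) / 2 - δ) := by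
          gcongr
      _ = C * (((n : ℝ) ^ (1 / 2 : ℝ)) ^ K * (((n : ℝ) ^ ν1) ^ K) ^ 3 *
            (n : ℝ) ^ ((K : ℝ) / 2 - δ)) := by
          rw [hC, mul_pow, mul_pow, mul_pow, mul_pow]
          ring
      _ = C * ((n : ℝ) ^ ((K : ℝ) - ν - η)) := by
          congr 1
          rw [← Real.rpow_natCast, ← Real.rpow_natCast (x := (n : ℝ) ^ ν1),
            ← Real.rpow_natCast (x := ((n : ℝ) ^ ν1) ^ ((K : ℕ) : ℝ)), ← Real.rpow_mul hn0.le,
            ← Real.rpow_mul hn0.le, ← Real.rpow_mul hn0.le, ← Real.rpow_add hn0,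
            ← Real.rpow_add hn0]
          congr 1
          rw [hη]
          push_cast
          ring
      _ = (C / (n : ℝ) ^ η) * ((n : ℝ) ^ (-ν) * (n : ℝ) ^ K) := by
          have : (n : ℝ) ^ ((K : ℝ) - ν - η) = (n : ℝ) ^ (-ν) * (n : ℝ) ^ K / (n : ℝ) ^ η := by
            rw [Real.rpow_sub hn0, ← Real.rpow_natCast, ← Real.rpow_add hn0]
            congr 2
            ring
          rw [this]
          ring
      _ ≤ (1 / 4) * ((n : ℝ) ^ (-ν) * (2 * (n : ℝ)) ^ K) := by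
          have h5 : C / (n : ℝ) ^ η ≤ 1 / 4 := by
            rw [div_le_iff₀ (by positivity)]
            linarith
          have h6 : (n : ℝ) ^ K ≤ (2 * (n : ℝ)) ^ K :=
            pow_le_pow_left₀ hn0.le (by linarith) K
          gcongr
      _ = _ := by ring

theorem core_fin {n K : ℕ} (s L m q : ℕ) (hs : n ≤ s ^ 2) (hs1 : 1 ≤ s) (hL : 1 ≤ L)
    (hK : 1 ≤ K) (hq : 1 ≤ q) (hm : 4 * (K0 K s (2 * L) * K1 K (2 * L) q ^ K * m)
      ≤ Fintype.card (Cl (Fin n) K)) (hC : 0 < Fintype.card (Cl (Fin n) K))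
    {l : List (Finset (Cl (Fin n) K) → ℝ)} (hp : Prog (cnfInputs (Fin n) K) l)
    {f : Finset (Cl (Fin n) K) → ℝ} (hf : f ∈ l) (θ : ℝ) :
    (univ.filter fun x : Fin n → Bool => ¬ θ ≤ f (full x)).card * 2 ^ q
        ≤ l.length * (Fintype.card (Tm (Fin n) K (2 * L)) * 2 ^ n) ∨
      ((univ.filter fun ω : Fin m → Cl (Fin n) K => θ ≤ f (univ.image ω)).card : ℝ)
        ≤ ((l.length : ℝ) / (4 * 2 ^ L) + 2 * ((K0 K s (2 * L) * K1 K (2 * L) q ^ K * m : ℕ) /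
          (Fintype.card (Cl (Fin n) K) : ℝ))) * (Fintype.card (Cl (Fin n) K) : ℝ) ^ m := by
  have hi : (fun a b => Classical.propDecidable (a = b) : DecidableEq (Fin n)) =
    instDecidableEqFin n := Subsingleton.elim _ _
  have h := core (V := Fin n) s L m q (by simpa using hs) hs1 hL hK hq hm hC hp hf θ
  rw [hi] at h
  rw [Fintype.card_fin] at h
  refine h.imp (fun h1 => ?_) (fun h1 => ?_)
  · exact h1
  · exact h1

theorem le_two_rpow (x : ℝ) (hx : 0 ≤ x) : x ≤ 2 ^ x := by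
  rw [Real.rpow_def_of_pos (by norm_num)]
  have h1 := Real.add_one_le_exp (Real.log 2 * x - 1)
  have h2 := Real.log_two_gt_d9
  have h3 : Real.exp (Real.log 2 * x) = Real.exp (Real.log 2 * x - 1) * Real.exp 1 := by
    rw [← Real.exp_add]
    congr 1
    ring
  have h4 := Real.exp_one_gt_d9
  rw [h3]
  have h5 : 0 ≤ Real.log 2 * x := by positivity
  have h6 : Real.log 2 * x * Real.exp 1 ≤ Real.exp (Real.log 2 * x - 1) * Real.exp 1 :=
    mul_le_mul_of_nonneg_right (by linarith) (by positivity)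
  have h7 : Real.log 2 * x * 2.7 ≤ Real.log 2 * x * Real.exp 1 :=
    mul_le_mul_of_nonneg_left (by linarith) h5
  nlinarith

/-- the dichotomy for circuits of monotone real gates of size at most `2^(n^ν)` on formulas with at
most `n^(K/2-δ)` clauses -/
theorem asymp_random (K : ℕ) (hK : 1 ≤ K) (δ ν : ℝ) (hν : 0 < ν) (h : (3 * K + 1) * ν < δ) :
    ∃ N : ℕ, ∀ n : ℕ, N ≤ n → ∀ m : ℕ, (m : ℝ) ≤ (n : ℝ) ^ ((K : ℝ) / 2 - δ) →
      ∀ l : List (Finset (Cl (Fin n) K) → ℝ), Prog (cnfInputs (Fin n) K) l →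
      (l.length : ℝ) ≤ 2 ^ ((n : ℝ) ^ ν) → ∀ f ∈ l, ∀ θ : ℝ,
      ((univ.filter fun x : Fin n → Bool => ¬ θ ≤ f (full x)).card : ℝ)
          ≤ 2 ^ (-(n : ℝ) ^ ν) * 2 ^ n ∨
        ((univ.filter fun ω : Fin m → Cl (Fin n) K => θ ≤ f (univ.image ω)).card : ℝ)
          ≤ (n : ℝ) ^ (-ν) * (Fintype.card (Cl (Fin n) K) : ℝ) ^ m := by
  obtain ⟨N, hN⟩ := params K hK δ ν hν h
  refine ⟨N, fun n hn m hm l hp hlen f hf θ => ?_⟩
  obtain ⟨hn1, s, L, q, hs, hs1, hL1, hq1, hL, hq, hB⟩ := hN n hn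
  have hnR : (1 : ℝ) ≤ n := by exact_mod_cast hn1
  have hn0 : (0 : ℝ) < n := by linarith
  have hx0 : 0 < (n : ℝ) ^ ν := by positivity
  have hBm := hB m hm
  have hcl : (Fintype.card (Cl (Fin n) K) : ℝ) = ((2 * n : ℕ) : ℝ) ^ K := by
    rw [card_cl]; push_cast; rfl
  have hCpos : 0 < Fintype.card (Cl (Fin n) K) := by
    rw [card_cl]
    positivity
  have hCr : (0 : ℝ) < (Fintype.card (Cl (Fin n) K) : ℝ) := by exact_mod_cast hCpos
  have hinv : (n : ℝ) ^ (-ν) ≤ 1 := Real.rpow_le_one_of_one_le_of_nonpos hnR (by linarith)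
  have h4 : 4 * (K0 K s (2 * L) * K1 K (2 * L) q ^ K * m) ≤ Fintype.card (Cl (Fin n) K) := by
    have : (4 : ℝ) * ((K0 K s (2 * L) * K1 K (2 * L) q ^ K * m : ℕ) : ℝ) ≤
        (Fintype.card (Cl (Fin n) K) : ℝ) := by
      rw [hcl]
      have h5 : (n : ℝ) ^ (-ν) / 4 * ((2 * n : ℕ) : ℝ) ^ K ≤ 1 / 4 * ((2 * n : ℕ) : ℝ) ^ K := by
        gcongr
      linarith
    exact_mod_cast this
  rcases core_fin s L m q hs hs1 hL1 hK hq1 h4 hCpos hp hf θ with hc | hc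
  · left
    have hc' : ((univ.filter fun x : Fin n → Bool => ¬ θ ≤ f (full x)).card : ℝ) * 2 ^ q ≤
        l.length * ((Fintype.card (Tm (Fin n) K (2 * L)) : ℝ) * 2 ^ n) := by
      exact_mod_cast hc
    have htm : (Fintype.card (Tm (Fin n) K (2 * L)) : ℝ) ≤
        (((2 * n) ^ K + 1 : ℕ) : ℝ) ^ (2 * L) := by
      have := card_tm (V := Fin n) K (2 * L)
      rw [card_cl] at this
      exact_mod_cast this
    have h6 : (l.length : ℝ) * ((Fintype.card (Tm (Fin n) K (2 * L)) : ℝ) * 2 ^ n) ≤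
        (2 ^ (-(n : ℝ) ^ ν) * 2 ^ n) * 2 ^ q := by
      calc (l.length : ℝ) * ((Fintype.card (Tm (Fin n) K (2 * L)) : ℝ) * 2 ^ n)
          ≤ 2 ^ ((n : ℝ) ^ ν) * ((((2 * n) ^ K + 1 : ℕ) : ℝ) ^ (2 * L) * 2 ^ n) := by gcongr
        _ = (2 ^ (-(n : ℝ) ^ ν) * 2 ^ n) * ((2 : ℝ) ^ (2 * (n : ℝ) ^ ν) *
            (((2 * n) ^ K + 1 : ℕ) : ℝ) ^ (2 * L)) := by
            have h7 : (2 : ℝ) ^ ((n : ℝ) ^ ν) = 2 ^ (-(n : ℝ) ^ ν) * 2 ^ (2 * (n : ℝ) ^ ν) := by
              rw [← Real.rpow_add (by norm_num)]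
              congr 1
              ring
            rw [h7]
            ring
        _ ≤ _ := mul_le_mul_of_nonneg_left hq (by positivity)
    exact le_of_mul_le_mul_right (hc'.trans h6) (by positivity)
  · right
    refine hc.trans (mul_le_mul_of_nonneg_right ?_ (by positivity))
    have h8 : (l.length : ℝ) / (4 * 2 ^ L) ≤ (n : ℝ) ^ (-ν) / 4 := by
      have h9 : (2 : ℝ) ^ L = 2 ^ (L : ℝ) := (Real.rpow_natCast _ _).symm
      have h10 : (2 : ℝ) ^ (2 * (n : ℝ) ^ ν) ≤ 2 ^ (L : ℝ) :=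
        Real.rpow_le_rpow_of_exponent_le (by norm_num) hL
      have h11 : (n : ℝ) ^ ν ≤ 2 ^ ((n : ℝ) ^ ν) := le_two_rpow _ hx0.le
      rw [h9, div_le_div_iff₀ (by positivity) (by norm_num), Real.rpow_neg hn0.le]
      have h12 : (2 : ℝ) ^ (2 * (n : ℝ) ^ ν) = 2 ^ ((n : ℝ) ^ ν) * 2 ^ ((n : ℝ) ^ ν) := by
        rw [← Real.rpow_add (by norm_num)]
        congr 1
        ring
      have h15 : (l.length : ℝ) * (n : ℝ) ^ ν ≤ 2 ^ (L : ℝ) := by
        calc (l.length : ℝ) * (n : ℝ) ^ ν ≤ 2 ^ ((n : ℝ) ^ ν) * 2 ^ ((n : ℝ) ^ ν) := by gcongr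
          _ = (2 : ℝ) ^ (2 * (n : ℝ) ^ ν) := h12.symm
          _ ≤ _ := h10
      have h16 : (l.length : ℝ) ≤ ((n : ℝ) ^ ν)⁻¹ * 2 ^ (L : ℝ) := by
        rw [inv_mul_eq_div, le_div_iff₀ hx0]
        exact h15
      linarith
    have h13 : ((K0 K s (2 * L) * K1 K (2 * L) q ^ K * m : ℕ) : ℝ) /
        (Fintype.card (Cl (Fin n) K) : ℝ) ≤ (n : ℝ) ^ (-ν) / 4 := by
      rw [div_le_iff₀ hCr, hcl]
      exact hBm
    have h14 : 0 ≤ (n : ℝ) ^ (-ν) := by positivity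
    linarith

end H630XR
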