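import Pool.Agent.H630VC.Model

/-!
# Random CNF formulas and circuits of monotone real gates: the definitions
-/

open scoped Classical
open Finset

namespace H630XR

/-- the clauses of width `K` over the variables `V`: sequences of `K` literals; the literal `(v, b)`
is true if `v` has the value `b` -/
abbrev Cl (V : Type*) (K : ℕ) : Type _ := Fin K → V × Bool

/-- some assignment makes at least one literal of every clause in `F` true -/
def SatCNF {V : Type*} {K : ℕ} (F : Finset (Cl V K)) : Prop :=
  ∃ x : V → Bool, ∀ c ∈ F, ∃ i, x (c i).1 = (c i).2

/-- some assignment makes an odd number of literals of every clause in `F` true: `F` is read as a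
system of linear equations over the field with two elements, each of them with `K` variables -/
def SatXOR {V : Type*} {K : ℕ} (F : Finset (Cl V K)) : Prop :=
  ∃ x : V → Bool, ∀ c ∈ F, Odd (univ.filter fun i => x (c i).1 = (c i).2).card

/-- the formula that consists of all clauses with an odd number of literals true under `x` -/
noncomputable def oddFormula {V : Type*} [Fintype V] {K : ℕ} (x : V → Bool) : Finset (Cl V K) :=
  univ.filter fun c => Odd (univ.filter fun i => x (c i).1 = (c i).2).card

/-- `F` has clauses, and every assignment makes all literals false in at least a fraction `ε` of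
them -/
def Far {V : Type*} {K : ℕ} (ε : ℝ) (F : Finset (Cl V K)) : Prop :=
  F.Nonempty ∧ ∀ x : V → Bool, ε * F.card ≤ (F.filter fun c => ∀ i, x (c i).1 ≠ (c i).2).card

/-- the inputs of the circuits: for each clause the bit that tells whether it belongs to the formula,
and real constants -/
def cnfInputs (V : Type*) (K : ℕ) : Set (Finset (Cl V K) → ℝ) :=
  {f | (∃ c : Cl V K, f = fun F => if c ∈ F then 1 else 0) ∨ ∃ a : ℝ, f = fun _ => a}

/-- the inputs of Boolean circuits: for each clause the bit that tells whether it belongs to the
formula, and the constants zero and one -/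
def bitInputs (V : Type*) (K : ℕ) : Set (Finset (Cl V K) → ℝ) :=
  {f | (∃ c : Cl V K, f = fun F => if c ∈ F then 1 else 0) ∨ f = (fun _ => 0) ∨ f = fun _ => 1}

/-- `MProg inp l`: `l` is the list of the functions computed at the gates of a circuit (last gate
first); each gate is an input gate, that is a function from `inp`, or the minimum (AND) or the
maximum (OR) of the values of two earlier gates -/
inductive MProg {I : Type*} (inp : Set (I → ℝ)) : List (I → ℝ) → Prop
  | nil : MProg inp []
  | input {l : List (I → ℝ)} {f : I → ℝ} : MProg inp l → f ∈ inp → MProg inp (f :: l)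
  | and {l : List (I → ℝ)} {f g : I → ℝ} :
      MProg inp l → f ∈ l → g ∈ l → MProg inp ((fun x => min (f x) (g x)) :: l)
  | or {l : List (I → ℝ)} {f g : I → ℝ} :
      MProg inp l → f ∈ l → g ∈ l → MProg inp ((fun x => max (f x) (g x)) :: l)

end H630XR
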