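import Pool.Agent.H630XR.Stubs
import Pool.Agent.H630VC.Rounds

/-! The second moment step (helper630) -/

open scoped Classical
open Finset

namespace H630XR

variable {V : Type*} [Fintype V] {K : ℕ}

/-- the base of the spread in the clauses -/
def K0 (K s l : ℕ) : ℕ := 16 * (2 ^ K * (3 * s * K * l) ^ K)

/-- the base of the spread in the variables -/
def K1 (K l q : ℕ) : ℕ := 16 * q * K * l

theorem K0_pos {K s l : ℕ} (hK : 1 ≤ K) (hs : 1 ≤ s) (hl : 1 ≤ l) : 0 < K0 K s l := by
  unfold K0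
  have : 0 < 3 * s * K * l := by positivity
  positivity

theorem K1_pos {K l q : ℕ} (hK : 1 ≤ K) (hl : 1 ≤ l) (hq : 1 ≤ q) : 0 < K1 K l q := by
  unfold K1
  positivity

theorem mem_vars {t : Finset (Cl V K)} {v : V} : v ∈ vars t ↔ ∃ c ∈ t, ∃ i, (c i).1 = v := by
  simp [vars]

theorem vars_mono {t t' : Finset (Cl V K)} (h : t ⊆ t') : vars t ⊆ vars t' := by
  intro v hv
  obtain ⟨c, hc, i, hi⟩ := mem_vars.1 hv
  exact mem_vars.2 ⟨c, h hc, i, hi⟩

theorem card_vars_le (t : Finset (Cl V K)) : (vars t).card ≤ K * t.card := by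
  have h : vars t ⊆ t.biUnion fun c => univ.image fun i => (c i).1 := by
    intro v hv
    obtain ⟨c, hc, i, hi⟩ := mem_vars.1 hv
    exact mem_biUnion.2 ⟨c, hc, mem_image.2 ⟨i, mem_univ _, hi⟩⟩
  calc (vars t).card ≤ (t.biUnion fun c => univ.image fun i => (c i).1).card := card_le_card h
    _ ≤ ∑ c ∈ t, (univ.image fun i => (c i).1).card := card_biUnion_le
    _ ≤ ∑ c ∈ t, K := Finset.sum_le_sum fun c _ => card_image_le.trans (by simp)
    _ = K * t.card := by rw [sum_const, smul_eq_mul, mul_comm]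

/-- the number of labellings that are `c` on `A` -/
theorem card_label {q : ℕ} (c : Fin q) (A : Finset V) :
    (univ.filter fun g : V → Fin q => ∀ v ∈ A, g v = c).card * q ^ A.card
      = q ^ Fintype.card V := by
  have h1 : (univ.filter fun g : V → Fin q => ∀ v ∈ A, g v = c) = Fintype.piFinset
      (fun v => if v ∈ A then ({c} : Finset (Fin q)) else univ) := by
    ext τ
    simp only [mem_filter, mem_univ, true_and, Fintype.mem_piFinset]
    refine forall_congr' fun v => ?_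
    by_cases hv : v ∈ A
    · simp only [hv, true_imp_iff, if_true, mem_singleton]
    · simp [hv]
  have h2 : (univ.filter fun g : V → Fin q => ∀ v ∈ A, g v = c).card =
      ∏ v : V, (if v ∈ A then 1 else q) := by
    rw [h1, Fintype.card_piFinset]
    refine Finset.prod_congr rfl fun v _ => ?_
    by_cases hv : v ∈ A
    · simp [hv]
    · simp [hv]
  have h3 : q ^ A.card = ∏ v : V, (if v ∈ A then q else 1) := by
    rw [Finset.prod_ite_mem, univ_inter, prod_const]
  rw [h2, h3, ← Finset.prod_mul_distrib]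
  have h4 : ∀ v : V, (if v ∈ A then 1 else q) * (if v ∈ A then q else 1) = q := by
    intro v
    by_cases hv : v ∈ A <;> simp [hv]
  simp only [h4, prod_const, card_univ]

/-- no nonempty part of `A` has even multiplicities outside `Z` -/
def Nice (Z : Finset V) (A : Finset (Cl V K)) : Prop := ∀ B ⊆ A, EvenOut Z B → B = ∅

/-- most members of a spread family are nice -/
theorem card_not_nice (s l q : ℕ) (hs : Fintype.card V ≤ s ^ 2) (hs1 : 1 ≤ s) (hl : 1 ≤ l)
    (hK : 1 ≤ K) (G : Finset (Finset (Cl V K))) (t0 : Finset (Cl V K)) (Z : Finset V)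
    (hmem : ∀ t ∈ G, t0 ⊆ t ∧ t.card ≤ l ∧ Z ⊆ vars t) (hZl : Z.card ≤ K * l)
    (hspread : ∀ (Y : Finset (Cl V K)) (U : Finset V), Disjoint Y t0 → Disjoint U Z →
      ((G.filter fun t => Y ⊆ t ∧ U ⊆ vars t).card : ℝ) *
        ((K0 K s l : ℝ) ^ Y.card * (K1 K l q : ℝ) ^ U.card) ≤ G.card) :
    ((G.filter fun t => ¬ Nice Z (t \ t0)).card : ℝ) ≤ 1 / 15 * G.card := by
  set 𝓑 := univ.filter (fun B : Finset (Cl V K) => 1 ≤ B.card ∧ B.card ≤ l ∧ EvenOut Z B) with h𝓑
  have hK0 : (0 : ℝ) < K0 K s l := by exact_mod_cast K0_pos hK hs1 hl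
  have hsub : (G.filter fun t => ¬ Nice Z (t \ t0)) ⊆
      (𝓑.filter fun B => Disjoint B t0).biUnion fun B => G.filter fun t => B ⊆ t ∧ ∅ ⊆ vars t := by
    intro t ht
    rw [mem_filter] at ht
    obtain ⟨htG, hn⟩ := ht
    unfold Nice at hn
    push Not at hn
    obtain ⟨B, hB, hev, hne⟩ := hn
    rw [mem_biUnion]
    refine ⟨B, ?_, ?_⟩
    · rw [mem_filter, h𝓑, mem_filter]
      refine ⟨⟨mem_univ _, hne.card_pos, ?_, hev⟩, ?_⟩
      · exact (card_le_card (hB.trans sdiff_subset)).trans (hmem t htG).2.1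
      · exact disjoint_of_subset_left hB sdiff_disjoint
    · rw [mem_filter]
      exact ⟨htG, hB.trans sdiff_subset, empty_subset _⟩
  calc ((G.filter fun t => ¬ Nice Z (t \ t0)).card : ℝ)
      ≤ (((𝓑.filter fun B => Disjoint B t0).biUnion fun B =>
          G.filter fun t => B ⊆ t ∧ ∅ ⊆ vars t).card : ℝ) := by exact_mod_cast card_le_card hsub
    _ ≤ ((∑ B ∈ 𝓑.filter fun B => Disjoint B t0,
          (G.filter fun t => B ⊆ t ∧ ∅ ⊆ vars t).card : ℕ) : ℝ) := by exact_mod_cast card_biUnion_le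
    _ = ∑ B ∈ 𝓑.filter (fun B => Disjoint B t0),
          ((G.filter fun t => B ⊆ t ∧ ∅ ⊆ vars t).card : ℝ) := by push_cast; rfl
    _ ≤ ∑ B ∈ 𝓑.filter (fun B => Disjoint B t0), (G.card : ℝ) * (1 / (K0 K s l : ℝ)) ^ B.card := by
        refine Finset.sum_le_sum fun B hB => ?_
        have h := hspread B ∅ (mem_filter.1 hB).2 (disjoint_empty_left _)
        rw [card_empty, pow_zero, mul_one] at h
        rw [one_div, inv_pow, ← div_eq_mul_inv, le_div_iff₀ (by positivity)]
        exact h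
    _ ≤ ∑ B ∈ 𝓑, (G.card : ℝ) * (1 / (K0 K s l : ℝ)) ^ B.card :=
        Finset.sum_le_sum_of_subset_of_nonneg (filter_subset _ _) fun _ _ _ => by positivity
    _ = G.card * ∑ B ∈ 𝓑, (1 / (K0 K s l : ℝ)) ^ B.card := by rw [← Finset.mul_sum]
    _ ≤ G.card * (1 / 15) := by
        refine mul_le_mul_of_nonneg_left ?_ (by positivity)
        exact sum_evenOut s l hs1 hl hK Z hZl
          (fun b => card_evenOut s (fun M W => card_paired s hs M W) b Z)
    _ = 1 / 15 * G.card := by ring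

/-- the sum over the second member of a pair -/
theorem sum_second (s l q : ℕ) (hs : Fintype.card V ≤ s ^ 2) (hs1 : 1 ≤ s) (hl : 1 ≤ l)
    (hK : 1 ≤ K) (hq : 1 ≤ q) (G : Finset (Finset (Cl V K))) (t0 : Finset (Cl V K)) (Z : Finset V)
    (hmem : ∀ t ∈ G, t0 ⊆ t ∧ t.card ≤ l ∧ Z ⊆ vars t)
    (hspread : ∀ (Y : Finset (Cl V K)) (U : Finset V), Disjoint Y t0 → Disjoint U Z →
      ((G.filter fun t => Y ⊆ t ∧ U ⊆ vars t).card : ℝ) *
        ((K0 K s l : ℝ) ^ Y.card * (K1 K l q : ℝ) ^ U.card) ≤ G.card)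
    (t : Finset (Cl V K)) (ht : t ∈ G) :
    ∑ t' ∈ G, (q : ℝ) ^ ((vars t \ Z) ∩ (vars t' \ Z)).card *
      (((t' \ t0).powerset.filter fun B' => EvenOut (Z ∪ vars (t \ t0)) B').card : ℝ)
      ≤ 8 / 5 * G.card := by
  have hK0 : (0 : ℝ) < K0 K s l := by exact_mod_cast K0_pos hK hs1 hl
  have hK1 : (0 : ℝ) < K1 K l q := by exact_mod_cast K1_pos hK hl hq
  have hq0 : (0 : ℝ) < q := by exact_mod_cast hq
  set W := Z ∪ vars (t \ t0) with hW
  have hWsub : W ⊆ vars t := union_subset (hmem t ht).2.2 (vars_mono sdiff_subset)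
  have hWl : W.card ≤ K * l := (card_le_card hWsub).trans
    ((card_vars_le t).trans (Nat.mul_le_mul_left _ (hmem t ht).2.1))
  set 𝓑 := univ.filter (fun B : Finset (Cl V K) => B.card ≤ l ∧ EvenOut W B) with h𝓑
  -- the bound of one summand
  have e1 : ∀ t' ∈ G, (q : ℝ) ^ ((vars t \ Z) ∩ (vars t' \ Z)).card *
      (((t' \ t0).powerset.filter fun B' => EvenOut W B').card : ℝ) ≤
      ∑ U ∈ (vars t \ Z).powerset, ∑ B ∈ 𝓑.filter (fun B => Disjoint B t0),
        if B ⊆ t' ∧ U ⊆ vars t' then (q : ℝ) ^ U.card else 0 := by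
    intro t' ht'
    have h7 := Finset.sum_pow_mul_eq_add_pow (q : ℝ) 1 ((vars t \ Z) ∩ (vars t' \ Z))
    simp only [one_pow, mul_one] at h7
    have h8 : (q : ℝ) ^ ((vars t \ Z) ∩ (vars t' \ Z)).card ≤
        ((q : ℝ) + 1) ^ ((vars t \ Z) ∩ (vars t' \ Z)).card :=
      pow_le_pow_left₀ hq0.le (by linarith) _
    rw [← h7] at h8
    refine (mul_le_mul_of_nonneg_right h8 (Nat.cast_nonneg _)).trans ?_
    rw [Finset.sum_mul]
    calc ∑ U ∈ ((vars t \ Z) ∩ (vars t' \ Z)).powerset, (q : ℝ) ^ U.card *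
          (((t' \ t0).powerset.filter fun B' => EvenOut W B').card : ℝ)
        ≤ ∑ U ∈ ((vars t \ Z) ∩ (vars t' \ Z)).powerset,
          ∑ B ∈ 𝓑.filter (fun B => Disjoint B t0),
          if B ⊆ t' ∧ U ⊆ vars t' then (q : ℝ) ^ U.card else 0 := by
          refine Finset.sum_le_sum fun U hU => ?_
          rw [mem_powerset] at hU
          have hU' : U ⊆ vars t' := fun v hv => (mem_sdiff.1 (mem_inter.1 (hU hv)).2).1
          rw [← Finset.sum_filter, sum_const, nsmul_eq_mul, mul_comm]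
          refine mul_le_mul_of_nonneg_right ?_ (by positivity)
          have : ((t' \ t0).powerset.filter fun B' => EvenOut W B') ⊆
              ((𝓑.filter fun B => Disjoint B t0).filter fun B => B ⊆ t' ∧ U ⊆ vars t') := by
            intro B hB
            rw [mem_filter, mem_powerset] at hB
            rw [mem_filter, mem_filter, h𝓑, mem_filter]
            refine ⟨⟨⟨mem_univ _, ?_, hB.2⟩, ?_⟩, hB.1.trans sdiff_subset, hU'⟩
            · exact (card_le_card (hB.1.trans sdiff_subset)).trans (hmem t' ht').2.1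
            · exact disjoint_of_subset_left hB.1 sdiff_disjoint
          exact_mod_cast card_le_card this
      _ ≤ _ := Finset.sum_le_sum_of_subset_of_nonneg
          (powerset_mono.2 inter_subset_left) fun _ _ _ =>
            Finset.sum_nonneg fun _ _ => by split_ifs <;> positivity
  refine (Finset.sum_le_sum e1).trans ?_
  rw [Finset.sum_comm]
  have e2 : ∀ U ∈ (vars t \ Z).powerset, ∑ t' ∈ G, ∑ B ∈ 𝓑.filter (fun B => Disjoint B t0),
      (if B ⊆ t' ∧ U ⊆ vars t' then (q : ℝ) ^ U.card else 0) ≤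
      (G.card : ℝ) * ((q : ℝ) / K1 K l q) ^ U.card * (16 / 15) := by
    intro U hU
    rw [mem_powerset] at hU
    have hUZ : Disjoint U Z := disjoint_of_subset_left hU sdiff_disjoint
    rw [Finset.sum_comm]
    have e3 : ∀ B ∈ 𝓑.filter (fun B => Disjoint B t0), ∑ t' ∈ G,
        (if B ⊆ t' ∧ U ⊆ vars t' then (q : ℝ) ^ U.card else 0) ≤
        (G.card : ℝ) * ((q : ℝ) / K1 K l q) ^ U.card * (1 / (K0 K s l : ℝ)) ^ B.card := by
      intro B hB
      rw [← Finset.sum_filter, sum_const, nsmul_eq_mul]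
      have h := hspread B U (mem_filter.1 hB).2 hUZ
      rw [div_pow, one_div, inv_pow, ← div_eq_mul_inv, ← mul_div_assoc, div_div,
        le_div_iff₀ (by positivity)]
      calc _ = ((G.filter fun t => B ⊆ t ∧ U ⊆ vars t).card : ℝ) *
            ((K0 K s l : ℝ) ^ B.card * (K1 K l q : ℝ) ^ U.card) * (q : ℝ) ^ U.card := by ring
        _ ≤ (G.card : ℝ) * (q : ℝ) ^ U.card := mul_le_mul_of_nonneg_right h (by positivity)
    refine (Finset.sum_le_sum e3).trans ?_
    rw [← Finset.mul_sum]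
    refine mul_le_mul_of_nonneg_left ?_ (by positivity)
    have hsplit : 𝓑.filter (fun B => Disjoint B t0) ⊆ {∅} ∪
        univ.filter (fun B : Finset (Cl V K) => 1 ≤ B.card ∧ B.card ≤ l ∧ EvenOut W B) := by
      intro B hB
      rw [mem_filter, h𝓑, mem_filter] at hB
      rw [mem_union, mem_singleton, mem_filter]
      rcases B.eq_empty_or_nonempty with h | h
      · exact Or.inl h
      · exact Or.inr ⟨mem_univ _, h.card_pos, hB.1.2.1, hB.1.2.2⟩
    calc ∑ B ∈ 𝓑.filter (fun B => Disjoint B t0), (1 / (K0 K s l : ℝ)) ^ B.card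
        ≤ ∑ B ∈ {∅} ∪ univ.filter (fun B : Finset (Cl V K) =>
            1 ≤ B.card ∧ B.card ≤ l ∧ EvenOut W B), (1 / (K0 K s l : ℝ)) ^ B.card :=
          Finset.sum_le_sum_of_subset_of_nonneg hsplit fun _ _ _ => by positivity
      _ ≤ ∑ B ∈ ({∅} : Finset (Finset (Cl V K))), (1 / (K0 K s l : ℝ)) ^ B.card +
          ∑ B ∈ univ.filter (fun B : Finset (Cl V K) =>
            1 ≤ B.card ∧ B.card ≤ l ∧ EvenOut W B), (1 / (K0 K s l : ℝ)) ^ B.card := by
          rw [← Finset.sum_union_inter]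
          exact le_add_of_nonneg_right (Finset.sum_nonneg fun _ _ => by positivity)
      _ ≤ 1 + 1 / 15 := by
          refine add_le_add (by simp) ?_
          exact sum_evenOut s l hs1 hl hK W hWl
            (fun b => card_evenOut s (fun M W => card_paired s hs M W) b W)
      _ = 16 / 15 := by norm_num
  refine (Finset.sum_le_sum e2).trans ?_
  rw [← Finset.sum_mul, ← Finset.mul_sum]
  have h11 := Finset.sum_pow_mul_eq_add_pow ((q : ℝ) / K1 K l q) 1 (vars t \ Z)
  simp only [one_pow, mul_one] at h11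
  rw [h11]
  have h12 : ((q : ℝ) / K1 K l q + 1) ^ (vars t \ Z).card ≤ 3 / 2 := by
    have h13 : (q : ℝ) / K1 K l q = 1 / (4 * ((4 * (K * l) : ℕ) : ℝ)) := by
      unfold K1
      push_cast
      have : (0 : ℝ) < K := by exact_mod_cast hK
      have : (0 : ℝ) < l := by exact_mod_cast hl
      field_simp
      ring
    rw [h13, add_comm]
    have hKl : 1 ≤ K * l := Nat.one_le_iff_ne_zero.2 (by positivity)
    refine H630VC.RoundsAux.pow_bound (4 * (K * l)) _ (by omega) ?_
    have h14 : (vars t \ Z).card ≤ K * l := (card_le_card sdiff_subset).trans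
      ((card_vars_le t).trans (Nat.mul_le_mul_left _ (hmem t ht).2.1))
    omega
  have hG0 : (0 : ℝ) ≤ G.card := Nat.cast_nonneg _
  nlinarith

/-- one block: with probability at least one half some member of the spread family is satisfied and
has all its free variables in the block `c` -/
theorem one_round (s l q : ℕ) (hs : Fintype.card V ≤ s ^ 2) (hs1 : 1 ≤ s) (hl : 1 ≤ l)
    (hK : 1 ≤ K) (hq : 1 ≤ q) (G : Finset (Finset (Cl V K))) (t0 : Finset (Cl V K)) (Z : Finset V)
    (hG : G.Nonempty) (k : ℕ) (hk : ∀ t ∈ G, (t \ t0).card = k)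
    (hmem : ∀ t ∈ G, t0 ⊆ t ∧ t.card ≤ l ∧ Z ⊆ vars t)
    (hspread : ∀ (Y : Finset (Cl V K)) (U : Finset V), Disjoint Y t0 → Disjoint U Z →
      ((G.filter fun t => Y ⊆ t ∧ U ⊆ vars t).card : ℝ) *
        ((K0 K s l : ℝ) ^ Y.card * (K1 K l q : ℝ) ^ U.card) ≤ G.card)
    (y : V → Bool) (c : Fin q) :
    (univ.filter fun p : (V → Fin q) × (V → Bool) => ∀ t ∈ G, (∀ v ∈ vars t \ Z, p.1 v = c) →
      ¬ Sats (glue Z y p.2) (t \ t0)).card * 2 ≤ q ^ Fintype.card V * 2 ^ Fintype.card V := by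
  have hq0 : (0 : ℝ) < q := by exact_mod_cast hq
  set n := Fintype.card V with hn
  obtain ⟨t1, ht1⟩ := hG
  have hZl : Z.card ≤ K * l := (card_le_card (hmem t1 ht1).2.2).trans
    ((card_vars_le t1).trans (Nat.mul_le_mul_left _ (hmem t1 ht1).2.1))
  set g : ℝ := (G.card : ℝ) with hg
  have hg0 : 0 < g := by
    rw [hg]
    exact_mod_cast card_pos.2 ⟨t1, ht1⟩
  set G' := G.filter fun t => Nice Z (t \ t0) with hG'
  set g' : ℝ := (G'.card : ℝ) with hg'
  have hgg' : 14 / 15 * g ≤ g' := by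
    have h1 := card_not_nice s l q hs hs1 hl hK G t0 Z hmem hZl hspread
    have h2 : (G'.card : ℝ) + ((G.filter fun t => ¬ Nice Z (t \ t0)).card : ℝ) = G.card := by
      rw [hG']
      exact_mod_cast Finset.card_filter_add_card_filter_not (fun t => Nice Z (t \ t0))
    rw [hg', hg]
    linarith
  -- indicator functions
  let a : Finset (Cl V K) → (V → Fin q) → ℝ := fun t lam =>
    if (∀ v ∈ vars t \ Z, lam v = c) then (q : ℝ) ^ (vars t \ Z).card else 0
  let b : Finset (Cl V K) → (V → Bool) → ℝ := fun t x =>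
    if Sats (glue Z y x) (t \ t0) then (2 : ℝ) ^ k else 0
  let X : (V → Fin q) × (V → Bool) → ℝ := fun p => ∑ t ∈ G', a t p.1 * b t p.2
  have ha1 : ∀ t, ∑ lam, a t lam = (q : ℝ) ^ n := by
    intro t
    simp only [a]
    rw [← Finset.sum_filter, sum_const, nsmul_eq_mul]
    exact_mod_cast card_label c (vars t \ Z)
  have ha2 : ∀ t t', ∑ lam, a t lam * a t' lam =
      (q : ℝ) ^ n * (q : ℝ) ^ ((vars t \ Z) ∩ (vars t' \ Z)).card := by
    intro t t'
    have e1 : ∀ lam, a t lam * a t' lam = if (∀ v ∈ (vars t \ Z) ∪ (vars t' \ Z), lam v = c) then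
        (q : ℝ) ^ (vars t \ Z).card * (q : ℝ) ^ (vars t' \ Z).card else 0 := by
      intro lam
      simp only [a]
      by_cases h1 : ∀ v ∈ vars t \ Z, lam v = c
      · by_cases h2 : ∀ v ∈ vars t' \ Z, lam v = c
        · rw [if_pos h1, if_pos h2, if_pos]
          intro v hv
          rcases mem_union.1 hv with hv | hv
          · exact h1 v hv
          · exact h2 v hv
        · rw [if_neg h2, mul_zero, if_neg]
          exact fun h => h2 fun v hv => h v (mem_union_right _ hv)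
      · rw [if_neg h1, zero_mul, if_neg]
        exact fun h => h1 fun v hv => h v (mem_union_left _ hv)
    simp_rw [e1]
    rw [← Finset.sum_filter, sum_const, nsmul_eq_mul]
    have h5 : ((vars t \ Z) ∪ (vars t' \ Z)).card + ((vars t \ Z) ∩ (vars t' \ Z)).card =
        (vars t \ Z).card + (vars t' \ Z).card := Finset.card_union_add_card_inter _ _
    have h6 : (q : ℝ) ^ (vars t \ Z).card * (q : ℝ) ^ (vars t' \ Z).card =
        (q : ℝ) ^ ((vars t \ Z) ∪ (vars t' \ Z)).card *
        (q : ℝ) ^ ((vars t \ Z) ∩ (vars t' \ Z)).card := by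
      rw [← pow_add, ← pow_add, h5]
    have h7 : ((univ.filter fun lam : V → Fin q =>
        ∀ v ∈ (vars t \ Z) ∪ (vars t' \ Z), lam v = c).card : ℝ) *
        (q : ℝ) ^ ((vars t \ Z) ∪ (vars t' \ Z)).card = (q : ℝ) ^ n := by
      exact_mod_cast card_label c ((vars t \ Z) ∪ (vars t' \ Z))
    rw [h6, ← mul_assoc, h7]
  have hb1 : ∀ t ∈ G', ∑ x, b t x = (2 : ℝ) ^ n := by
    intro t ht
    rw [hG', mem_filter] at ht
    simp only [b]
    rw [← Finset.sum_filter, sum_const, nsmul_eq_mul]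
    have h1 := card_sats_one Z y (t \ t0) ht.2
    rw [hk t ht.1] at h1
    exact_mod_cast h1
  have hb2 : ∀ t ∈ G', ∀ t' ∈ G', ∑ x, b t x * b t' x ≤ (2 : ℝ) ^ n *
      (((t' \ t0).powerset.filter fun B' => EvenOut (Z ∪ vars (t \ t0)) B').card : ℝ) := by
    intro t ht t' ht'
    rw [hG', mem_filter] at ht ht'
    have e1 : ∀ x, b t x * b t' x = if Sats (glue Z y x) (t \ t0) ∧ Sats (glue Z y x) (t' \ t0)
        then (2 : ℝ) ^ (k + k) else 0 := by
      intro x
      simp only [b]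
      by_cases h1 : Sats (glue Z y x) (t \ t0)
      · by_cases h2 : Sats (glue Z y x) (t' \ t0)
        · rw [if_pos h1, if_pos h2, if_pos ⟨h1, h2⟩, pow_add]
        · rw [if_neg h2, mul_zero, if_neg (fun h => h2 h.2)]
      · rw [if_neg h1, zero_mul, if_neg (fun h => h1 h.1)]
    simp_rw [e1]
    rw [← Finset.sum_filter, sum_const, nsmul_eq_mul]
    have h1 := card_sats_two Z y (t \ t0) (t' \ t0) ht.2
    rw [hk t ht.1, hk t' ht'.1] at h1
    exact_mod_cast h1
  have hb0 : ∀ t x, 0 ≤ b t x := fun t x => by simp only [b]; split_ifs <;> positivity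
  have ha0 : ∀ t lam, 0 ≤ a t lam := fun t lam => by simp only [a]; split_ifs <;> positivity
  have hX1 : ∑ p, X p = g' * ((q : ℝ) ^ n * (2 : ℝ) ^ n) := by
    simp only [X]
    rw [Finset.sum_comm, Finset.sum_congr rfl (g := fun _ => (q : ℝ) ^ n * (2 : ℝ) ^ n)]
    · rw [sum_const, nsmul_eq_mul]
    · intro t ht
      rw [Fintype.sum_prod_type]
      simp only
      rw [← ha1 t, ← hb1 t ht, Finset.sum_mul_sum]
  have hX2 : ∑ p, X p ^ 2 ≤ g' * (8 / 5 * g) * ((q : ℝ) ^ n * (2 : ℝ) ^ n) := by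
    have e1 : ∀ p, X p ^ 2 = ∑ t ∈ G', ∑ t' ∈ G', (a t p.1 * a t' p.1) * (b t p.2 * b t' p.2) := by
      intro p
      simp only [X]
      rw [pow_two, Finset.sum_mul_sum]
      exact sum_congr rfl fun t _ => sum_congr rfl fun t' _ => by ring
    simp_rw [e1]
    rw [Finset.sum_comm]
    have e2 : ∀ t ∈ G', ∑ p : (V → Fin q) × (V → Bool), ∑ t' ∈ G',
        (a t p.1 * a t' p.1) * (b t p.2 * b t' p.2) ≤
        (8 / 5 * g) * ((q : ℝ) ^ n * (2 : ℝ) ^ n) := by
      intro t ht
      rw [Finset.sum_comm]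
      have e3 : ∀ t' ∈ G', ∑ p : (V → Fin q) × (V → Bool),
          (a t p.1 * a t' p.1) * (b t p.2 * b t' p.2) ≤
          (q : ℝ) ^ ((vars t \ Z) ∩ (vars t' \ Z)).card *
          (((t' \ t0).powerset.filter fun B' => EvenOut (Z ∪ vars (t \ t0)) B').card : ℝ) *
          ((q : ℝ) ^ n * (2 : ℝ) ^ n) := by
        intro t' ht'
        rw [Fintype.sum_prod_type]
        simp only
        rw [← Finset.sum_mul_sum, ha2]
        calc _ ≤ ((q : ℝ) ^ n * (q : ℝ) ^ ((vars t \ Z) ∩ (vars t' \ Z)).card) * ((2 : ℝ) ^ n *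
            (((t' \ t0).powerset.filter fun B' => EvenOut (Z ∪ vars (t \ t0)) B').card : ℝ)) :=
              mul_le_mul_of_nonneg_left (hb2 t ht t' ht') (by positivity)
          _ = _ := by ring
      refine (Finset.sum_le_sum e3).trans ?_
      rw [← Finset.sum_mul]
      refine mul_le_mul_of_nonneg_right ?_ (by positivity)
      refine le_trans ?_ (sum_second s l q hs hs1 hl hK hq G t0 Z hmem hspread t
        (mem_filter.1 ht).1)
      exact Finset.sum_le_sum_of_subset_of_nonneg (filter_subset _ _) fun _ _ _ => by positivity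
    refine (Finset.sum_le_sum e2).trans (le_of_eq ?_)
    rw [sum_const, nsmul_eq_mul]
    ring
  -- Cauchy-Schwarz
  set S : Finset ((V → Fin q) × (V → Bool)) := univ.filter fun p =>
    ¬ ∀ t ∈ G, (∀ v ∈ vars t \ Z, p.1 v = c) → ¬ Sats (glue Z y p.2) (t \ t0) with hS
  have hX0 : ∀ p, p ∉ S → X p = 0 := by
    intro p hp
    rw [hS, mem_filter, not_and, not_not] at hp
    have h := hp (mem_univ _)
    refine Finset.sum_eq_zero fun t ht => ?_
    simp only [a, b]
    by_cases h1 : ∀ v ∈ vars t \ Z, p.1 v = c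
    · rw [if_neg (h t (mem_filter.1 ht).1 h1), mul_zero]
    · rw [if_neg h1, zero_mul]
  have hsum : ∑ p, X p = ∑ p ∈ S, X p :=
    (Finset.sum_subset (subset_univ S) fun p _ hp => hX0 p hp).symm
  have hCS : (∑ p, X p) ^ 2 ≤ (S.card : ℝ) * ∑ p, X p ^ 2 := by
    rw [hsum]
    refine (sq_sum_le_card_mul_sum_sq).trans ?_
    refine mul_le_mul_of_nonneg_left ?_ (by positivity)
    exact Finset.sum_le_sum_of_subset_of_nonneg (subset_univ _) fun _ _ _ => sq_nonneg _
  set N : ℝ := (q : ℝ) ^ n * (2 : ℝ) ^ n with hN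
  have hN0 : 0 < N := by positivity
  have hg'0 : 0 < g' := by
    have : 0 < 14 / 15 * g := by positivity
    linarith
  have hmain : N ≤ 2 * (S.card : ℝ) := by
    have h1 : (g' * N) ^ 2 ≤ (S.card : ℝ) * (g' * (8 / 5 * g) * N) := by
      rw [← hX1]
      exact hCS.trans (mul_le_mul_of_nonneg_left hX2 (by positivity))
    have h2 : g' * N ≤ (S.card : ℝ) * (8 / 5 * g) := by
      have h3 : (g' * N) * (g' * N) ≤ ((S.card : ℝ) * (8 / 5 * g)) * (g' * N) := by
        calc _ = (g' * N) ^ 2 := by ring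
          _ ≤ _ := h1
          _ = _ := by ring
      exact le_of_mul_le_mul_right h3 (by positivity)
    have h4 : 14 / 15 * g * N ≤ g' * N := mul_le_mul_of_nonneg_right hgg' hN0.le
    have h5 : (14 / 15 * N) * g ≤ ((S.card : ℝ) * (8 / 5)) * g := by
      calc _ = 14 / 15 * g * N := by ring
        _ ≤ _ := h4.trans h2
        _ = _ := by ring
    have h6 := le_of_mul_le_mul_right h5 hg0
    linarith
  have htot : (univ.filter fun p : (V → Fin q) × (V → Bool) => ∀ t ∈ G,
      (∀ v ∈ vars t \ Z, p.1 v = c) → ¬ Sats (glue Z y p.2) (t \ t0)).card +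
      S.card = q ^ n * 2 ^ n := by
    rw [hS, Finset.card_filter_add_card_filter_not, card_univ, Fintype.card_prod, Fintype.card_fun,
      Fintype.card_fun, Fintype.card_fin, Fintype.card_bool]
  have htot' : ((univ.filter fun p : (V → Fin q) × (V → Bool) => ∀ t ∈ G,
      (∀ v ∈ vars t \ Z, p.1 v = c) → ¬ Sats (glue Z y p.2) (t \ t0)).card : ℝ) +
      S.card = N := by
    rw [hN]
    exact_mod_cast htot
  have hfin : ((univ.filter fun p : (V → Fin q) × (V → Bool) => ∀ t ∈ G,
      (∀ v ∈ vars t \ Z, p.1 v = c) → ¬ Sats (glue Z y p.2) (t \ t0)).card : ℝ) * 2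
      ≤ (q : ℝ) ^ n * (2 : ℝ) ^ n := by
    rw [← hN]
    linarith
  exact_mod_cast hfin

end H630XR
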