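import Pool.Agent.H630XR.Defs
open scoped Classical
open Finset
namespace H630XR
variable {V : Type*} [Fintype V] {K : ℕ}

theorem p1_bound (s z M c0 c1 : ℕ) (hs : 1 ≤ s) (h0 : c0 ≤ (s * (z + 2 * M)) ^ M)
    (h1 : c1 ≤ (s * (z + 1 + 2 * (M - 1))) ^ (M - 1)) :
    z * c0 + s ^ 2 * M * c1 ≤ (s * (z + 2 * (M + 1))) ^ (M + 1) := by
  obtain ⟨X, hX⟩ : ∃ X, X = s * (z + 2 * (M + 1)) := ⟨_, rfl⟩
  rw [← hX]
  have hX1 : s * (z + 2 * M) ≤ X := by rw [hX]; exact Nat.mul_le_mul_left _ (by omega)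
  have a0 : z * c0 ≤ (s * z) * X ^ M := by
    have h2 : c0 ≤ X ^ M := h0.trans (Nat.pow_le_pow_left hX1 M)
    calc z * c0 ≤ z * X ^ M := Nat.mul_le_mul_left _ h2
      _ ≤ (s * z) * X ^ M := Nat.mul_le_mul_right _ (Nat.le_mul_of_pos_left z hs)
  have a1 : s ^ 2 * M * c1 ≤ s * X ^ M := by
    rcases M with _ | M
    · simp
    · have h3 : s * (z + 1 + 2 * (M + 1 - 1)) ≤ X := by
        rw [hX]; exact Nat.mul_le_mul_left _ (by omega)
      have h2 : c1 ≤ X ^ M := h1.trans (Nat.pow_le_pow_left h3 _)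
      have h4 : s * (M + 1) ≤ X := by
        rw [hX]; exact Nat.mul_le_mul_left _ (by omega)
      calc s ^ 2 * (M + 1) * c1 = s * ((s * (M + 1)) * c1) := by ring
        _ ≤ s * (X * X ^ M) := Nat.mul_le_mul_left _ (Nat.mul_le_mul h4 h2)
        _ = s * X ^ (M + 1) := by ring
  have h5 : s * z + s ≤ X := by
    rw [hX]
    calc s * z + s = s * (z + 1) := by ring
      _ ≤ _ := Nat.mul_le_mul_left _ (by omega)
  calc z * c0 + s ^ 2 * M * c1 ≤ (s * z) * X ^ M + s * X ^ M := Nat.add_le_add a0 a1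
    _ = (s * z + s) * X ^ M := by ring
    _ ≤ X * X ^ M := Nat.mul_le_mul_right _ h5
    _ = X ^ (M + 1) := by ring

/-- the set of the maps -/
noncomputable def p1_A (M : ℕ) (W : Finset V) : Finset (Fin M → V) :=
  univ.filter fun w : Fin M → V => ∀ v, v ∉ W → (univ.filter fun i => w i = v).card ≠ 1

theorem p1_mem {M : ℕ} {W : Finset V} {w : Fin M → V} : w ∈ p1_A M W ↔
    ∀ v, v ∉ W → (∑ i, if w i = v then 1 else 0) ≠ 1 := by
  unfold p1_A
  rw [mem_filter]
  simp only [mem_univ, true_and, Finset.card_filter]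

theorem p1_tail {M : ℕ} {W : Finset V} {w : Fin (M + 1) → V} (hw : w ∈ p1_A (M + 1) W)
    (h0 : w 0 ∈ W) : (fun i => w (Fin.succ i)) ∈ p1_A M W := by
  rw [p1_mem] at hw ⊢
  intro v hv
  have h := hw v hv
  rw [Fin.sum_univ_succ, if_neg (by rintro rfl; exact hv h0), zero_add] at h
  exact h

theorem p1_sub1 (W : Finset V) : p1_A 1 W ⊆
    (W ×ˢ p1_A 0 W).image fun p => (Fin.cons p.1 p.2 : Fin 1 → V) := by
  intro w hw
  have h0 : w 0 ∈ W := by
    by_contra h
    rw [p1_mem] at hw
    exact hw (w 0) h (by rw [Fin.sum_univ_succ, if_pos rfl]; simp)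
  rw [mem_image]
  exact ⟨(w 0, fun i => w (Fin.succ i)), mem_product.2 ⟨h0, p1_tail hw h0⟩, Fin.cons_self_tail w⟩

theorem p1_sub2 (M : ℕ) (W : Finset V) : p1_A (M + 2) W ⊆
    ((W ×ˢ p1_A (M + 1) W).image fun p => (Fin.cons p.1 p.2 : Fin (M + 2) → V)) ∪
    ((univ : Finset (V × Fin (M + 1))).biUnion fun q => (p1_A M (insert q.1 W)).image fun r =>
      (Fin.cons q.1 (Fin.insertNth (α := fun _ => V) q.2 q.1 r) : Fin (M + 2) → V)) := by
  intro w hw
  rw [mem_union]
  by_cases h0 : w 0 ∈ W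
  · left
    rw [mem_image]
    exact ⟨(w 0, fun i => w (Fin.succ i)), mem_product.2 ⟨h0, p1_tail hw h0⟩, Fin.cons_self_tail w⟩
  · right
    have hw' := hw
    rw [p1_mem] at hw'
    have h1 := hw' (w 0) h0
    rw [Fin.sum_univ_succ, if_pos rfl] at h1
    obtain ⟨i, hi⟩ : ∃ i : Fin (M + 1), w (Fin.succ i) = w 0 := by
      by_contra hc
      push Not at hc
      apply h1
      rw [Finset.sum_eq_zero (fun i _ => if_neg (hc i)), add_zero]
    rw [mem_biUnion]
    refine ⟨(w 0, i), mem_univ _, ?_⟩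
    rw [mem_image]
    refine ⟨fun j => w (Fin.succ (i.succAbove j)), ?_, ?_⟩
    · rw [p1_mem]
      intro v hv
      simp only [mem_insert, not_or] at hv
      have h2 := hw' v hv.2
      rw [Fin.sum_univ_succ, if_neg (fun h => hv.1 h.symm), zero_add,
        Fin.sum_univ_succAbove _ i, if_neg (fun h => hv.1 (h.symm.trans hi)), zero_add] at h2
      exact h2
    · have h3 : (Fin.insertNth (α := fun _ => V) i (w 0) (fun j => w (Fin.succ (i.succAbove j))) :
          Fin (M + 1) → V) = fun j => w (Fin.succ j) := by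
        rw [← hi]
        exact Fin.insertNth_self_removeNth i (fun j => w (Fin.succ j))
      simp only [h3]
      exact Fin.cons_self_tail w

theorem p1_main (s : ℕ) (hs : Fintype.card V ≤ s ^ 2) (hs1 : 1 ≤ s) (M : ℕ) :
    (∀ W : Finset V, (p1_A M W).card ≤ (s * (W.card + 2 * M)) ^ M) ∧
    (∀ W : Finset V, (p1_A (M + 1) W).card ≤ (s * (W.card + 2 * (M + 1))) ^ (M + 1)) := by
  have base : ∀ W : Finset V, (p1_A 0 W).card ≤ (s * (W.card + 2 * 0)) ^ 0 := by
    intro W
    rw [pow_zero]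
    calc (p1_A 0 W).card ≤ (univ : Finset (Fin 0 → V)).card := card_le_card (subset_univ _)
      _ = 1 := by simp
  induction M with
  | zero =>
    refine ⟨base, fun W => ?_⟩
    have h1 : (p1_A 1 W).card ≤ W.card * (p1_A 0 W).card := by
      calc (p1_A 1 W).card ≤ _ := card_le_card (p1_sub1 W)
        _ ≤ (W ×ˢ p1_A 0 W).card := card_image_le
        _ = _ := card_product _ _
    calc (p1_A (0 + 1) W).card ≤ W.card * (p1_A 0 W).card + s ^ 2 * 0 * 0 := by
          simpa using h1
      _ ≤ _ := p1_bound s W.card 0 (p1_A 0 W).card 0 hs1 (base W) (Nat.zero_le _)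
  | succ M ih =>
    refine ⟨ih.2, fun W => ?_⟩
    have h1 : (p1_A (M + 2) W).card ≤ W.card * (p1_A (M + 1) W).card +
        s ^ 2 * (M + 1) * (s * (W.card + 1 + 2 * (M + 1 - 1))) ^ (M + 1 - 1) := by
      calc (p1_A (M + 2) W).card ≤ _ := card_le_card (p1_sub2 M W)
        _ ≤ _ := card_union_le _ _
        _ ≤ _ := Nat.add_le_add ?_ ?_
      · exact card_image_le.trans (card_product _ _).le
      · refine card_biUnion_le.trans ?_
        calc ∑ q : V × Fin (M + 1), ((p1_A M (insert q.1 W)).image fun r =>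
              (Fin.cons q.1 (Fin.insertNth (α := fun _ => V) q.2 q.1 r) : Fin (M + 2) → V)).card
            ≤ ∑ q : V × Fin (M + 1), (s * (W.card + 1 + 2 * (M + 1 - 1))) ^ (M + 1 - 1) := by
              apply Finset.sum_le_sum
              intro q _
              refine card_image_le.trans ((ih.1 _).trans ?_)
              rw [Nat.add_sub_cancel]
              apply Nat.pow_le_pow_left
              apply Nat.mul_le_mul_left
              have := card_insert_le q.1 W
              omega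
          _ = (Fintype.card V * (M + 1)) * (s * (W.card + 1 + 2 * (M + 1 - 1))) ^ (M + 1 - 1) := by
              rw [Finset.sum_const, Finset.card_univ, Fintype.card_prod, Fintype.card_fin, smul_eq_mul]
          _ ≤ s ^ 2 * (M + 1) * (s * (W.card + 1 + 2 * (M + 1 - 1))) ^ (M + 1 - 1) :=
              Nat.mul_le_mul_right _ (Nat.mul_le_mul_right _ hs)
    exact h1.trans (p1_bound s W.card (M + 1) _ _ hs1 (ih.2 W) le_rfl)

theorem card_paired (s : ℕ) (hs : Fintype.card V ≤ s ^ 2) (M : ℕ) (W : Finset V) :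
    (univ.filter fun w : Fin M → V =>
      ∀ v, v ∉ W → (univ.filter fun i => w i = v).card ≠ 1).card ≤ (s * (W.card + 2 * M)) ^ M := by
  rcases Nat.eq_zero_or_pos s with h | h
  · subst h
    have hV : Fintype.card V = 0 := by simpa using hs
    have hE : IsEmpty V := Fintype.card_eq_zero_iff.1 hV
    rcases M with _ | M
    · rw [pow_zero]
      calc _ ≤ (univ : Finset (Fin 0 → V)).card := card_le_card (subset_univ _)
        _ = 1 := by simp
    · calc _ ≤ (univ : Finset (Fin (M + 1) → V)).card := card_le_card (subset_univ _)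
        _ = 0 := by
          rw [Finset.card_univ, Fintype.card_eq_zero_iff]
          exact ⟨fun f => hE.false (f 0)⟩
        _ ≤ _ := Nat.zero_le _
  · exact (p1_main s hs h M).1 W

end H630XR
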