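import Pool.Agent.H630XR.Defs
open scoped Classical
open Finset
namespace H630XR
variable {V : Type*} [Fintype V] {K : ℕ}

theorem p10_good {H C : Type*} [Fintype H] [Fintype C] (a b : C → H) (r : C → Bool)
    (flip : C → C) (hflip : ∀ c, flip (flip c) = c) (ha : ∀ c, a (flip c) = a c)
    (hb : ∀ c, b (flip c) = b c) (hr : ∀ c, r (flip c) = !(r c)) (y : H → Bool) :
    2 * (univ.filter fun c => (y (a c) ^^ y (b c)) = r c).card = Fintype.card C := by
  have h1 := Finset.card_filter_add_card_filter_not (s := (univ : Finset C))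
    (fun c => (y (a c) ^^ y (b c)) = r c)
  have h2 : (univ.filter fun c => ¬ ((y (a c) ^^ y (b c)) = r c)).card =
      (univ.filter fun c => (y (a c) ^^ y (b c)) = r c).card := by
    refine Finset.card_bij' (fun c _ => flip c) (fun c _ => flip c) ?_ ?_ ?_ ?_
    · intro c hc
      simp only [Finset.mem_filter, Finset.mem_univ, true_and] at hc ⊢
      rw [ha, hb, hr]
      revert hc
      cases (y (a c) ^^ y (b c)) <;> cases r c <;> simp
    · intro c hc
      simp only [Finset.mem_filter, Finset.mem_univ, true_and] at hc ⊢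
      rw [ha, hb, hr]
      revert hc
      cases (y (a c) ^^ y (b c)) <;> cases r c <;> simp
    · intro c _; exact hflip c
    · intro c _; exact hflip c
  rw [h2] at h1
  rw [Finset.card_univ] at h1
  omega

theorem card_labelling {H C : Type*} [Fintype H] [Fintype C] (a b : C → H) (r : C → Bool)
    (flip : C → C) (hflip : ∀ c, flip (flip c) = c) (ha : ∀ c, a (flip c) = a c)
    (hb : ∀ c, b (flip c) = b c) (hr : ∀ c, r (flip c) = !(r c)) (m : ℕ) :
    (univ.filter fun ω : Fin m → C => ∃ y : H → Bool, ∀ j, (y (a (ω j)) ^^ y (b (ω j))) = r (ω j)).card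
      * 2 ^ m ≤ 2 ^ Fintype.card H * Fintype.card C ^ m := by
  have h1 : (univ.filter fun ω : Fin m → C =>
      ∃ y : H → Bool, ∀ j, (y (a (ω j)) ^^ y (b (ω j))) = r (ω j)) ⊆
      (univ : Finset (H → Bool)).biUnion (fun y => Fintype.piFinset (fun _ : Fin m =>
        univ.filter fun c => (y (a c) ^^ y (b c)) = r c)) := by
    intro ω hω
    simp only [Finset.mem_filter, Finset.mem_univ, true_and] at hω
    obtain ⟨y, hy⟩ := hω
    rw [Finset.mem_biUnion]
    refine ⟨y, Finset.mem_univ y, ?_⟩
    rw [Fintype.mem_piFinset]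
    intro j
    simp only [Finset.mem_filter, Finset.mem_univ, true_and]
    exact hy j
  have h2 : ∀ y : H → Bool, (Fintype.piFinset (fun _ : Fin m =>
      univ.filter fun c => (y (a c) ^^ y (b c)) = r c)).card * 2 ^ m = Fintype.card C ^ m := by
    intro y
    rw [Fintype.card_piFinset]
    simp only [Finset.prod_const, Finset.card_univ, Fintype.card_fin]
    rw [← mul_pow, mul_comm, p10_good a b r flip hflip ha hb hr y]
  calc (univ.filter fun ω : Fin m → C =>
      ∃ y : H → Bool, ∀ j, (y (a (ω j)) ^^ y (b (ω j))) = r (ω j)).card * 2 ^ m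
      ≤ (∑ y : H → Bool, (Fintype.piFinset (fun _ : Fin m =>
        univ.filter fun c => (y (a c) ^^ y (b c)) = r c)).card) * 2 ^ m :=
        Nat.mul_le_mul_right _ ((Finset.card_le_card h1).trans Finset.card_biUnion_le)
    _ = ∑ y : H → Bool, Fintype.card C ^ m := by
        rw [Finset.sum_mul]
        exact Finset.sum_congr rfl fun y _ => h2 y
    _ = 2 ^ Fintype.card H * Fintype.card C ^ m := by
        rw [Finset.sum_const, Finset.card_univ, smul_eq_mul, Fintype.card_fun, Fintype.card_bool]

end H630XR
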