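import Pool.Agent.H630XR.Defs

/-!
# P12: splitting a parity clause
-/

open scoped Classical
open Finset

namespace H630XR

variable {V : Type*} [Fintype V] {K : ℕ}

/-- parity of the number of true values -/
noncomputable def p12_par {m : ℕ} (f : Fin m → Bool) : Bool :=
  decide (Odd (univ.filter fun i => f i = true).card)

theorem p12_odd_iff {m : ℕ} (f : Fin m → Bool) :
    p12_par f = true ↔ (∑ i, (if f i = true then (1 : ZMod 2) else 0)) = 1 := by
  unfold p12_par
  rw [decide_eq_true_iff, Finset.sum_boole]
  exact (ZMod.natCast_eq_one_iff_odd).symm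

theorem p12_zmod2 (a : ZMod 2) : a = 0 ∨ a = 1 := by
  revert a; decide

theorem p12_xor {m : ℕ} (f g : Fin m → Bool) :
    p12_par (fun i => f i ^^ g i) = (p12_par f ^^ p12_par g) := by
  have h : ∑ i, (if (f i ^^ g i) = true then (1 : ZMod 2) else 0) =
      ∑ i, (if f i = true then (1 : ZMod 2) else 0) +
        ∑ i, (if g i = true then (1 : ZMod 2) else 0) := by
    rw [← Finset.sum_add_distrib]
    apply Finset.sum_congr rfl
    intro i _
    cases f i <;> cases g i <;> simp <;> decide
  rw [Bool.eq_iff_iff, p12_odd_iff, h]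
  have h1 := p12_odd_iff f
  have h2 := p12_odd_iff g
  cases hf : p12_par f <;> cases hg : p12_par g
  all_goals
    rw [hf] at h1
    rw [hg] at h2
    rcases p12_zmod2 (∑ i, (if f i = true then (1 : ZMod 2) else 0)) with e1 | e1 <;>
    rcases p12_zmod2 (∑ i, (if g i = true then (1 : ZMod 2) else 0)) with e2 | e2 <;>
    rw [e1] at h1 <;> rw [e2] at h2 <;> rw [e1, e2] <;> revert h1 h2 <;> decide

theorem p12_split {k : ℕ} (f : Fin (k + k) → Bool) :
    p12_par f = (p12_par (fun i => f (Fin.castAdd k i)) ^^
      p12_par (fun i => f (Fin.natAdd k i))) := by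
  have h : ∑ i, (if f i = true then (1 : ZMod 2) else 0) =
      ∑ i, (if f (Fin.castAdd k i) = true then (1 : ZMod 2) else 0) +
        ∑ i, (if f (Fin.natAdd k i) = true then (1 : ZMod 2) else 0) :=
    Fin.sum_univ_add _
  rw [Bool.eq_iff_iff, p12_odd_iff, h]
  have h1 := p12_odd_iff (fun i => f (Fin.castAdd k i))
  have h2 := p12_odd_iff (fun i => f (Fin.natAdd k i))
  cases hf : p12_par (fun i => f (Fin.castAdd k i)) <;>
    cases hg : p12_par (fun i => f (Fin.natAdd k i))
  all_goals
    rw [hf] at h1
    rw [hg] at h2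
    rcases p12_zmod2 (∑ i, (if f (Fin.castAdd k i) = true then (1 : ZMod 2) else 0)) with e1 | e1 <;>
    rcases p12_zmod2 (∑ i, (if f (Fin.natAdd k i) = true then (1 : ZMod 2) else 0)) with e2 | e2 <;>
    rw [e1] at h1 <;> rw [e2] at h2 <;> rw [e1, e2] <;> revert h1 h2 <;> decide

theorem p12_compl {k : ℕ} (f : Fin (k + k) → Bool) :
    p12_par (fun i => !(f i)) = p12_par f := by
  have h : (fun i => !(f i)) = fun i => f i ^^ (fun _ : Fin (k + k) => true) i := by
    funext i
    simp
  rw [h, p12_xor]
  have h2 : p12_par (fun _ : Fin (k + k) => true) = false := by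
    unfold p12_par
    rw [decide_eq_false_iff_not]
    simp
  rw [h2, Bool.xor_false]

theorem p12_oddSat {k : ℕ} (x : V → Bool) (c : Cl V (k + k)) :
    OddSat x c ↔ ((p12_par (fun i => x (c (Fin.castAdd k i)).1) ^^
      p12_par (fun i => x (c (Fin.natAdd k i)).1)) ^^ p12_par (fun i => (c i).2)) = true := by
  have h1 : OddSat x c ↔ p12_par (fun i => !(x (c i).1 ^^ (c i).2)) = true := by
    unfold OddSat p12_par
    rw [decide_eq_true_iff]
    have : (univ.filter fun i => x (c i).1 = (c i).2) =
        univ.filter fun i => (!(x (c i).1 ^^ (c i).2)) = true := by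
      apply Finset.filter_congr
      intro i _
      cases x (c i).1 <;> cases (c i).2 <;> simp
    rw [this]
  rw [h1, p12_compl (fun i => x (c i).1 ^^ (c i).2), p12_xor, p12_split (fun i => x (c i).1)]

theorem oddSat_split (k : ℕ) (hk : 1 ≤ k) : ∃ (a b : Cl V (k + k) → (Fin k → V))
    (r : Cl V (k + k) → Bool) (g : (V → Bool) → (Fin k → V) → Bool)
    (flip : Cl V (k + k) → Cl V (k + k)), (∀ x c, OddSat x c → (g x (a c) ^^ g x (b c)) = r c) ∧
      (∀ c, flip (flip c) = c) ∧ (∀ c, a (flip c) = a c) ∧ (∀ c, b (flip c) = b c) ∧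
      ∀ c, r (flip c) = !(r c) := by
  let i0 : Fin (k + k) := ⟨0, by omega⟩
  let flip : Cl V (k + k) → Cl V (k + k) := fun c => Function.update c i0 ((c i0).1, !(c i0).2)
  have hf1 : ∀ c i, (flip c i).1 = (c i).1 := by
    intro c i
    by_cases h : i = i0
    · subst h
      simp [flip]
    · simp [flip, Function.update_of_ne h]
  have hf2 : ∀ c i, (flip c i).2 = ((c i).2 ^^ decide (i = i0)) := by
    intro c i
    by_cases h : i = i0
    · subst h
      simp [flip]
    · simp [flip, Function.update_of_ne h, h]
  refine ⟨fun c i => (c (Fin.castAdd k i)).1, fun c i => (c (Fin.natAdd k i)).1,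
    fun c => !(p12_par (fun i => (c i).2)), fun x h => p12_par (fun i => x (h i)), flip,
    ?_, ?_, ?_, ?_, ?_⟩
  · intro x c h
    rw [p12_oddSat] at h
    dsimp only
    revert h
    cases p12_par (fun i => x (c (Fin.castAdd k i)).1) <;>
      cases p12_par (fun i => x (c (Fin.natAdd k i)).1) <;>
      cases p12_par (fun i => (c i).2) <;> decide
  · intro c
    funext i
    apply Prod.ext
    · rw [hf1, hf1]
    · rw [hf2, hf2]
      cases (c i).2 <;> cases decide (i = i0) <;> rfl
  · intro c
    funext i
    exact hf1 c _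
  · intro c
    funext i
    exact hf1 c _
  · intro c
    dsimp only
    have h : (fun i => (flip c i).2) = fun i => (c i).2 ^^ (fun j => decide (j = i0)) i := by
      funext i
      exact hf2 c i
    rw [h, p12_xor]
    have h2 : p12_par (fun j => decide (j = i0)) = true := by
      unfold p12_par
      rw [decide_eq_true_iff]
      have : (univ.filter fun i => decide (i = i0) = true) = {i0} := by
        ext i
        simp
      rw [this]
      simp
    rw [h2]
    cases p12_par (fun i => (c i).2) <;> rfl

end H630XR
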