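import Pool.Agent.H630XR.Defs
open scoped Classical
open Finset
namespace H630XR
variable {V : Type*} [Fintype V] {K : ℕ}

/-- the set of clauses listed by `(σ, w)` -/
noncomputable def p2_rho (b : ℕ) (x : (Fin b → Fin K → Bool) × (Fin (K * b) → V)) :
    Finset (Cl V K) :=
  univ.image fun i : Fin b => (fun j => (x.2 (finProdFinEquiv (j, i)), x.1 i j) : Cl V K)

omit [Fintype V] in
theorem p2_count {b : ℕ} {B : Finset (Cl V K)} (e : Fin b ≃ B) (v : V) :
    (univ.filter fun m : Fin (K * b) =>
      ((e (finProdFinEquiv.symm m).2 : Cl V K) (finProdFinEquiv.symm m).1).1 = v).card =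
      ∑ c ∈ B, (univ.filter fun i => (c i).1 = v).card := by
  have h1 : (univ.filter fun m : Fin (K * b) =>
      ((e (finProdFinEquiv.symm m).2 : Cl V K) (finProdFinEquiv.symm m).1).1 = v).card =
      (univ.filter fun p : Fin K × Fin b => ((e p.2 : Cl V K) p.1).1 = v).card := by
    apply Finset.card_bij (fun m _ => finProdFinEquiv.symm m)
    · intro m hm
      rw [mem_filter] at hm ⊢
      exact ⟨mem_univ _, hm.2⟩
    · intro m _ m' _ h
      exact finProdFinEquiv.symm.injective h
    · intro p hp
      rw [mem_filter] at hp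
      refine ⟨finProdFinEquiv p, ?_, by simp⟩
      rw [mem_filter]
      exact ⟨mem_univ _, by simpa using hp.2⟩
  have h2 : (univ.filter fun p : Fin K × Fin b => ((e p.2 : Cl V K) p.1).1 = v).card =
      ∑ i : Fin b, (univ.filter fun j : Fin K => ((e i : Cl V K) j).1 = v).card := by
    simp only [Finset.card_filter]
    rw [← Finset.univ_product_univ, Finset.sum_product_right]
  have h3 : ∑ i : Fin b, (univ.filter fun j : Fin K => ((e i : Cl V K) j).1 = v).card =
      ∑ c ∈ B, (univ.filter fun i => (c i).1 = v).card := by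
    rw [← Finset.sum_coe_sort B (fun c => (univ.filter fun i => (c i).1 = v).card)]
    exact Equiv.sum_comp e (fun c : B => (univ.filter fun i => ((c : Cl V K) i).1 = v).card)
  rw [h1, h2, h3]

theorem card_evenOut (s : ℕ)
    (h1 : ∀ (M : ℕ) (W : Finset V), (univ.filter fun w : Fin M → V =>
      ∀ v, v ∉ W → (univ.filter fun i => w i = v).card ≠ 1).card ≤ (s * (W.card + 2 * M)) ^ M)
    (b : ℕ) (W : Finset V) :
    (univ.filter fun B : Finset (Cl V K) => B.card = b ∧ EvenOut W B).card
      ≤ (2 ^ K * (s * (W.card + 2 * (K * b))) ^ K) ^ b := by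
  set S : Finset (Fin (K * b) → V) := univ.filter fun w : Fin (K * b) → V =>
      ∀ v, v ∉ W → (univ.filter fun i => w i = v).card ≠ 1 with hS
  set T : Finset ((Fin b → Fin K → Bool) × (Fin (K * b) → V)) := univ ×ˢ S with hT
  have hsub : (univ.filter fun B : Finset (Cl V K) => B.card = b ∧ EvenOut W B) ⊆
      T.image (p2_rho b) := by
    intro B hB
    rw [mem_filter] at hB
    obtain ⟨_, hb, hev⟩ := hB
    let e : Fin b ≃ B := (B.equivFinOfCardEq hb).symm
    refine mem_image.2 ⟨(fun i j => ((e i : Cl V K) j).2, fun m =>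
      ((e (finProdFinEquiv.symm m).2 : Cl V K) (finProdFinEquiv.symm m).1).1), ?_, ?_⟩
    · rw [hT, mem_product]
      refine ⟨mem_univ _, ?_⟩
      rw [hS, mem_filter]
      refine ⟨mem_univ _, fun v hv h => ?_⟩
      simp only at h
      rw [p2_count e v] at h
      have h2 := hev v hv
      unfold mult at h2
      rw [h] at h2
      exact absurd h2 (by decide)
    · unfold p2_rho
      ext c
      rw [mem_image]
      constructor
      · rintro ⟨i, _, rfl⟩
        have : (fun j => (((e (finProdFinEquiv.symm (finProdFinEquiv (j, i))).2 : Cl V K)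
            (finProdFinEquiv.symm (finProdFinEquiv (j, i))).1).1, ((e i : Cl V K) j).2) : Cl V K) =
            (e i : Cl V K) := by
          funext j
          simp
        simp only
        rw [this]
        exact (e i).2
      · intro hc
        refine ⟨e.symm ⟨c, hc⟩, mem_univ _, ?_⟩
        funext j
        simp
  have hTc : T.card = (2 ^ K) ^ b * S.card := by
    rw [hT, card_product]
    congr 1
    simp
  calc _ ≤ (T.image (p2_rho b)).card := card_le_card hsub
    _ ≤ T.card := card_image_le
    _ = (2 ^ K) ^ b * S.card := hTc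
    _ ≤ (2 ^ K) ^ b * (s * (W.card + 2 * (K * b))) ^ (K * b) := Nat.mul_le_mul_left _ (h1 _ _)
    _ = (2 ^ K * (s * (W.card + 2 * (K * b))) ^ K) ^ b := by
        rw [pow_mul (s * (W.card + 2 * (K * b))) K b, ← mul_pow]

end H630XR
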