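import Pool.Agent.H630XR.Defs

set_option autoImplicit false

open scoped Classical
open Finset
namespace H630XR
variable {V : Type*} [Fintype V] {K : ℕ}

theorem sum_evenOut (s l : ℕ) (hs : 1 ≤ s) (hl : 1 ≤ l) (hK : 1 ≤ K) (W : Finset V)
    (hW : W.card ≤ K * l)
    (h2 : ∀ b : ℕ, (univ.filter fun B : Finset (Cl V K) => B.card = b ∧ EvenOut W B).card
      ≤ (2 ^ K * (s * (W.card + 2 * (K * b))) ^ K) ^ b) :
    ∑ B ∈ univ.filter (fun B : Finset (Cl V K) => 1 ≤ B.card ∧ B.card ≤ l ∧ EvenOut W B),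
      (1 / ((16 * (2 ^ K * (3 * s * K * l) ^ K) : ℕ) : ℝ)) ^ B.card ≤ 1 / 15 := by
  set K0 : ℕ := 2 ^ K * (3 * s * K * l) ^ K with hK0
  have hK0pos : 0 < K0 := by positivity
  have hK0r : (0 : ℝ) < (K0 : ℝ) := by exact_mod_cast hK0pos
  -- group by the cardinality
  have hmap : ∀ B ∈ univ.filter (fun B : Finset (Cl V K) => 1 ≤ B.card ∧ B.card ≤ l ∧ EvenOut W B),
      B.card ∈ Icc 1 l := by
    intro B hB
    rw [mem_filter] at hB
    exact mem_Icc.2 ⟨hB.2.1, hB.2.2.1⟩
  rw [← Finset.sum_fiberwise_of_maps_to hmap]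
  have hone : ∀ b ∈ Icc 1 l,
      ∑ B ∈ (univ.filter (fun B : Finset (Cl V K) => 1 ≤ B.card ∧ B.card ≤ l ∧ EvenOut W B)).filter
        (fun B => B.card = b), (1 / ((16 * K0 : ℕ) : ℝ)) ^ B.card ≤ (1 / 16 : ℝ) ^ b := by
    intro b hb
    rw [mem_Icc] at hb
    have e1 : ∑ B ∈ (univ.filter (fun B : Finset (Cl V K) => 1 ≤ B.card ∧ B.card ≤ l ∧
        EvenOut W B)).filter (fun B => B.card = b), (1 / ((16 * K0 : ℕ) : ℝ)) ^ B.card =
        ((univ.filter (fun B : Finset (Cl V K) => 1 ≤ B.card ∧ B.card ≤ l ∧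
        EvenOut W B)).filter (fun B => B.card = b)).card * (1 / ((16 * K0 : ℕ) : ℝ)) ^ b := by
      rw [Finset.sum_congr rfl (g := fun _ => (1 / ((16 * K0 : ℕ) : ℝ)) ^ b), sum_const,
        nsmul_eq_mul]
      intro B hB
      rw [(mem_filter.1 hB).2]
    rw [e1]
    have e2 : ((univ.filter (fun B : Finset (Cl V K) => 1 ≤ B.card ∧ B.card ≤ l ∧
        EvenOut W B)).filter (fun B => B.card = b)).card ≤ K0 ^ b := by
      refine le_trans (card_le_card ?_) (le_trans (h2 b) ?_)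
      · intro B hB
        simp only [mem_filter, mem_univ, true_and] at hB ⊢
        exact ⟨hB.2, hB.1.2.2⟩
      · apply Nat.pow_le_pow_left
        rw [hK0]
        apply Nat.mul_le_mul_left
        apply Nat.pow_le_pow_left
        have h3 : W.card + 2 * (K * b) ≤ 3 * (K * l) := by
          have : K * b ≤ K * l := Nat.mul_le_mul_left _ hb.2
          omega
        calc s * (W.card + 2 * (K * b)) ≤ s * (3 * (K * l)) := Nat.mul_le_mul_left _ h3
          _ = 3 * s * K * l := by ring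
    have e3 : (((univ.filter (fun B : Finset (Cl V K) => 1 ≤ B.card ∧ B.card ≤ l ∧
        EvenOut W B)).filter (fun B => B.card = b)).card : ℝ) ≤ (K0 : ℝ) ^ b := by
      exact_mod_cast e2
    calc _ ≤ (K0 : ℝ) ^ b * (1 / ((16 * K0 : ℕ) : ℝ)) ^ b :=
          mul_le_mul_of_nonneg_right e3 (by positivity)
      _ = (1 / 16 : ℝ) ^ b := by
          rw [← mul_pow]
          congr 1
          push_cast
          field_simp
  refine le_trans (sum_le_sum hone) ?_
  have h4 : ∑ b ∈ Icc 1 l, (1 / 16 : ℝ) ^ b = (1 / 16) * ∑ b ∈ range l, (1 / 16 : ℝ) ^ b := by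
    rw [mul_sum, Finset.sum_bij' (fun b _ => b - 1) (fun b _ => b + 1)]
    · intro b hb
      rw [mem_Icc] at hb
      rw [mem_range]; omega
    · intro b hb
      rw [mem_range] at hb
      rw [mem_Icc]; omega
    · intro b hb
      rw [mem_Icc] at hb
      omega
    · intro b hb
      omega
    · intro b hb
      rw [mem_Icc] at hb
      rw [← pow_succ']
      congr 1
      omega
  rw [h4]
  have h5 : ∑ b ∈ range l, (1 / 16 : ℝ) ^ b ≤ 16 / 15 := by
    rw [geom_sum_eq (by norm_num)]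
    have : (0 : ℝ) < (1 / 16 : ℝ) ^ l := by positivity
    rw [div_le_iff_of_neg (by norm_num)]
    linarith
  linarith

end H630XR
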