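import Pool.Agent.H630XR.Defs
open scoped Classical
open Finset
namespace H630XR
variable {V : Type*} [Fintype V] {K : ℕ}

/-- sign of a literal -/
noncomputable def p4a_lit (x : V → Bool) (l : V × Bool) : ℤ := if x l.1 = l.2 then -1 else 1

/-- sign of a clause -/
noncomputable def p4a_chi (x : V → Bool) (c : Cl V K) : ℤ := - ∏ i, p4a_lit x (c i)

/-- flip one variable -/
noncomputable def p4a_flip (v : V) (x : V → Bool) : V → Bool := Function.update x v (!(x v))

theorem p4a_prod (x : V → Bool) (c : Cl V K) :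
    ∏ i, p4a_lit x (c i) = (-1) ^ (univ.filter fun i => x (c i).1 = (c i).2).card := by
  unfold p4a_lit
  rw [Finset.prod_ite]
  simp

theorem p4a_chi_eq (x : V → Bool) (c : Cl V K) :
    p4a_chi x c = if OddSat x c then 1 else -1 := by
  unfold p4a_chi OddSat
  rw [p4a_prod]
  split_ifs with h
  · rw [h.neg_one_pow]; norm_num
  · rw [Nat.not_odd_iff_even] at h
    rw [h.neg_one_pow]

theorem p4a_lit_flip (v : V) (x : V → Bool) (l : V × Bool) :
    p4a_lit (p4a_flip v x) l = (if l.1 = v then -1 else 1) * p4a_lit x l := by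
  unfold p4a_lit p4a_flip
  by_cases h : l.1 = v
  · rw [if_pos h, h, Function.update_self]
    cases hx : x v <;> cases hl : l.2 <;> simp
  · rw [if_neg h, Function.update_of_ne h, one_mul]

theorem p4a_chi_flip (v : V) (x : V → Bool) (c : Cl V K) :
    p4a_chi (p4a_flip v x) c =
      (-1) ^ (univ.filter fun i => (c i).1 = v).card * p4a_chi x c := by
  unfold p4a_chi
  simp only [p4a_lit_flip]
  rw [Finset.prod_mul_distrib, Finset.prod_ite]
  simp

theorem p4a_prod_flip (v : V) (x : V → Bool) (B : Finset (Cl V K)) :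
    ∏ c ∈ B, p4a_chi (p4a_flip v x) c = (-1) ^ (mult B v) * ∏ c ∈ B, p4a_chi x c := by
  unfold mult
  rw [← Finset.prod_pow_eq_pow_sum, ← Finset.prod_mul_distrib]
  exact Finset.prod_congr rfl fun c _ => p4a_chi_flip v x c

theorem p4a_flip_flip (v : V) (x : V → Bool) : p4a_flip v (p4a_flip v x) = x := by
  funext u
  unfold p4a_flip
  by_cases h : u = v
  · subst h; simp
  · rw [Function.update_of_ne h, Function.update_of_ne h]

theorem p4a_glue_flip (Z : Finset V) (y x : V → Bool) {v : V} (hv : v ∉ Z) :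
    glue Z y (p4a_flip v x) = p4a_flip v (glue Z y x) := by
  funext u
  unfold glue p4a_flip
  by_cases h : u = v
  · subst h
    rw [if_neg hv, Function.update_self, Function.update_self]
    simp only [if_neg hv]
  · rw [Function.update_of_ne h, Function.update_of_ne h]

/-- the sum of a nontrivial character vanishes -/
theorem p4a_sum_zero (Z : Finset V) (y : V → Bool) (B : Finset (Cl V K)) (h : ¬ EvenOut Z B) :
    ∑ x : V → Bool, ∏ c ∈ B, p4a_chi (glue Z y x) c = 0 := by
  unfold EvenOut at h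
  push Not at h
  obtain ⟨v, hv, hm⟩ := h
  rw [Nat.not_even_iff_odd] at hm
  have h1 : ∑ x : V → Bool, ∏ c ∈ B, p4a_chi (glue Z y x) c =
      ∑ x : V → Bool, ∏ c ∈ B, p4a_chi (glue Z y (p4a_flip v x)) c := by
    refine (Function.Bijective.sum_comp (g := fun x => ∏ c ∈ B, p4a_chi (glue Z y x) c)
      (e := p4a_flip v) ?_).symm
    exact (Function.Involutive.bijective (p4a_flip_flip v))
  have h2 : ∑ x : V → Bool, ∏ c ∈ B, p4a_chi (glue Z y (p4a_flip v x)) c =
      - ∑ x : V → Bool, ∏ c ∈ B, p4a_chi (glue Z y x) c := by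
    rw [← Finset.sum_neg_distrib]
    refine Finset.sum_congr rfl fun x _ => ?_
    rw [p4a_glue_flip Z y x hv, p4a_prod_flip, hm.neg_one_pow]
    ring
  omega

theorem p4a_ind (x : V → Bool) (A : Finset (Cl V K)) :
    ∏ c ∈ A, (1 + p4a_chi x c) = if Sats x A then 2 ^ A.card else 0 := by
  split_ifs with h
  · rw [Finset.prod_congr rfl (g := fun _ => (2 : ℤ)), Finset.prod_const]
    intro c hc
    rw [p4a_chi_eq, if_pos (h c hc)]
    norm_num
  · unfold Sats at h
    push Not at h
    obtain ⟨c, hc, hn⟩ := h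
    refine Finset.prod_eq_zero hc ?_
    rw [p4a_chi_eq, if_neg hn]
    norm_num

theorem card_sats_one (Z : Finset V) (y : V → Bool) (A : Finset (Cl V K))
    (h : ∀ B ⊆ A, EvenOut Z B → B = ∅) :
    (univ.filter fun x : V → Bool => Sats (glue Z y x) A).card * 2 ^ A.card
      = 2 ^ Fintype.card V := by
  have h1 : ((((univ.filter fun x : V → Bool => Sats (glue Z y x) A).card * 2 ^ A.card : ℕ)) : ℤ) =
      ∑ x : V → Bool, ∏ c ∈ A, (1 + p4a_chi (glue Z y x) c) := by
    simp only [p4a_ind]
    rw [← Finset.sum_filter, Finset.sum_const, nsmul_eq_mul]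
    push_cast
    rfl
  have h2 : ∑ x : V → Bool, ∏ c ∈ A, (1 + p4a_chi (glue Z y x) c) = 2 ^ Fintype.card V := by
    have h3 : ∀ x : V → Bool, ∏ c ∈ A, (1 + p4a_chi (glue Z y x) c) =
        ∑ B ∈ A.powerset, ∏ c ∈ B, p4a_chi (glue Z y x) c := by
      intro x
      exact Finset.prod_one_add _
    simp only [h3]
    rw [Finset.sum_comm, Finset.sum_eq_single ∅]
    · simp
    · intro B hB hne
      exact p4a_sum_zero Z y B fun hE => hne (h B (Finset.mem_powerset.1 hB) hE)
    · intro hn
      exact absurd (Finset.empty_mem_powerset A) hn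
  rw [h2] at h1
  exact_mod_cast h1

end H630XR
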