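import Pool.Agent.H630XR.P4a

open scoped Classical
open Finset

namespace H630XR

variable {V : Type*} [Fintype V] {K : ℕ}

/-- the sum of a nontrivial product of two characters vanishes -/
theorem p4b_sum_zero (Z : Finset V) (y : V → Bool) (B B' : Finset (Cl V K))
    (h : ¬ ∀ v, v ∉ Z → Even (mult B v + mult B' v)) :
    ∑ x : V → Bool, (∏ c ∈ B, p4a_chi (glue Z y x) c) * ∏ c ∈ B', p4a_chi (glue Z y x) c = 0 := by
  push Not at h
  obtain ⟨v, hv, hm⟩ := h
  rw [Nat.not_even_iff_odd] at hm
  have h1 : ∑ x : V → Bool, (∏ c ∈ B, p4a_chi (glue Z y x) c) * (∏ c ∈ B', p4a_chi (glue Z y x) c) =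
      ∑ x : V → Bool, (∏ c ∈ B, p4a_chi (glue Z y (p4a_flip v x)) c) *
        ∏ c ∈ B', p4a_chi (glue Z y (p4a_flip v x)) c := by
    refine (Function.Bijective.sum_comp
      (g := fun x => (∏ c ∈ B, p4a_chi (glue Z y x) c) * ∏ c ∈ B', p4a_chi (glue Z y x) c)
      (e := p4a_flip v) ?_).symm
    exact (Function.Involutive.bijective (p4a_flip_flip v))
  have h2 : ∑ x : V → Bool, (∏ c ∈ B, p4a_chi (glue Z y (p4a_flip v x)) c) *
        (∏ c ∈ B', p4a_chi (glue Z y (p4a_flip v x)) c) =
      - ∑ x : V → Bool, (∏ c ∈ B, p4a_chi (glue Z y x) c) * ∏ c ∈ B', p4a_chi (glue Z y x) c := by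
    rw [← Finset.sum_neg_distrib]
    refine Finset.sum_congr rfl fun x _ => ?_
    rw [p4a_glue_flip Z y x hv, p4a_prod_flip, p4a_prod_flip]
    have : (-1 : ℤ) ^ mult B v * (-1) ^ mult B' v = -1 := by
      rw [← pow_add, hm.neg_one_pow]
    linear_combination (∏ c ∈ B, p4a_chi (glue Z y x) c) * (∏ c ∈ B', p4a_chi (glue Z y x) c) * this
  omega

theorem p4b_abs (x : V → Bool) (B : Finset (Cl V K)) :
    ∏ c ∈ B, p4a_chi x c = 1 ∨ ∏ c ∈ B, p4a_chi x c = -1 := by
  induction B using Finset.induction_on with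
  | empty => left; simp
  | insert c B hc ih =>
    rw [prod_insert hc, p4a_chi_eq]
    split_ifs <;> rcases ih with h | h <;> rw [h] <;> simp

theorem p4b_le (Z : Finset V) (y : V → Bool) (B B' : Finset (Cl V K)) :
    ∑ x : V → Bool, (∏ c ∈ B, p4a_chi (glue Z y x) c) * ∏ c ∈ B', p4a_chi (glue Z y x) c
      ≤ 2 ^ Fintype.card V := by
  calc _ ≤ ∑ _x : V → Bool, (1 : ℤ) := by
        refine Finset.sum_le_sum fun x _ => ?_
        rcases p4b_abs (glue Z y x) B with h | h <;> rcases p4b_abs (glue Z y x) B' with h' | h' <;>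
          rw [h, h'] <;> norm_num
    _ = _ := by simp

theorem p4b_mult_symm (B B' : Finset (Cl V K)) (v : V) :
    mult (symmDiff B B') v + 2 * mult (B ∩ B') v = mult B v + mult B' v := by
  unfold mult
  have h1 : (∑ c ∈ B \ B', (univ.filter fun i => (c i).1 = v).card)
      + ∑ c ∈ B ∩ B', (univ.filter fun i => (c i).1 = v).card
      = ∑ c ∈ B, (univ.filter fun i => (c i).1 = v).card := by
    rw [← Finset.sum_union (Finset.disjoint_sdiff_inter B B'), Finset.sdiff_union_inter]
  have h2 : (∑ c ∈ B' \ B, (univ.filter fun i => (c i).1 = v).card)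
      + ∑ c ∈ B ∩ B', (univ.filter fun i => (c i).1 = v).card
      = ∑ c ∈ B', (univ.filter fun i => (c i).1 = v).card := by
    rw [Finset.inter_comm B B', ← Finset.sum_union (Finset.disjoint_sdiff_inter B' B),
      Finset.sdiff_union_inter]
  have h3 : ∑ c ∈ symmDiff B B', (univ.filter fun i => (c i).1 = v).card =
      (∑ c ∈ B \ B', (univ.filter fun i => (c i).1 = v).card)
      + ∑ c ∈ B' \ B, (univ.filter fun i => (c i).1 = v).card := by
    rw [symmDiff_def, Finset.sup_eq_union, Finset.sum_union]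
    exact disjoint_sdiff_sdiff
  rw [h3]
  omega

theorem card_sats_two (Z : Finset V) (y : V → Bool) (A A' : Finset (Cl V K))
    (h : ∀ B ⊆ A, EvenOut Z B → B = ∅) :
    (univ.filter fun x : V → Bool => Sats (glue Z y x) A ∧ Sats (glue Z y x) A').card
      * 2 ^ (A.card + A'.card)
      ≤ 2 ^ Fintype.card V * (A'.powerset.filter fun B' => EvenOut (Z ∪ vars A) B').card := by
  have h1 : ((((univ.filter fun x : V → Bool =>
      Sats (glue Z y x) A ∧ Sats (glue Z y x) A').card * 2 ^ (A.card + A'.card) : ℕ)) : ℤ) =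
      ∑ x : V → Bool, (∏ c ∈ A, (1 + p4a_chi (glue Z y x) c)) *
        ∏ c ∈ A', (1 + p4a_chi (glue Z y x) c) := by
    have h0 : ∀ x : V → Bool, (∏ c ∈ A, (1 + p4a_chi (glue Z y x) c)) *
        (∏ c ∈ A', (1 + p4a_chi (glue Z y x) c)) =
        if Sats (glue Z y x) A ∧ Sats (glue Z y x) A' then 2 ^ (A.card + A'.card) else 0 := by
      intro x
      rw [p4a_ind, p4a_ind, pow_add]
      by_cases ha : Sats (glue Z y x) A <;> by_cases hb : Sats (glue Z y x) A' <;> simp [ha, hb]
    simp only [h0]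
    rw [← Finset.sum_filter, Finset.sum_const, nsmul_eq_mul]
    push_cast
    rfl
  have h2 : ∑ x : V → Bool, (∏ c ∈ A, (1 + p4a_chi (glue Z y x) c)) *
        (∏ c ∈ A', (1 + p4a_chi (glue Z y x) c)) =
      ∑ B' ∈ A'.powerset, ∑ B ∈ A.powerset, ∑ x : V → Bool,
        (∏ c ∈ B, p4a_chi (glue Z y x) c) * ∏ c ∈ B', p4a_chi (glue Z y x) c := by
    have h3 : ∀ x : V → Bool, (∏ c ∈ A, (1 + p4a_chi (glue Z y x) c)) *
        (∏ c ∈ A', (1 + p4a_chi (glue Z y x) c)) =
        ∑ B' ∈ A'.powerset, ∑ B ∈ A.powerset,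
          (∏ c ∈ B, p4a_chi (glue Z y x) c) * ∏ c ∈ B', p4a_chi (glue Z y x) c := by
      intro x
      rw [Finset.prod_one_add, Finset.prod_one_add, Finset.sum_mul_sum, Finset.sum_comm]
    simp only [h3]
    rw [Finset.sum_comm]
    refine Finset.sum_congr rfl fun B' _ => ?_
    rw [Finset.sum_comm]
  have h4 : ∀ B' ∈ A'.powerset, (∑ B ∈ A.powerset, ∑ x : V → Bool,
        (∏ c ∈ B, p4a_chi (glue Z y x) c) * ∏ c ∈ B', p4a_chi (glue Z y x) c) ≤
      if EvenOut (Z ∪ vars A) B' then 2 ^ Fintype.card V else 0 := by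
    intro B' _
    by_cases hex : ∃ B ∈ A.powerset, ∀ v, v ∉ Z → Even (mult B v + mult B' v)
    · obtain ⟨B₀, hB₀, hev⟩ := hex
      have hE : EvenOut (Z ∪ vars A) B' := by
        intro v hv
        rw [mem_union, not_or] at hv
        have h5 : mult B₀ v = 0 := by
          unfold mult
          refine Finset.sum_eq_zero fun c hc => ?_
          rw [card_eq_zero, filter_eq_empty_iff]
          intro i _ hi
          exact hv.2 (mem_filter.2 ⟨mem_univ _, c, (mem_powerset.1 hB₀) hc, i, hi⟩)
        have h6 := hev v hv.1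
        rwa [h5, zero_add] at h6
      rw [if_pos hE, Finset.sum_eq_single B₀]
      · exact p4b_le Z y B₀ B'
      · intro B hB hne
        refine p4b_sum_zero Z y B B' fun hev' => hne ?_
        have hs : symmDiff B B₀ = ∅ := by
          refine h _ ?_ ?_
          · intro c hc
            rw [Finset.mem_symmDiff] at hc
            rcases hc with hc | hc
            · exact mem_powerset.1 hB hc.1
            · exact mem_powerset.1 hB₀ hc.1
          · intro v hv
            have h7 := p4b_mult_symm B B₀ v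
            have h8 := hev v hv
            have h9 := hev' v hv
            rw [Nat.even_iff] at h8 h9 ⊢
            omega
        exact symmDiff_eq_bot.1 hs
      · intro hn
        exact absurd hB₀ hn
    · push Not at hex
      rw [Finset.sum_eq_zero]
      · split_ifs <;> positivity
      · intro B hB
        refine p4b_sum_zero Z y B B' fun hev => ?_
        obtain ⟨v, hv, hv'⟩ := hex B hB
        exact hv' (hev v hv)
  have h5 : ((((univ.filter fun x : V → Bool =>
      Sats (glue Z y x) A ∧ Sats (glue Z y x) A').card * 2 ^ (A.card + A'.card) : ℕ)) : ℤ) ≤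
      ((2 ^ Fintype.card V * (A'.powerset.filter fun B' => EvenOut (Z ∪ vars A) B').card : ℕ) : ℤ) := by
    rw [h1, h2]
    refine (Finset.sum_le_sum h4).trans (le_of_eq ?_)
    rw [← Finset.sum_filter, Finset.sum_const, nsmul_eq_mul]
    push_cast
    ring
  exact_mod_cast h5

end H630XR
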