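import Pool.Agent.H630XR.Defs

/-!
# Amplification by independence (task P5, helper409)
-/

open scoped Classical
open Finset
namespace H630XR
variable {V : Type*} [Fintype V] {K : ℕ}

/-- AM-GM for natural numbers, as a statement about reals -/
theorem p5_amgm {q : ℕ} (hq : 1 ≤ q) (N : Fin q → ℕ) (M : ℝ)
    (h : 2 * ∑ c, (N c : ℝ) ≤ q * M) : 2 ^ q * ∏ c, (N c : ℝ) ≤ M ^ q := by
  have hq0 : (0 : ℝ) < q := by exact_mod_cast hq
  have h1 := Real.geom_mean_le_arith_mean univ (fun _ : Fin q => (1 : ℝ)) (fun c => (N c : ℝ))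
    (fun _ _ => zero_le_one) (by simp; omega) (fun c _ => Nat.cast_nonneg _)
  simp only [Real.rpow_one, one_mul, sum_const, card_univ, Fintype.card_fin, nsmul_eq_mul,
    mul_one] at h1
  have hP : 0 ≤ ∏ c, (N c : ℝ) := prod_nonneg fun c _ => Nat.cast_nonneg _
  have h2 : (∏ c, (N c : ℝ)) ^ ((q : ℝ)⁻¹) ≤ M / 2 := by
    refine h1.trans ?_
    rw [div_le_div_iff₀ hq0 two_pos]
    linarith
  have h3 : ((∏ c, (N c : ℝ)) ^ ((q : ℝ)⁻¹)) ^ q = ∏ c, (N c : ℝ) :=
    Real.rpow_inv_natCast_pow hP (by omega)
  have h4 := pow_le_pow_left₀ (Real.rpow_nonneg hP _) h2 q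
  rw [h3, div_pow, le_div_iff₀ (by positivity)] at h4
  linarith

/-- the gluing map -/
def p5_Phi {q : ℕ} (g : V → Fin q) (z : Fin q → V → Bool) : V → Bool := fun v => z (g v) v

theorem p5_fibre {q : ℕ} (g : V → Fin q) (x x' : V → Bool) :
    (univ.filter fun z => p5_Phi g z = x).card = (univ.filter fun z => p5_Phi g z = x').card := by
  refine Finset.card_bij' (fun z _ => fun c v => xor (z c v) (xor (x v) (x' v)))
    (fun z _ => fun c v => xor (z c v) (xor (x v) (x' v))) ?_ ?_ ?_ ?_
  · intro z hz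
    rw [mem_filter] at hz ⊢
    refine ⟨mem_univ _, ?_⟩
    funext v
    have := congrFun hz.2 v
    simp only [p5_Phi] at this ⊢
    rw [this]
    cases x v <;> cases x' v <;> rfl
  · intro z hz
    rw [mem_filter] at hz ⊢
    refine ⟨mem_univ _, ?_⟩
    funext v
    have := congrFun hz.2 v
    simp only [p5_Phi] at this ⊢
    rw [this]
    cases x v <;> cases x' v <;> rfl
  · intro z _
    funext c v
    dsimp only
    cases z c v <;> cases x v <;> cases x' v <;> rfl
  · intro z _
    funext c v
    dsimp only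
    cases z c v <;> cases x v <;> cases x' v <;> rfl

theorem p5_count {q : ℕ} (g : V → Fin q) (B : (V → Bool) → Prop) :
    (univ.filter fun z => B (p5_Phi g z)).card * 2 ^ Fintype.card V =
      (univ.filter B).card * (2 ^ Fintype.card V) ^ q := by
  have hcardV : Fintype.card (V → Bool) = 2 ^ Fintype.card V := by
    rw [Fintype.card_fun, Fintype.card_bool]
  have h0 : ∀ x, (univ.filter fun z => p5_Phi g z = x).card =
      (univ.filter fun z => p5_Phi g z = fun _ => false).card := fun x => p5_fibre g x _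
  set F := (univ.filter fun z => p5_Phi g z = fun _ => false).card with hF
  have h1 : Fintype.card (V → Bool) * F = (2 ^ Fintype.card V) ^ q := by
    have := Finset.card_eq_sum_card_fiberwise (f := p5_Phi g) (s := univ) (t := univ)
      (fun _ _ => mem_coe.2 (mem_univ _))
    rw [card_univ, Fintype.card_fun, Fintype.card_fin, hcardV, sum_congr rfl fun x _ => h0 x,
      sum_const, card_univ, smul_eq_mul] at this
    exact this.symm
  have h2 : (univ.filter fun z => B (p5_Phi g z)).card = (univ.filter B).card * F := by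
    have := Finset.card_eq_sum_card_fiberwise (f := p5_Phi g)
      (s := univ.filter fun z => B (p5_Phi g z)) (t := univ.filter B)
      (fun z hz => by
        rw [mem_coe, mem_filter] at hz ⊢
        exact ⟨mem_univ _, hz.2⟩)
    rw [this]
    rw [← smul_eq_mul, ← sum_const]
    refine sum_congr rfl fun x hx => ?_
    rw [← h0 x]
    congr 1
    ext z
    simp only [mem_filter, mem_univ, true_and]
    constructor
    · rintro ⟨_, h⟩; exact h
    · intro h
      refine ⟨?_, h⟩
      rw [h]
      exact (mem_filter.1 hx).2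
  rw [h2, ← h1, hcardV]
  ring

theorem p5_prod {q : ℕ} (g : V → Fin q) (E : Fin q → (V → Bool) → Prop)
    (hloc : ∀ (c : Fin q) (x x' : V → Bool), (∀ v, g v = c → x v = x' v) → E c x → E c x') :
    (univ.filter fun z => ∀ c, E c (p5_Phi g z)).card = ∏ c, (univ.filter fun x => E c x).card := by
  rw [← Fintype.card_piFinset]
  congr 1
  ext z
  simp only [mem_filter, mem_univ, true_and, Fintype.mem_piFinset]
  refine forall_congr' fun c => ⟨hloc c _ _ fun v hv => ?_, hloc c _ _ fun v hv => ?_⟩
  · simp only [p5_Phi, hv]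
  · simp only [p5_Phi, hv]

theorem p5_avg {q : ℕ} (hq : 1 ≤ q) (E : (V → Fin q) → Fin q → (V → Bool) → Prop)
    (hhalf : ∀ c : Fin q, (univ.filter fun p : (V → Fin q) × (V → Bool) => E p.1 c p.2).card * 2
      ≤ q ^ Fintype.card V * 2 ^ Fintype.card V) :
    ∃ g, 2 * ∑ c, (univ.filter fun x => E g c x).card ≤ q * 2 ^ Fintype.card V := by
  haveI : Nonempty (Fin q) := ⟨⟨0, hq⟩⟩
  by_contra hcon
  push Not at hcon
  have h1 : ∑ g : V → Fin q, 2 * ∑ c, (univ.filter fun x => E g c x).card =
      ∑ c, (univ.filter fun p : (V → Fin q) × (V → Bool) => E p.1 c p.2).card * 2 := by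
    rw [← mul_sum, sum_comm, mul_sum]
    refine sum_congr rfl fun c _ => ?_
    rw [mul_comm]
    congr 1
    have h2 : ∀ g : V → Fin q, (univ.filter fun x => E g c x).card =
        ∑ x, if E g c x then 1 else 0 := fun g => by rw [card_filter]
    rw [sum_congr rfl fun g _ => h2 g, card_filter, Fintype.sum_prod_type]
  have h2 := Finset.sum_lt_sum_of_nonempty (s := (univ : Finset (V → Fin q)))
    univ_nonempty (fun g _ => hcon g)
  rw [h1] at h2
  have h3 := Finset.sum_le_sum (s := (univ : Finset (Fin q))) fun c _ => hhalf c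
  rw [sum_const, card_univ, Fintype.card_fin, smul_eq_mul] at h3
  rw [sum_const, card_univ, Fintype.card_fun, Fintype.card_fin, smul_eq_mul] at h2
  have h4 := h2.trans_le h3
  have : q ^ Fintype.card V * (q * 2 ^ Fintype.card V) =
    q * (q ^ Fintype.card V * 2 ^ Fintype.card V) := by ring
  omega

theorem amplify {q : ℕ} (hq : 1 ≤ q) (E : (V → Fin q) → Fin q → (V → Bool) → Prop)
    (hloc : ∀ (g : V → Fin q) (c : Fin q) (x x' : V → Bool), (∀ v, g v = c → x v = x' v) →
      E g c x → E g c x')
    (hhalf : ∀ c : Fin q, (univ.filter fun p : (V → Fin q) × (V → Bool) => E p.1 c p.2).card * 2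
      ≤ q ^ Fintype.card V * 2 ^ Fintype.card V)
    (A : (V → Bool) → Prop) (hA : ∀ g x, A x → ∀ c, E g c x) :
    (univ.filter A).card * 2 ^ q ≤ 2 ^ Fintype.card V := by
  obtain ⟨g, hg⟩ := p5_avg hq E hhalf
  have h1 : (univ.filter A).card ≤ (univ.filter fun x => ∀ c, E g c x).card :=
    card_le_card fun x hx => by
      rw [mem_filter] at hx ⊢
      exact ⟨mem_univ _, hA g x hx.2⟩
  refine (Nat.mul_le_mul_right _ h1).trans ?_
  have h2 : (∏ c, (univ.filter fun x => E g c x).card) * 2 ^ Fintype.card V =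
      (univ.filter fun x => ∀ c, E g c x).card * (2 ^ Fintype.card V) ^ q := by
    rw [← p5_prod g (E g) (hloc g)]
    have := p5_count g (fun x => ∀ c, E g c x)
    convert this
  have h3 := p5_amgm hq (fun c => (univ.filter fun x => E g c x).card)
    ((2 : ℝ) ^ Fintype.card V) (by exact_mod_cast hg)
  have h4 : 2 ^ q * ∏ c, (univ.filter fun x => E g c x).card ≤ (2 ^ Fintype.card V) ^ q := by
    exact_mod_cast h3
  have hpos : 0 < (2 ^ Fintype.card V) ^ q := by positivity
  refine Nat.le_of_mul_le_mul_right ?_ hpos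
  calc (univ.filter fun x => ∀ c, E g c x).card * 2 ^ q * (2 ^ Fintype.card V) ^ q
      = (univ.filter fun x => ∀ c, E g c x).card * (2 ^ Fintype.card V) ^ q * 2 ^ q := by ring
    _ = (2 ^ q * ∏ c, (univ.filter fun x => E g c x).card) * 2 ^ Fintype.card V := by
        rw [← h2]; ring
    _ ≤ (2 ^ Fintype.card V) ^ q * 2 ^ Fintype.card V := Nat.mul_le_mul_right _ h4
    _ = 2 ^ Fintype.card V * (2 ^ Fintype.card V) ^ q := by ring

end H630XR
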