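import Pool.Agent.H630XR.Defs

open scoped Classical
open Finset

namespace H630XR

variable {V : Type*} [Fintype V] {K : ℕ}

theorem card_cover (m : ℕ) (t : Finset (Cl V K)) :
    (univ.filter fun ω : Fin m → Cl V K => t ⊆ univ.image ω).card
      * Fintype.card (Cl V K) ^ t.card ≤ m ^ t.card * Fintype.card (Cl V K) ^ m := by
  induction t using Finset.induction_on with
  | empty =>
    have h2 : Fintype.card (Fin m → Cl V K) = Fintype.card (Cl V K) ^ m := by
      rw [Fintype.card_fun, Fintype.card_fin]
    simp only [card_empty, pow_zero, mul_one, one_mul]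
    calc _ ≤ (univ : Finset (Fin m → Cl V K)).card := card_filter_le _ _
      _ = _ := by rw [card_univ, h2]
  | insert c t hc ih =>
    have hsub : (univ.filter fun ω : Fin m → Cl V K => insert c t ⊆ univ.image ω) ⊆
        (univ : Finset (Fin m)).biUnion fun i =>
          univ.filter fun ω : Fin m → Cl V K => ω i = c ∧ t ⊆ univ.image ω := by
      intro ω hω
      rw [mem_filter] at hω
      obtain ⟨i, -, hi⟩ := mem_image.1 (hω.2 (mem_insert_self c t))
      rw [mem_biUnion]
      exact ⟨i, mem_univ _, mem_filter.2 ⟨mem_univ _, hi,
        fun d hd => hω.2 (mem_insert_of_mem hd)⟩⟩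
    have hone : ∀ i : Fin m,
        (univ.filter fun ω : Fin m → Cl V K => ω i = c ∧ t ⊆ univ.image ω).card
          * Fintype.card (Cl V K)
        ≤ (univ.filter fun ω : Fin m → Cl V K => t ⊆ univ.image ω).card := by
      intro i
      rw [← card_univ, ← card_product]
      refine card_le_card_of_injOn (fun q => Function.update q.1 i q.2) ?_ ?_
      · rintro ⟨ω, d⟩ hω
        have hω' := (mem_product.1 (Finset.mem_coe.1 hω)).1
        rw [mem_filter] at hω'
        obtain ⟨-, h1, h2⟩ := hω'
        refine Finset.mem_coe.2 (mem_filter.2 ⟨mem_univ _, ?_⟩)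
        intro e he
        obtain ⟨j, -, hj⟩ := mem_image.1 (h2 he)
        have hji : j ≠ i := by
          rintro rfl
          exact hc (by rw [← h1]; rw [hj]; exact he)
        exact mem_image.2 ⟨j, mem_univ _, by
          simp only
          rw [Function.update_of_ne hji]
          exact hj⟩
      · rintro ⟨ω, d⟩ hω ⟨ω', d'⟩ hω' heq
        have h1 := (mem_filter.1 (mem_product.1 (Finset.mem_coe.1 hω)).1).2.1
        have h2 := (mem_filter.1 (mem_product.1 (Finset.mem_coe.1 hω')).1).2.1
        simp only at heq h1 h2
        have hd : d = d' := by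
          have := congrFun heq i
          simpa using this
        have hω2 : ω = ω' := by
          funext j
          by_cases hj : j = i
          · rw [hj, h1, h2]
          · have := congrFun heq j
            simpa [Function.update_of_ne hj] using this
        rw [hd, hω2]
    rw [card_insert_of_notMem hc]
    calc (univ.filter fun ω : Fin m → Cl V K => insert c t ⊆ univ.image ω).card
          * Fintype.card (Cl V K) ^ (t.card + 1)
        ≤ (∑ i : Fin m,
          (univ.filter fun ω : Fin m → Cl V K => ω i = c ∧ t ⊆ univ.image ω).card)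
          * Fintype.card (Cl V K) ^ (t.card + 1) :=
          Nat.mul_le_mul_right _ ((card_le_card hsub).trans card_biUnion_le)
      _ = (∑ i : Fin m,
          (univ.filter fun ω : Fin m → Cl V K => ω i = c ∧ t ⊆ univ.image ω).card
            * Fintype.card (Cl V K)) * Fintype.card (Cl V K) ^ t.card := by
          rw [← Finset.sum_mul, pow_succ]; ring
      _ ≤ (∑ _i : Fin m,
          (univ.filter fun ω : Fin m → Cl V K => t ⊆ univ.image ω).card)
            * Fintype.card (Cl V K) ^ t.card :=
          Nat.mul_le_mul_right _ (Finset.sum_le_sum fun i _ => hone i)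
      _ = m * ((univ.filter fun ω : Fin m → Cl V K => t ⊆ univ.image ω).card
            * Fintype.card (Cl V K) ^ t.card) := by
          rw [sum_const, card_univ, Fintype.card_fin, smul_eq_mul]; ring
      _ ≤ m * (m ^ t.card * Fintype.card (Cl V K) ^ m) := Nat.mul_le_mul_left _ ih
      _ = m ^ (t.card + 1) * Fintype.card (Cl V K) ^ m := by rw [pow_succ]; ring

end H630XR
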