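import Pool.Agent.H630XR.Defs

open scoped Classical
open Finset

namespace H630XR

variable {V : Type*} [Fintype V] {K : ℕ}

omit [Fintype V] in
lemma p7_glue1 (Z : Finset V) (y x : V → Bool) :
    glue Z (glue Z y x) (glue Z x y) = y := by
  funext v
  by_cases h : v ∈ Z <;> simp [glue, h]

lemma p7_swap (Z : Finset V) (A : (V → Bool) → Prop) :
    ((univ : Finset ((V → Bool) × (V → Bool))).filter (fun p => A (glue Z p.1 p.2))).card =
      ((univ : Finset ((V → Bool) × (V → Bool))).filter (fun p => A p.1)).card := by
  apply Finset.card_bij' (fun p _ => (glue Z p.1 p.2, glue Z p.2 p.1))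
    (fun p _ => (glue Z p.1 p.2, glue Z p.2 p.1))
  · intro p hp
    rw [mem_filter] at hp ⊢
    exact ⟨mem_univ _, hp.2⟩
  · intro p hp
    rw [mem_filter] at hp ⊢
    refine ⟨mem_univ _, ?_⟩
    simp only [p7_glue1]
    exact hp.2
  · intro p _
    simp only [p7_glue1]
  · intro p _
    simp only [p7_glue1]

theorem card_glue (Z : Finset V) (A : (V → Bool) → Prop) (c : ℕ)
    (h : ∀ y : V → Bool, (univ.filter fun x : V → Bool => A (glue Z y x)).card * c
      ≤ 2 ^ Fintype.card V) :
    (univ.filter A).card * c ≤ 2 ^ Fintype.card V := by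
  have hc : Fintype.card (V → Bool) = 2 ^ Fintype.card V := by simp
  have e1 : ∑ y : V → Bool, (univ.filter fun x : V → Bool => A (glue Z y x)).card =
      (univ.filter A).card * 2 ^ Fintype.card V := by
    have s1 : ∑ y : V → Bool, (univ.filter fun x : V → Bool => A (glue Z y x)).card =
        ((univ : Finset ((V → Bool) × (V → Bool))).filter (fun p => A (glue Z p.1 p.2))).card := by
      rw [card_filter, ← univ_product_univ, sum_product]
      apply sum_congr rfl
      intro y _
      rw [card_filter]
    have s2 : ((univ : Finset ((V → Bool) × (V → Bool))).filter (fun p => A p.1)).card =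
        (univ.filter A).card * 2 ^ Fintype.card V := by
      have : (univ : Finset ((V → Bool) × (V → Bool))).filter (fun p => A p.1) =
          (univ.filter A) ×ˢ univ := by
        ext p
        simp [mem_product]
      rw [this, card_product, card_univ, hc]
    rw [s1, p7_swap, s2]
  have e2 : (∑ y : V → Bool, (univ.filter fun x : V → Bool => A (glue Z y x)).card) * c ≤
      2 ^ Fintype.card V * 2 ^ Fintype.card V := by
    rw [sum_mul]
    calc _ ≤ ∑ _y : V → Bool, 2 ^ Fintype.card V := sum_le_sum (fun y _ => h y)
      _ = _ := by rw [sum_const, card_univ, hc, smul_eq_mul]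
  rw [e1] at e2
  have hp : 0 < 2 ^ Fintype.card V := by positivity
  have e3 : 2 ^ Fintype.card V * ((univ.filter A).card * c) ≤
      2 ^ Fintype.card V * 2 ^ Fintype.card V := by
    calc _ = (univ.filter A).card * 2 ^ Fintype.card V * c := by ring
      _ ≤ _ := e2
  exact Nat.le_of_mul_le_mul_left e3 hp

end H630XR
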