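import Pool.Agent.H630XR.Defs

/-!
# Chernoff bound and union bound
-/

open scoped Classical
open Finset

namespace H630XR

variable {V : Type*} [Fintype V] {K : ℕ}

/-- the number of false literals -/
lemma p9_card_lit (n : ℕ) (x : Fin n → Bool) :
    (univ.filter fun l : Fin n × Bool => x l.1 ≠ l.2).card = n := by
  have : (univ.filter fun l : Fin n × Bool => x l.1 ≠ l.2) =
      (univ : Finset (Fin n)).image (fun v => (v, !x v)) := by
    ext ⟨v, b⟩
    simp only [mem_filter, mem_univ, true_and, mem_image, Prod.mk.injEq]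
    constructor
    · intro h
      refine ⟨v, rfl, ?_⟩
      revert h
      cases x v <;> cases b <;> simp
    · rintro ⟨w, rfl, rfl⟩
      cases x w <;> simp
  rw [this, card_image_of_injective]
  · simp
  · intro v w h
    exact (Prod.mk.injEq _ _ _ _ ▸ h).1

/-- the number of false clauses -/
lemma p9_card_false (n K : ℕ) (x : Fin n → Bool) :
    (univ.filter fun c : Cl (Fin n) K => ∀ i, x (c i).1 ≠ (c i).2).card = n ^ K := by
  have : (univ.filter fun c : Cl (Fin n) K => ∀ i, x (c i).1 ≠ (c i).2) =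
      Fintype.piFinset (fun _ : Fin K => univ.filter fun l : Fin n × Bool => x l.1 ≠ l.2) := by
    ext c
    simp [Fintype.mem_piFinset]
  rw [this, Fintype.card_piFinset]
  simp only [p9_card_lit, prod_const, card_univ, Fintype.card_fin]

lemma p9_card_cl (n K : ℕ) : Fintype.card (Cl (Fin n) K) = (n * 2) ^ K := by
  simp

/-- the exponential moment -/
lemma p9_moment (n K m : ℕ) (x : Fin n → Bool) (z : ℝ) :
    ∑ ω : Fin m → Cl (Fin n) K, z ^ (univ.filter fun j => ∀ i, x (ω j i).1 ≠ (ω j i).2).card =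
      (1 - (1 / 2) ^ K + (1 / 2) ^ K * z) ^ m * (Fintype.card (Cl (Fin n) K) : ℝ) ^ m := by
  have h1 : ∀ ω : Fin m → Cl (Fin n) K,
      z ^ (univ.filter fun j => ∀ i, x (ω j i).1 ≠ (ω j i).2).card =
      ∏ j, (fun c : Cl (Fin n) K => if ∀ i, x (c i).1 ≠ (c i).2 then z else 1) (ω j) := by
    intro ω
    simp only [prod_ite, prod_const, one_pow, mul_one]
  rw [sum_congr rfl fun ω _ => h1 ω]
  have h0 := Fintype.sum_pow
    (fun c : Cl (Fin n) K => if ∀ i, x (c i).1 ≠ (c i).2 then z else 1) m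
  refine Eq.trans ?_ (h0.symm.trans ?_)
  · rfl
  rw [← mul_pow]
  congr 1
  rw [sum_ite, sum_const, sum_const, p9_card_false]
  have h2 : (univ.filter fun c : Cl (Fin n) K => ¬ ∀ i, x (c i).1 ≠ (c i).2).card =
      Fintype.card (Cl (Fin n) K) - n ^ K := by
    rw [← p9_card_false n K x, filter_not, card_sdiff_of_subset (filter_subset _ _), card_univ]
  have h3 : n ^ K ≤ Fintype.card (Cl (Fin n) K) := by
    rw [← p9_card_false n K x]
    exact card_le_univ _
  rw [h2]
  simp only [nsmul_eq_mul, mul_one]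
  rw [Nat.cast_sub h3, p9_card_cl]
  push_cast
  have h4 : (n : ℝ) ^ K = (1 / 2) ^ K * ((n : ℝ) * 2) ^ K := by
    rw [← mul_pow]
    congr 1
    ring
  rw [h4]
  ring

/-- the Chernoff bound -/
lemma p9_one (n K m : ℕ) (x : Fin n → Bool) (ε : ℝ) (hε : 0 < ε) :
    ((univ.filter fun ω : Fin m → Cl (Fin n) K =>
      ((univ.filter fun j => ∀ i, x (ω j i).1 ≠ (ω j i).2).card : ℝ)
        < ((1 / 2) ^ K - ε) * m).card : ℝ) ≤
      Real.exp (-(ε ^ 2 / 4 * m)) * (Fintype.card (Cl (Fin n) K) : ℝ) ^ m := by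
  set s : ℝ := ε / 2 with hs
  have hs0 : 0 < s := by positivity
  set N : ℝ := (Fintype.card (Cl (Fin n) K) : ℝ) with hN
  have hN0 : 0 ≤ N ^ m := by positivity
  set p : ℝ := (1 / 2) ^ K with hp
  have hp0 : 0 ≤ p := by positivity
  have hp1 : p ≤ 1 := pow_le_one₀ (by norm_num) (by norm_num)
  have hmom := p9_moment n K m x (Real.exp (-s))
  rw [← hN, ← hp] at hmom
  -- Markov
  have hmk : ((univ.filter fun ω : Fin m → Cl (Fin n) K =>
      ((univ.filter fun j => ∀ i, x (ω j i).1 ≠ (ω j i).2).card : ℝ)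
        < (p - ε) * m).card : ℝ) * Real.exp (-(s * ((p - ε) * m))) ≤
      ∑ ω : Fin m → Cl (Fin n) K,
        (Real.exp (-s)) ^ (univ.filter fun j => ∀ i, x (ω j i).1 ≠ (ω j i).2).card := by
    rw [← nsmul_eq_mul, ← sum_const]
    refine (sum_le_sum fun ω hω => ?_).trans
      (sum_le_sum_of_subset_of_nonneg (filter_subset _ _) fun ω _ _ => by positivity)
    rw [mem_filter] at hω
    rw [← Real.exp_nat_mul, Real.exp_le_exp]
    have := mul_le_mul_of_nonneg_left hω.2.le hs0.le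
    linarith
  rw [hmom] at hmk
  -- the base
  have hes : Real.exp (-s) ≤ 1 - s + s ^ 2 := by
    rw [Real.exp_neg, inv_le_comm₀ (Real.exp_pos s) (by nlinarith [sq_nonneg (s - 1 / 2)])]
    refine le_trans ?_ (Real.add_one_le_exp s)
    rw [inv_le_iff_one_le_mul₀ (by nlinarith [sq_nonneg (s - 1 / 2)])]
    have : 0 ≤ s ^ 3 := by positivity
    nlinarith
  have hbase : 1 - p + p * Real.exp (-s) ≤ Real.exp (p * (-s + s ^ 2)) := by
    have h1 := Real.add_one_le_exp (p * (-s + s ^ 2))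
    have h2 := mul_le_mul_of_nonneg_left hes hp0
    linarith
  have hbase0 : 0 ≤ 1 - p + p * Real.exp (-s) := by
    have := mul_nonneg hp0 (Real.exp_pos (-s)).le
    linarith
  have hpow : (1 - p + p * Real.exp (-s)) ^ m ≤ Real.exp (m * (p * (-s + s ^ 2))) := by
    rw [Real.exp_nat_mul]
    exact pow_le_pow_left₀ hbase0 hbase m
  have hfin : Real.exp (m * (p * (-s + s ^ 2))) ≤
      Real.exp (-(ε ^ 2 / 4 * m)) * Real.exp (-(s * ((p - ε) * m))) := by
    rw [← Real.exp_add, Real.exp_le_exp]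
    have hm0 : (0 : ℝ) ≤ m := Nat.cast_nonneg m
    have e1 : (p * s ^ 2) * m ≤ (s ^ 2) * m := by
      apply mul_le_mul_of_nonneg_right _ hm0
      nlinarith [sq_nonneg s]
    have e2 : s = ε / 2 := hs
    have e3 : ε = 2 * s := by linarith
    rw [e3]
    nlinarith
  have h5 : ((univ.filter fun ω : Fin m → Cl (Fin n) K =>
      ((univ.filter fun j => ∀ i, x (ω j i).1 ≠ (ω j i).2).card : ℝ)
        < (p - ε) * m).card : ℝ) * Real.exp (-(s * ((p - ε) * m))) ≤
      (Real.exp (-(ε ^ 2 / 4 * m)) * N ^ m) * Real.exp (-(s * ((p - ε) * m))) := by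
    refine hmk.trans ?_
    calc (1 - p + p * Real.exp (-s)) ^ m * N ^ m
        ≤ (Real.exp (-(ε ^ 2 / 4 * m)) * Real.exp (-(s * ((p - ε) * m)))) * N ^ m :=
          mul_le_mul_of_nonneg_right (hpow.trans hfin) hN0
      _ = _ := by ring
  exact le_of_mul_le_mul_right h5 (Real.exp_pos _)

theorem card_far (K : ℕ) (hK : 1 ≤ K) (ε : ℝ) (hε : 0 < ε) :
    ∃ C : ℝ, 0 < C ∧ ∀ (n m : ℕ), 1 ≤ n → C * n ≤ m →
      ((univ.filter fun ω : Fin m → Cl (Fin n) K => ∃ x : Fin n → Bool,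
        ((univ.filter fun j => ∀ i, x (ω j i).1 ≠ (ω j i).2).card : ℝ)
          < ((1 / 2) ^ K - ε) * m).card : ℝ) ≤ (1 / 2) ^ n * (Fintype.card (Cl (Fin n) K) : ℝ) ^ m := by
  refine ⟨8 / ε ^ 2, by positivity, fun n m _ hm => ?_⟩
  have hsub : (univ.filter fun ω : Fin m → Cl (Fin n) K => ∃ x : Fin n → Bool,
        ((univ.filter fun j => ∀ i, x (ω j i).1 ≠ (ω j i).2).card : ℝ)
          < ((1 / 2) ^ K - ε) * m) ⊆
      (univ : Finset (Fin n → Bool)).biUnion fun x => univ.filter fun ω : Fin m → Cl (Fin n) K =>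
        ((univ.filter fun j => ∀ i, x (ω j i).1 ≠ (ω j i).2).card : ℝ)
          < ((1 / 2) ^ K - ε) * m := by
    intro ω hω
    rw [mem_filter] at hω
    obtain ⟨_, x, hx⟩ := hω
    exact mem_biUnion.mpr ⟨x, mem_univ _, mem_filter.mpr ⟨mem_univ _, hx⟩⟩
  have h1 := (card_le_card hsub).trans card_biUnion_le
  have h2 : ((univ.filter fun ω : Fin m → Cl (Fin n) K => ∃ x : Fin n → Bool,
        ((univ.filter fun j => ∀ i, x (ω j i).1 ≠ (ω j i).2).card : ℝ)
          < ((1 / 2) ^ K - ε) * m).card : ℝ) ≤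
      ∑ x : Fin n → Bool, ((univ.filter fun ω : Fin m → Cl (Fin n) K =>
        ((univ.filter fun j => ∀ i, x (ω j i).1 ≠ (ω j i).2).card : ℝ)
          < ((1 / 2) ^ K - ε) * m).card : ℝ) := by
    exact_mod_cast h1
  refine h2.trans ((sum_le_sum fun x _ => p9_one n K m x ε hε).trans ?_)
  rw [sum_const, card_univ, nsmul_eq_mul, ← mul_assoc]
  refine mul_le_mul_of_nonneg_right ?_ (by positivity)
  have h3 : (Fintype.card (Fin n → Bool) : ℝ) = 2 ^ n := by
    simp
  rw [h3]
  have h4 : (2 : ℝ) * n ≤ ε ^ 2 / 4 * m := by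
    have e1 := mul_le_mul_of_nonneg_left hm (by positivity : 0 ≤ ε ^ 2 / 4)
    have e2 : ε ^ 2 / 4 * (8 / ε ^ 2 * n) = 2 * n := by
      field_simp
      ring
    linarith
  have h5 : Real.exp (-(ε ^ 2 / 4 * m)) ≤ (1 / 4) ^ n := by
    have e1 : Real.exp (-(ε ^ 2 / 4 * m)) ≤ Real.exp (n * (-2)) := by
      rw [Real.exp_le_exp]
      linarith
    refine e1.trans ?_
    rw [Real.exp_nat_mul]
    apply pow_le_pow_left₀ (Real.exp_pos _).le
    rw [Real.exp_neg, one_div]
    apply inv_anti₀ (by norm_num)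
    have e3 : Real.exp 2 = Real.exp 1 * Real.exp 1 := by
      rw [← Real.exp_add]
      norm_num
    have e4 := Real.add_one_le_exp 1
    rw [e3]
    nlinarith
  calc (2 : ℝ) ^ n * Real.exp (-(ε ^ 2 / 4 * m)) ≤ 2 ^ n * (1 / 4) ^ n :=
        mul_le_mul_of_nonneg_left h5 (by positivity)
    _ = (1 / 2) ^ n := by
        rw [← mul_pow]
        norm_num

end H630XR
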