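import Pool.Agent.H630XR.Five

/-! The gap version for randomised circuits (helper630) -/

open scoped Classical
open Finset Filter

namespace H630XR

open H630VC (Prog Mono2)

/-- most random formulas with a suitable number of clauses are far from satisfiable -/
theorem many_far (K : ℕ) (hK : 3 ≤ K) (ε δ b : ℝ) (hε : 0 < ε) (hδ : δ < (K : ℝ) / 2 - 1)
    (hb : 0 < b) :
    ∃ N : ℕ, ∀ n : ℕ, N ≤ n → ∃ m : ℕ, (m : ℝ) ≤ (n : ℝ) ^ ((K : ℝ) / 2 - δ) ∧
      ((univ.filter fun ω : Fin m → Cl (Fin n) K =>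
        ¬ Far ((1 / 2) ^ K - ε) (univ.image ω)).card : ℝ)
        ≤ b * (Fintype.card (Cl (Fin n) K) : ℝ) ^ m := by
  obtain ⟨C, hC, hfar⟩ := card_far K (by omega) ε hε
  set η := (K : ℝ) / 2 - δ - 1 with hη
  have hη0 : 0 < η := by rw [hη]; linarith
  have e1 : ∀ᶠ n : ℕ in atTop, C + 1 ≤ (n : ℝ) ^ η :=
    ((tendsto_rpow_atTop hη0).comp (tendsto_natCast_atTop_atTop (R := ℝ))).eventually_ge_atTop _
  have e2 : ∀ᶠ n : ℕ in atTop, ((1 : ℝ) / 2) ^ n ≤ b / 2 :=
    (tendsto_pow_atTop_nhds_zero_of_lt_one (by norm_num) (by norm_num)).eventually_le_const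
      (by positivity)
  have e3 : ∀ᶠ n : ℕ in atTop, (C + 1) ^ 2 / b ≤ (n : ℝ) :=
    (tendsto_natCast_atTop_atTop (R := ℝ)).eventually_ge_atTop _
  obtain ⟨N1, hN1⟩ := (((e1.and e2).and e3).and (eventually_ge_atTop 3)).exists_forall_of_atTop
  refine ⟨N1, fun n hn => ?_⟩
  obtain ⟨⟨⟨h1, h2⟩, h3⟩, hn3⟩ := hN1 n hn
  have hn1 : 1 ≤ n := by omega
  have hnR : (1 : ℝ) ≤ n := by exact_mod_cast hn1
  have hn0 : (0 : ℝ) < n := by linarith
  set m : ℕ := ⌈C * n⌉₊ with hm
  have hm1 : C * n ≤ m := Nat.le_ceil _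
  have hm2 : (m : ℝ) ≤ (C + 1) * n := by
    have := Nat.ceil_lt_add_one (show 0 ≤ C * n by positivity)
    rw [← hm] at this
    nlinarith
  have hm3 : (m : ℝ) ≤ (n : ℝ) ^ ((K : ℝ) / 2 - δ) := by
    have h4 : (n : ℝ) ^ ((K : ℝ) / 2 - δ) = (n : ℝ) ^ η * n := by
      rw [← Real.rpow_add_one hn0.ne']
      congr 1
      rw [hη]
      ring
    rw [h4]
    exact hm2.trans (mul_le_mul_of_nonneg_right h1 hn0.le)
  have hmpos : 0 < m := by
    have : 0 < C * n := by positivity
    have h5 : (0 : ℝ) < m := by linarith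
    exact_mod_cast h5
  refine ⟨m, hm3, ?_⟩
  have hA1 := hfar n m hn1 hm1
  have hA2 := card_collision (n := n) (K := K) m
  set D : ℝ := (Fintype.card (Cl (Fin n) K) : ℝ) with hD
  have hDval : D = (2 * (n : ℝ)) ^ K := by
    rw [hD, card_cl]; push_cast; rfl
  have hD0 : 0 < D := by rw [hDval]; positivity
  have hDm : 0 < D ^ m := by positivity
  have b2 : ((univ.filter fun ω : Fin m → Cl (Fin n) K => ¬ Function.Injective ω).card : ℝ) ≤
      b / 2 * D ^ m := by
    have h6 : ((univ.filter fun ω : Fin m → Cl (Fin n) K =>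
        ¬ Function.Injective ω).card : ℝ) * D ≤ (m : ℝ) ^ 2 * D ^ m := by
      rw [hD]; exact_mod_cast hA2
    have h7 : (m : ℝ) ^ 2 ≤ b / 2 * D := by
      have h8 : (2 * (n : ℝ)) ^ 3 ≤ D := by
        rw [hDval]
        exact pow_le_pow_right₀ (by linarith) hK
      have h3' : (C + 1) ^ 2 ≤ b * n := by
        rw [div_le_iff₀ hb] at h3
        linarith
      calc (m : ℝ) ^ 2 ≤ ((C + 1) * n) ^ 2 := pow_le_pow_left₀ (Nat.cast_nonneg _) hm2 2
        _ = (C + 1) ^ 2 * (n : ℝ) ^ 2 := by ring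
        _ ≤ (b * n) * (n : ℝ) ^ 2 := mul_le_mul_of_nonneg_right h3' (by positivity)
        _ ≤ b / 2 * (2 * (n : ℝ)) ^ 3 := by
            have : 0 ≤ b * (n : ℝ) * (n : ℝ) ^ 2 := by positivity
            nlinarith
        _ ≤ _ := mul_le_mul_of_nonneg_left h8 (by positivity)
    have h9 : ((univ.filter fun ω : Fin m → Cl (Fin n) K =>
        ¬ Function.Injective ω).card : ℝ) * D ≤ (b / 2 * D ^ m) * D := by
      refine h6.trans ?_
      calc (m : ℝ) ^ 2 * D ^ m ≤ (b / 2 * D) * D ^ m := mul_le_mul_of_nonneg_right h7 hDm.le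
        _ = _ := by ring
    exact le_of_mul_le_mul_right h9 hD0
  have hsub : (univ.filter fun ω : Fin m → Cl (Fin n) K =>
        ¬ Far ((1 / 2) ^ K - ε) (univ.image ω)) ⊆
      (univ.filter fun ω : Fin m → Cl (Fin n) K => ∃ x : Fin n → Bool,
        ((univ.filter fun j => ∀ i, x (ω j i).1 ≠ (ω j i).2).card : ℝ)
          < ((1 / 2) ^ K - ε) * m) ∪
        (univ.filter fun ω : Fin m → Cl (Fin n) K => ¬ Function.Injective ω) := by
    intro ω hω
    by_contra hne
    simp only [mem_union, mem_filter, mem_univ, true_and, not_or, not_exists, not_lt,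
      not_not] at hne
    obtain ⟨g1, g2⟩ := hne
    refine (mem_filter.1 hω).2 ⟨?_, ?_⟩
    · exact ⟨ω ⟨0, hmpos⟩, mem_image.2 ⟨_, mem_univ _, rfl⟩⟩
    · intro x
      have h14 : (univ.image ω).card = m := by
        rw [card_image_of_injective _ g2, card_univ, Fintype.card_fin]
      have h15 : ((univ.image ω).filter fun c => ∀ i, x (c i).1 ≠ (c i).2).card =
          (univ.filter fun j => ∀ i, x (ω j i).1 ≠ (ω j i).2).card := by
        rw [Finset.filter_image, card_image_of_injective _ g2]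
      rw [h14, h15]
      exact g1 x
  have h16 := (card_le_card hsub).trans (card_union_le _ _)
  have h17 : ((univ.filter fun ω : Fin m → Cl (Fin n) K =>
        ¬ Far ((1 / 2) ^ K - ε) (univ.image ω)).card : ℝ) ≤
      ((univ.filter fun ω : Fin m → Cl (Fin n) K => ∃ x : Fin n → Bool,
        ((univ.filter fun j => ∀ i, x (ω j i).1 ≠ (ω j i).2).card : ℝ)
          < ((1 / 2) ^ K - ε) * m).card : ℝ) +
        ((univ.filter fun ω : Fin m → Cl (Fin n) K => ¬ Function.Injective ω).card : ℝ) := by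
    exact_mod_cast h16
  have h12 : ((1 : ℝ) / 2) ^ n * D ^ m ≤ b / 2 * D ^ m := mul_le_mul_of_nonneg_right h2 hDm.le
  linarith

/-- double counting -/
theorem sum_card_comm {R X : Type*} [Fintype R] [Fintype X] (p : R → X → Prop) :
    ∑ r : R, (univ.filter fun x => p r x).card = ∑ x : X, (univ.filter fun r => p r x).card := by
  simp only [Finset.card_filter]
  rw [Finset.sum_comm]

/-- (B) the gap version for randomised circuits -/
theorem gap_rand (K : ℕ) (hK : 3 ≤ K) (ε ν ξ : ℝ) (hε : 0 < ε) (hν : 0 < ν) (hξ : 0 < ξ)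
    (h : (3 * K + 1) * ν < (K : ℝ) / 2 - 1) :
    ∃ N : ℕ, ∀ n : ℕ, N ≤ n → ∀ (R : Type) [Fintype R] [Nonempty R]
      (l : R → List (Finset (Cl (Fin n) K) → ℝ)) (f : R → Finset (Cl (Fin n) K) → ℝ),
      (∀ r, Prog (cnfInputs (Fin n) K) (l r) ∧ f r ∈ l r) →
      (∀ F : Finset (Cl (Fin n) K), SatCNF F →
        (1 / 2 + ξ) * Fintype.card R ≤ (univ.filter fun r => f r F < 1).card) →
      (∀ F : Finset (Cl (Fin n) K), Far ((1 / 2) ^ K - ε) F →
        (1 / 2 + ξ) * Fintype.card R ≤ (univ.filter fun r => 1 ≤ f r F).card) →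
      ∃ r, (2 : ℝ) ^ ((n : ℝ) ^ ν) < (l r).length := by
  obtain ⟨δ, hδ1, hδ2⟩ := exists_between h
  obtain ⟨N, hN⟩ := dichotomy K (by omega) δ ν hν hδ1
  set b : ℝ := ξ / (1 + 2 * ξ) with hb
  have hb0 : 0 < b := by positivity
  have hbξ : (1 / 2 + ξ) * b = ξ / 2 := by
    rw [hb]; field_simp
  obtain ⟨N2, hN2⟩ := many_far K hK ε δ b hε hδ2 hb0
  have e2 : ∀ᶠ n : ℕ in atTop, 1 / ξ + 1 ≤ (n : ℝ) ^ ν :=
    ((tendsto_rpow_atTop hν).comp (tendsto_natCast_atTop_atTop (R := ℝ))).eventually_ge_atTop _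
  obtain ⟨N1, hN1⟩ := (e2.and (eventually_ge_atTop 1)).exists_forall_of_atTop
  refine ⟨max N (max N1 N2), fun n hn R _ _ l f hpf hsat hfarf => ?_⟩
  obtain ⟨h2, hn1⟩ := hN1 n ((le_max_left _ _).trans ((le_max_right _ _).trans hn))
  obtain ⟨m, hm, hmf⟩ := hN2 n ((le_max_right _ _).trans ((le_max_right _ _).trans hn))
  by_contra hlt
  push Not at hlt
  have hnR : (1 : ℝ) ≤ n := by exact_mod_cast hn1
  have hn0 : (0 : ℝ) < n := by linarith
  set κ : ℝ := (n : ℝ) ^ (-ν) with hκ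
  have hκ0 : 0 ≤ κ := by positivity
  have hκξ : κ < ξ := by
    rw [hκ, Real.rpow_neg hn0.le]
    have h3 : 1 / ξ < (n : ℝ) ^ ν := by linarith
    rw [inv_lt_comm₀ (by positivity) hξ]
    rwa [one_div] at h3
  have hκ2 : (2 : ℝ) ^ (-(n : ℝ) ^ ν) ≤ κ := by
    rw [hκ, Real.rpow_neg (by norm_num), Real.rpow_neg hn0.le]
    exact inv_anti₀ (by positivity) (le_two_rpow _ (by positivity))
  set D : ℝ := (Fintype.card (Cl (Fin n) K) : ℝ) with hD
  have hDval : D = (2 * (n : ℝ)) ^ K := by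
    rw [hD, card_cl]; push_cast; rfl
  have hD0 : 0 < D := by rw [hDval]; positivity
  have hDm : 0 < D ^ m := by positivity
  have hcR : 0 < (Fintype.card R : ℝ) := by exact_mod_cast Fintype.card_pos
  -- one circuit
  have hone : ∀ r : R,
      ((univ.filter fun x : Fin n → Bool => f r (oddFormula x) < 1).card : ℝ) * D ^ m +
      ((univ.filter fun ω : Fin m → Cl (Fin n) K => 1 ≤ f r (univ.image ω)).card : ℝ) * 2 ^ n
        ≤ (1 + κ) * (2 ^ n * D ^ m) := by
    intro r
    have hA : ((univ.filter fun x : Fin n → Bool => f r (oddFormula x) < 1).card : ℝ) ≤ 2 ^ n := by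
      have := card_filter_le (univ : Finset (Fin n → Bool)) fun x => f r (oddFormula x) < 1
      rw [card_univ, Fintype.card_fun, Fintype.card_fin, Fintype.card_bool] at this
      exact_mod_cast this
    have hB : ((univ.filter fun ω : Fin m → Cl (Fin n) K =>
        1 ≤ f r (univ.image ω)).card : ℝ) ≤ D ^ m := by
      have h3 := card_filter_le (univ : Finset (Fin m → Cl (Fin n) K))
        fun ω => 1 ≤ f r (univ.image ω)
      have h4 : (univ : Finset (Fin m → Cl (Fin n) K)).card = Fintype.card (Cl (Fin n) K) ^ m := by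
        rw [card_univ, Fintype.card_fun, Fintype.card_fin]
      rw [h4] at h3
      rw [hD]
      exact_mod_cast h3
    have h2n : (0 : ℝ) < 2 ^ n := by positivity
    rcases hN n ((le_max_left _ _).trans hn) m hm (l r) (hpf r).1 (hlt r) (f r) (hpf r).2 with
      h5 | h5
    · simp only [not_le] at h5
      have h6 : ((univ.filter fun x : Fin n → Bool => f r (oddFormula x) < 1).card : ℝ) ≤
          κ * 2 ^ n := h5.trans (mul_le_mul_of_nonneg_right hκ2 h2n.le)
      nlinarith [mul_le_mul_of_nonneg_right h6 hDm.le, mul_le_mul_of_nonneg_right hB h2n.le]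
    · have h6 : ((univ.filter fun ω : Fin m → Cl (Fin n) K =>
          1 ≤ f r (univ.image ω)).card : ℝ) ≤ κ * D ^ m := h5
      nlinarith [mul_le_mul_of_nonneg_right h6 h2n.le, mul_le_mul_of_nonneg_right hA hDm.le]
  -- all circuits
  have hall : (∑ r : R, ((univ.filter fun x : Fin n → Bool =>
        f r (oddFormula x) < 1).card : ℝ)) * D ^ m +
      (∑ r : R, ((univ.filter fun ω : Fin m → Cl (Fin n) K =>
        1 ≤ f r (univ.image ω)).card : ℝ)) * 2 ^ n
        ≤ Fintype.card R * ((1 + κ) * (2 ^ n * D ^ m)) := by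
    rw [Finset.sum_mul, Finset.sum_mul, ← Finset.sum_add_distrib]
    refine (Finset.sum_le_sum fun r _ => hone r).trans (le_of_eq ?_)
    rw [Finset.sum_const, card_univ, nsmul_eq_mul]
  have hX : (1 / 2 + ξ) * Fintype.card R * 2 ^ n ≤
      ∑ r : R, ((univ.filter fun x : Fin n → Bool => f r (oddFormula x) < 1).card : ℝ) := by
    have h3 := sum_card_comm (R := R) (X := Fin n → Bool) fun r x => f r (oddFormula x) < 1
    have h4 : (∑ r : R, ((univ.filter fun x : Fin n → Bool => f r (oddFormula x) < 1).card : ℝ)) =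
        ∑ x : Fin n → Bool, ((univ.filter fun r => f r (oddFormula x) < 1).card : ℝ) := by
      exact_mod_cast h3
    rw [h4]
    have h5 : ∑ _x : Fin n → Bool, ((1 / 2 + ξ) * Fintype.card R) ≤
        ∑ x : Fin n → Bool, ((univ.filter fun r => f r (oddFormula x) < 1).card : ℝ) :=
      Finset.sum_le_sum fun x _ => hsat _ (sat_oddFormula x)
    refine le_trans (le_of_eq ?_) h5
    rw [Finset.sum_const, card_univ, Fintype.card_fun, Fintype.card_fin, Fintype.card_bool,
      nsmul_eq_mul]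
    push_cast
    ring
  have hW : (1 / 2 + ξ) * Fintype.card R * ((1 - b) * D ^ m) ≤
      ∑ r : R, ((univ.filter fun ω : Fin m → Cl (Fin n) K =>
        1 ≤ f r (univ.image ω)).card : ℝ) := by
    have h3 := sum_card_comm (R := R) (X := Fin m → Cl (Fin n) K)
      fun r ω => 1 ≤ f r (univ.image ω)
    have h4 : (∑ r : R, ((univ.filter fun ω : Fin m → Cl (Fin n) K =>
          1 ≤ f r (univ.image ω)).card : ℝ)) =
        ∑ ω : Fin m → Cl (Fin n) K, ((univ.filter fun r => 1 ≤ f r (univ.image ω)).card : ℝ) := by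
      exact_mod_cast h3
    rw [h4]
    have h5 : ∑ _ω ∈ univ.filter (fun ω : Fin m → Cl (Fin n) K =>
          Far ((1 / 2) ^ K - ε) (univ.image ω)), ((1 / 2 + ξ) * Fintype.card R) ≤
        ∑ ω : Fin m → Cl (Fin n) K, ((univ.filter fun r => 1 ≤ f r (univ.image ω)).card : ℝ) := by
      refine (Finset.sum_le_sum fun ω hω => hfarf _ (mem_filter.1 hω).2).trans ?_
      exact Finset.sum_le_sum_of_subset_of_nonneg (filter_subset _ _)
        fun _ _ _ => Nat.cast_nonneg _
    refine le_trans ?_ h5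
    rw [Finset.sum_const, nsmul_eq_mul]
    have h6 : (1 - b) * D ^ m ≤ ((univ.filter (fun ω : Fin m → Cl (Fin n) K =>
          Far ((1 / 2) ^ K - ε) (univ.image ω))).card : ℝ) := by
      have h7 := Finset.card_filter_add_card_filter_not (s := (univ : Finset (Fin m → Cl (Fin n) K)))
        (fun ω : Fin m → Cl (Fin n) K => Far ((1 / 2) ^ K - ε) (univ.image ω))
      rw [card_univ, Fintype.card_fun, Fintype.card_fin] at h7
      have h8 : ((univ.filter (fun ω : Fin m → Cl (Fin n) K =>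
          Far ((1 / 2) ^ K - ε) (univ.image ω))).card : ℝ) +
          ((univ.filter (fun ω : Fin m → Cl (Fin n) K =>
          ¬ Far ((1 / 2) ^ K - ε) (univ.image ω))).card : ℝ) = D ^ m := by
        rw [hD]; exact_mod_cast h7
      linarith
    have h9 : 0 ≤ (1 / 2 + ξ) * (Fintype.card R : ℝ) := by positivity
    nlinarith [mul_le_mul_of_nonneg_left h6 h9]
  have h2n : (0 : ℝ) < 2 ^ n := by positivity
  have k1 := mul_le_mul_of_nonneg_right hX hDm.le
  have k2 := mul_le_mul_of_nonneg_right hW h2n.le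
  have k3 : (1 / 2 + ξ) * Fintype.card R * 2 ^ n * D ^ m +
      (1 / 2 + ξ) * Fintype.card R * ((1 - b) * D ^ m) * 2 ^ n ≤
      Fintype.card R * ((1 + κ) * (2 ^ n * D ^ m)) := by linarith
  have k4 : (Fintype.card R : ℝ) * (2 ^ n * D ^ m) * ((1 / 2 + ξ) + (1 / 2 + ξ) * (1 - b)) ≤
      (Fintype.card R : ℝ) * (2 ^ n * D ^ m) * (1 + κ) := by
    calc _ = (1 / 2 + ξ) * Fintype.card R * 2 ^ n * D ^ m +
      (1 / 2 + ξ) * Fintype.card R * ((1 - b) * D ^ m) * 2 ^ n := by ring
      _ ≤ _ := k3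
      _ = _ := by ring
  have k5 : (1 / 2 + ξ) + (1 / 2 + ξ) * (1 - b) ≤ 1 + κ :=
    le_of_mul_le_mul_left k4 (by positivity)
  nlinarith

end H630XR
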