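import Pool.Agent.H630XR.Defs
import Pool.Agent.H630XR.P1
import Pool.Agent.H630XR.P2
import Pool.Agent.H630XR.P3
import Pool.Agent.H630XR.P4a
import Pool.Agent.H630XR.P4b
import Pool.Agent.H630XR.P5
import Pool.Agent.H630XR.P6
import Pool.Agent.H630XR.P7
import Pool.Agent.H630XR.P9
import Pool.Agent.H630XR.P10
import Pool.Agent.H630XR.P11
import Pool.Agent.H630XR.P12

/-!
# The parts
-/
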