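import Pool.Agent.H630XR.Two
import Pool.Agent.H630VC.Closure

/-! The induction over the gates and the core dichotomy (helper630) -/

open scoped Classical
open Finset

namespace H630XR

open H630VC (Prog Mono2)

variable {V : Type*} [Fintype V] {K : ℕ}

/-- the formula of all clauses with an odd number of literals true under `x` -/
noncomputable def full (x : V → Bool) : Finset (Cl V K) := univ.filter fun c => OddSat x c

theorem Closed.mono {q l : ℕ} {lam : Tm V K l → ℝ} (hc : Closed q l lam)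
    {t t' : Tm V K l} (h : t.1 ⊆ t'.1) : lam t ≤ lam t' := by
  apply hc
  have : (univ.filter fun x : V → Bool =>
      ¬ ∃ t1 : Tm V K l, (Sats x t'.1 → Sats x t1.1) ∧ lam t ≤ lam t1) = ∅ := by
    apply filter_eq_empty_iff.2
    intro x _ h'
    exact h' ⟨t, fun hs c hc => hs c (h hc), le_rfl⟩
  rw [this]
  simp

theorem exists_closed (q l : ℕ) (hq : 1 ≤ q) (lam : Tm V K l → ℝ) :
    ∃ lam' : Tm V K l → ℝ, (∀ t, lam t ≤ lam' t) ∧ Closed q l lam' ∧
      (univ.filter fun x : V → Bool => ∃ t : Tm V K l, Sats x t.1 ∧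
        ∀ t' : Tm V K l, Sats x t'.1 → lam t' < lam' t).card * 2 ^ q
        ≤ Fintype.card (Tm V K l) * 2 ^ Fintype.card V := by
  have hcardΩ : Fintype.card (V → Bool) = 2 ^ Fintype.card V := by simp
  have hpos : 0 < Fintype.card (V → Bool) := Fintype.card_pos
  obtain ⟨lam', h1, h2, h3⟩ := H630VC.exists_closure (Ω := V → Bool) (S := Tm V K l)
    (fun x t0 t => Sats x t0.1 → Sats x t.1) (fun x t => Sats x t.1)
    (fun x t0 t h h' => h' h) (Fintype.card (V → Bool) / 2 ^ q)
    (Nat.div_lt_self hpos (Nat.one_lt_two_pow (by omega))) lam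
  refine ⟨lam', h1, ?_, ?_⟩
  · intro t0 θ ht0
    apply h2
    rw [Nat.le_div_iff_mul_le (by positivity), hcardΩ]
    refine le_of_eq_of_le ?_ ht0
    congr!
  · rw [← hcardΩ]
    calc _ ≤ (Fintype.card (Tm V K l) * (Fintype.card (V → Bool) / 2 ^ q)) * 2 ^ q := by
          refine Nat.mul_le_mul_right _ (le_of_eq_of_le ?_ h3)
          congr!
      _ = Fintype.card (Tm V K l) * (Fintype.card (V → Bool) / 2 ^ q * 2 ^ q) := by ring
      _ ≤ Fintype.card (Tm V K l) * Fintype.card (V → Bool) :=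
          Nat.mul_le_mul_left _ (Nat.div_mul_le_self _ _)

/-- the probability that a random formula contains a critical set of size `j` -/
theorem card_bad_j (s l q m : ℕ) (hs : Fintype.card V ≤ s ^ 2) (hs1 : 1 ≤ s) (hl : 1 ≤ l)
    (hK : 1 ≤ K) (hq : 1 ≤ q) (lam : Tm V K l → ℝ) (hc : Closed q l lam) (j : ℕ) (hj : j ≤ l) :
    (univ.filter fun ω : Fin m → Cl V K => ∃ t : Tm V K l,
      (Crit lam t ∧ t.1.card = j) ∧ t.1 ⊆ univ.image ω).card * Fintype.card (Cl V K) ^ j
      ≤ (K0 K s l * K1 K l q ^ K * m) ^ j * Fintype.card (Cl V K) ^ m := by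
  set B := K0 K s l * K1 K l q ^ K with hB
  have h1 : (univ.filter fun ω : Fin m → Cl V K => ∃ t : Tm V K l,
      (Crit lam t ∧ t.1.card = j) ∧ t.1 ⊆ univ.image ω)
      ⊆ (univ.filter fun t : Tm V K l => Crit lam t ∧ t.1.card = j).biUnion
        (fun t => univ.filter fun ω : Fin m → Cl V K => t.1 ⊆ univ.image ω) := by
    intro ω hω
    simp only [mem_filter, mem_univ, true_and, mem_biUnion] at hω ⊢
    obtain ⟨t, h, h'⟩ := hω
    exact ⟨t, h, h'⟩
  calc _ ≤ (∑ t ∈ (univ.filter fun t : Tm V K l => Crit lam t ∧ t.1.card = j),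
        (univ.filter fun ω : Fin m → Cl V K => t.1 ⊆ univ.image ω).card)
        * Fintype.card (Cl V K) ^ j := Nat.mul_le_mul_right _ ((card_le_card h1).trans
          card_biUnion_le)
    _ = ∑ t ∈ (univ.filter fun t : Tm V K l => Crit lam t ∧ t.1.card = j),
        (univ.filter fun ω : Fin m → Cl V K => t.1 ⊆ univ.image ω).card
        * Fintype.card (Cl V K) ^ j := by rw [Finset.sum_mul]
    _ ≤ ∑ t ∈ (univ.filter fun t : Tm V K l => Crit lam t ∧ t.1.card = j),
        m ^ j * Fintype.card (Cl V K) ^ m := by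
        refine Finset.sum_le_sum fun t ht => ?_
        simp only [mem_filter, mem_univ, true_and] at ht
        have h2 := card_cover (K := K) m t.1
        rw [ht.2] at h2
        refine le_of_eq_of_le ?_ h2
        congr!
    _ = (univ.filter fun t : Tm V K l => Crit lam t ∧ t.1.card = j).card *
        (m ^ j * Fintype.card (Cl V K) ^ m) := by rw [sum_const, smul_eq_mul]
    _ ≤ B ^ j * (m ^ j * Fintype.card (Cl V K) ^ m) := Nat.mul_le_mul_right _
        (card_crit s l q hs hs1 hl hK hq lam hc j hj)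
    _ = _ := by rw [mul_pow]; ring

/-- formulas that contain a critical set with more than `L` clauses are rare -/
theorem card_bad_pos (s L q m : ℕ) (hs : Fintype.card V ≤ s ^ 2) (hs1 : 1 ≤ s) (hL : 1 ≤ L)
    (hK : 1 ≤ K) (hq : 1 ≤ q) (hm : 4 * (K0 K s (2 * L) * K1 K (2 * L) q ^ K * m)
      ≤ Fintype.card (Cl V K)) (lam : Tm V K (2 * L) → ℝ) (hc : Closed q (2 * L) lam) :
    (univ.filter fun ω : Fin m → Cl V K => ∃ t : Tm V K (2 * L),
      Crit lam t ∧ L < t.1.card ∧ t.1 ⊆ univ.image ω).card * (4 * 2 ^ L)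
      ≤ Fintype.card (Cl V K) ^ m := by
  set C := Fintype.card (Cl V K) with hC
  set B := K0 K s (2 * L) * K1 K (2 * L) q ^ K * m with hB
  have key : ∀ j ∈ Finset.Ioc L (2 * L),
      (univ.filter fun ω : Fin m → Cl V K => ∃ t : Tm V K (2 * L),
        (Crit lam t ∧ t.1.card = j) ∧ t.1 ⊆ univ.image ω).card * 4 ^ (L + 1) ≤ C ^ m := by
    intro j hj
    rw [Finset.mem_Ioc] at hj
    have h3 := card_bad_j s (2 * L) q m hs hs1 (by omega) hK hq lam hc j hj.2
    rw [← hC, ← hB] at h3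
    set X := (univ.filter fun ω : Fin m → Cl V K => ∃ t : Tm V K (2 * L),
        (Crit lam t ∧ t.1.card = j) ∧ t.1 ⊆ univ.image ω).card with hX
    have h4 : X * 4 ^ j ≤ C ^ m := by
      rcases Nat.eq_zero_or_pos X with h0 | h0
      · rw [h0]; simp
      have hCpos : 0 < C := by
        by_contra h
        have hC0 : C = 0 := by omega
        have hj0 : j ≠ 0 := by omega
        have hB0 : B = 0 := by omega
        -- no clause at all
        have hm0 : m = 0 ∨ 0 < m := Nat.eq_zero_or_pos m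
        have hne : (univ.filter fun ω : Fin m → Cl V K => ∃ t : Tm V K (2 * L),
          (Crit lam t ∧ t.1.card = j) ∧ t.1 ⊆ univ.image ω).Nonempty := card_pos.1 h0
        obtain ⟨ω, hω⟩ := hne
        simp only [mem_filter, mem_univ, true_and] at hω
        obtain ⟨t, ⟨-, ht⟩, hsub⟩ := hω
        have : t.1.Nonempty := card_pos.1 (by omega)
        obtain ⟨c, hc'⟩ := this
        have : 0 < C := by
          rw [hC]
          exact Fintype.card_pos_iff.2 ⟨c⟩
        omega
      have h5 : (X * 4 ^ j) * C ^ j ≤ C ^ m * C ^ j := by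
        calc (X * 4 ^ j) * C ^ j = 4 ^ j * (X * C ^ j) := by ring
          _ ≤ 4 ^ j * (B ^ j * C ^ m) := Nat.mul_le_mul_left _ h3
          _ = (4 * B) ^ j * C ^ m := by rw [mul_pow]; ring
          _ ≤ C ^ j * C ^ m := Nat.mul_le_mul_right _ (Nat.pow_le_pow_left hm j)
          _ = _ := by ring
      exact Nat.le_of_mul_le_mul_right h5 (by positivity)
    exact (Nat.mul_le_mul_left _ (Nat.pow_le_pow_right (by norm_num) (by omega))).trans h4
  have hsub : (univ.filter fun ω : Fin m → Cl V K => ∃ t : Tm V K (2 * L),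
      Crit lam t ∧ L < t.1.card ∧ t.1 ⊆ univ.image ω)
      ⊆ (Finset.Ioc L (2 * L)).biUnion (fun j => univ.filter fun ω : Fin m → Cl V K =>
        ∃ t : Tm V K (2 * L), (Crit lam t ∧ t.1.card = j) ∧ t.1 ⊆ univ.image ω) := by
    intro ω hω
    simp only [mem_filter, mem_univ, true_and, mem_biUnion, mem_Ioc] at hω ⊢
    obtain ⟨t, h, h', h''⟩ := hω
    exact ⟨t.1.card, ⟨h', t.2⟩, t, ⟨h, rfl⟩, h''⟩
  have htot : (univ.filter fun ω : Fin m → Cl V K => ∃ t : Tm V K (2 * L),
      Crit lam t ∧ L < t.1.card ∧ t.1 ⊆ univ.image ω).card * 4 ^ (L + 1) ≤ L * C ^ m := by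
    calc _ ≤ (∑ j ∈ Finset.Ioc L (2 * L), (univ.filter fun ω : Fin m → Cl V K =>
        ∃ t : Tm V K (2 * L), (Crit lam t ∧ t.1.card = j) ∧ t.1 ⊆ univ.image ω).card)
          * 4 ^ (L + 1) := Nat.mul_le_mul_right _ ((card_le_card hsub).trans card_biUnion_le)
      _ = ∑ j ∈ Finset.Ioc L (2 * L), (univ.filter fun ω : Fin m → Cl V K =>
        ∃ t : Tm V K (2 * L), (Crit lam t ∧ t.1.card = j) ∧ t.1 ⊆ univ.image ω).card
          * 4 ^ (L + 1) := by rw [Finset.sum_mul]
      _ ≤ ∑ j ∈ Finset.Ioc L (2 * L), C ^ m := Finset.sum_le_sum key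
      _ = L * C ^ m := by
        rw [Finset.sum_const, Nat.card_Ioc, smul_eq_mul]
        congr 1
        omega
  have h5 : (univ.filter fun ω : Fin m → Cl V K => ∃ t : Tm V K (2 * L),
      Crit lam t ∧ L < t.1.card ∧ t.1 ⊆ univ.image ω).card * (4 * 2 ^ L) * 2 ^ L
      ≤ C ^ m * 2 ^ L := by
    calc _ = (univ.filter fun ω : Fin m → Cl V K => ∃ t : Tm V K (2 * L),
      Crit lam t ∧ L < t.1.card ∧ t.1 ⊆ univ.image ω).card * 4 ^ (L + 1) := by
          have : (4 : ℕ) ^ (L + 1) = 4 * 2 ^ L * 2 ^ L := by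
            rw [pow_succ, mul_assoc, ← mul_pow]; ring
          rw [this]; ring
      _ ≤ L * C ^ m := htot
      _ ≤ C ^ m * 2 ^ L := by
          rw [mul_comm]
          exact Nat.mul_le_mul_left _ (Nat.lt_two_pow_self).le
  exact Nat.le_of_mul_le_mul_right h5 (by positivity)

/-- the approximation property of a function on formulas outside given bad sets of tests -/
def Approx (L m q : ℕ) (badP : Finset (Fin m → Cl V K)) (badN : Finset (V → Bool))
    (f : Finset (Cl V K) → ℝ) : Prop :=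
  ∃ lam : Tm V K (2 * L) → ℝ, Closed q (2 * L) lam ∧
    (∀ ω, ω ∉ badP → ∃ t : Tm V K (2 * L), t.1.card ≤ L ∧ t.1 ⊆ univ.image ω ∧
      f (univ.image ω) ≤ lam t) ∧
    (∀ x, x ∉ badN → ∀ t : Tm V K (2 * L), Sats x t.1 → lam t ≤ f (full x))

theorem Approx.mono {L m q : ℕ} {badP badP' : Finset (Fin m → Cl V K)}
    {badN badN' : Finset (V → Bool)} {f : Finset (Cl V K) → ℝ} (h : Approx L m q badP badN f)
    (hP : badP ⊆ badP') (hN : badN ⊆ badN') : Approx L m q badP' badN' f := by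
  obtain ⟨lam, h1, h2, h3⟩ := h
  exact ⟨lam, h1, fun ω hω => h2 ω (fun h => hω (hP h)), fun x hx => h3 x (fun h => hx (hN h))⟩

/-- one step: from a raw level function to an approximation -/
theorem approx_step (s L m q : ℕ) (hs : Fintype.card V ≤ s ^ 2) (hs1 : 1 ≤ s) (hL : 1 ≤ L)
    (hK : 1 ≤ K) (hq : 1 ≤ q) (hm : 4 * (K0 K s (2 * L) * K1 K (2 * L) q ^ K * m)
      ≤ Fintype.card (Cl V K))
    (badP : Finset (Fin m → Cl V K)) (badN : Finset (V → Bool)) (f : Finset (Cl V K) → ℝ)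
    (lam : Tm V K (2 * L) → ℝ)
    (hP : ∀ ω, ω ∉ badP → ∃ t : Tm V K (2 * L), t.1 ⊆ univ.image ω ∧ f (univ.image ω) ≤ lam t)
    (hN : ∀ x, x ∉ badN → ∀ t : Tm V K (2 * L), Sats x t.1 → lam t ≤ f (full x)) :
    ∃ (newP : Finset (Fin m → Cl V K)) (newN : Finset (V → Bool)),
      newP.card * (4 * 2 ^ L) ≤ Fintype.card (Cl V K) ^ m ∧
      newN.card * 2 ^ q ≤ Fintype.card (Tm V K (2 * L)) * 2 ^ Fintype.card V ∧
      Approx L m q (badP ∪ newP) (badN ∪ newN) f := by
  obtain ⟨lam', h1, h2, h3⟩ := exists_closed q (2 * L) hq lam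
  refine ⟨univ.filter fun ω => ∃ t : Tm V K (2 * L), Crit lam' t ∧ L < t.1.card ∧
      t.1 ⊆ univ.image ω, univ.filter fun x : V → Bool => ∃ t : Tm V K (2 * L),
      Sats x t.1 ∧ ∀ t' : Tm V K (2 * L), Sats x t'.1 → lam t' < lam' t,
      card_bad_pos s L q m hs hs1 hL hK hq hm lam' h2, h3, lam', h2, ?_, ?_⟩
  · intro ω hω
    simp only [mem_union, mem_filter, mem_univ, true_and, not_or, not_exists, not_and] at hω
    obtain ⟨t0, ht0, ht0'⟩ := hP ω hω.1
    -- choose a minimal witness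
    have hne : (univ.filter fun t : Tm V K (2 * L) => t.1 ⊆ univ.image ω ∧
        f (univ.image ω) ≤ lam' t).Nonempty :=
      ⟨t0, by simp only [mem_filter, mem_univ, true_and]; exact ⟨ht0, ht0'.trans (h1 t0)⟩⟩
    obtain ⟨t, ht, hmin⟩ := Finset.exists_min_image _ (fun t => t.1.card) hne
    simp only [mem_filter, mem_univ, true_and] at ht hmin
    refine ⟨t, ?_, ht.1, ht.2⟩
    by_contra hcard
    rw [not_le] at hcard
    refine hω.2 t ?_ hcard ht.1
    intro t' ht'
    by_contra hlt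
    rw [not_lt] at hlt
    have h4 := hmin t' ⟨ht'.subset.trans ht.1, ht.2.trans hlt⟩
    exact absurd (card_lt_card ht') (not_lt.2 h4)
  · intro x hx t ht
    simp only [mem_union, mem_filter, mem_univ, true_and, not_or, not_exists, not_and,
      not_forall, not_lt] at hx
    obtain ⟨t', ht', hle⟩ := hx.2 t ht
    exact hle.trans (hN x hx.1 t' ht')

theorem approx_prog (s L m q : ℕ) (hs : Fintype.card V ≤ s ^ 2) (hs1 : 1 ≤ s) (hL : 1 ≤ L)
    (hK : 1 ≤ K) (hq : 1 ≤ q) (hm : 4 * (K0 K s (2 * L) * K1 K (2 * L) q ^ K * m)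
      ≤ Fintype.card (Cl V K))
    {l : List (Finset (Cl V K) → ℝ)} (hp : Prog (cnfInputs V K) l) :
    ∃ (badP : Finset (Fin m → Cl V K)) (badN : Finset (V → Bool)),
      badP.card * (4 * 2 ^ L) ≤ l.length * Fintype.card (Cl V K) ^ m ∧
      badN.card * 2 ^ q ≤ l.length * (Fintype.card (Tm V K (2 * L)) * 2 ^ Fintype.card V) ∧
      ∀ f ∈ l, Approx L m q badP badN f := by
  induction hp with
  | nil => exact ⟨∅, ∅, by simp, by simp, by simp⟩
  | @input l f hp hf ih =>
    obtain ⟨badP, badN, h1, h2, h3⟩ := ih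
    obtain ⟨lam, hlP, hlN⟩ : ∃ lam : Tm V K (2 * L) → ℝ,
        (∀ ω : Fin m → Cl V K, ω ∉ badP → ∃ t : Tm V K (2 * L), t.1 ⊆ univ.image ω ∧
          f (univ.image ω) ≤ lam t) ∧
        (∀ x : V → Bool, x ∉ badN → ∀ t : Tm V K (2 * L), Sats x t.1 → lam t ≤ f (full x)) := by
      have hbot : (∅ : Finset (Cl V K)).card ≤ 2 * L := by simp
      rcases hf with ⟨c, rfl⟩ | ⟨a, rfl⟩
      · refine ⟨fun t => if c ∈ t.1 then 1 else 0, ?_, ?_⟩
        · intro ω _
          by_cases h : c ∈ univ.image ω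
          · refine ⟨⟨{c}, by simp; omega⟩, ?_, ?_⟩
            · simpa using h
            · simp [h]
          · exact ⟨⟨∅, hbot⟩, empty_subset _, by simp [h]⟩
        · intro x _ t ht
          by_cases h : c ∈ t.1
          · have : c ∈ (full x : Finset (Cl V K)) := by
              rw [full, mem_filter]
              exact ⟨mem_univ _, ht c h⟩
            simp [h, this]
          · simp only [h, if_false]
            split_ifs <;> norm_num
      · exact ⟨fun _ => a, fun ω _ => ⟨⟨∅, hbot⟩, empty_subset _, le_rfl⟩,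
          fun x _ t _ => le_rfl⟩
    obtain ⟨newP, newN, g1, g2, g3⟩ := approx_step s L m q hs hs1 hL hK hq hm badP badN f lam
      hlP hlN
    refine ⟨badP ∪ newP, badN ∪ newN, ?_, ?_, ?_⟩
    · calc _ ≤ (badP.card + newP.card) * (4 * 2 ^ L) :=
            Nat.mul_le_mul_right _ (card_union_le _ _)
        _ = badP.card * (4 * 2 ^ L) + newP.card * (4 * 2 ^ L) := by ring
        _ ≤ l.length * Fintype.card (Cl V K) ^ m + Fintype.card (Cl V K) ^ m := by gcongr
        _ = _ := by rw [List.length_cons]; ring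
    · calc _ ≤ (badN.card + newN.card) * 2 ^ q :=
            Nat.mul_le_mul_right _ (card_union_le _ _)
        _ = badN.card * 2 ^ q + newN.card * 2 ^ q := by ring
        _ ≤ l.length * (Fintype.card (Tm V K (2 * L)) * 2 ^ Fintype.card V) +
            Fintype.card (Tm V K (2 * L)) * 2 ^ Fintype.card V := by gcongr
        _ = _ := by rw [List.length_cons]; ring
    · intro g hg
      rcases List.mem_cons.1 hg with rfl | hg
      · exact g3
      · exact (h3 g hg).mono subset_union_left subset_union_left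
  | @gate l φ f1 f2 hp hφ hf1 hf2 ih =>
    obtain ⟨badP, badN, h1, h2, h3⟩ := ih
    obtain ⟨lam1, hc1, hp1, hn1⟩ := h3 f1 hf1
    obtain ⟨lam2, hc2, hp2, hn2⟩ := h3 f2 hf2
    obtain ⟨newP, newN, g1, g2, g3⟩ := approx_step s L m q hs hs1 hL hK hq hm badP badN
      (fun x => φ (f1 x) (f2 x)) (fun t => φ (lam1 t) (lam2 t))
      (by
        intro ω hω
        obtain ⟨t1, ht1, ht1', ht1''⟩ := hp1 ω hω
        obtain ⟨t2, ht2, ht2', ht2''⟩ := hp2 ω hω
        have hsm : (t1.1 ∪ t2.1).card ≤ 2 * L := (card_union_le _ _).trans (by omega)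
        refine ⟨⟨t1.1 ∪ t2.1, hsm⟩, union_subset ht1' ht2', ?_⟩
        exact hφ _ _ _ _ (ht1''.trans (hc1.mono subset_union_left))
          (ht2''.trans (hc2.mono subset_union_right)))
      (fun x hx t ht => hφ _ _ _ _ (hn1 x hx t ht) (hn2 x hx t ht))
    refine ⟨badP ∪ newP, badN ∪ newN, ?_, ?_, ?_⟩
    · calc _ ≤ (badP.card + newP.card) * (4 * 2 ^ L) :=
            Nat.mul_le_mul_right _ (card_union_le _ _)
        _ = badP.card * (4 * 2 ^ L) + newP.card * (4 * 2 ^ L) := by ring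
        _ ≤ l.length * Fintype.card (Cl V K) ^ m + Fintype.card (Cl V K) ^ m := by gcongr
        _ = _ := by rw [List.length_cons]; ring
    · calc _ ≤ (badN.card + newN.card) * 2 ^ q :=
            Nat.mul_le_mul_right _ (card_union_le _ _)
        _ = badN.card * 2 ^ q + newN.card * 2 ^ q := by ring
        _ ≤ l.length * (Fintype.card (Tm V K (2 * L)) * 2 ^ Fintype.card V) +
            Fintype.card (Tm V K (2 * L)) * 2 ^ Fintype.card V := by gcongr
        _ = _ := by rw [List.length_cons]; ring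
    · intro g hg
      rcases List.mem_cons.1 hg with rfl | hg
      · exact g3
      · exact (h3 g hg).mono subset_union_left subset_union_left

/-- partial sums of a geometric series -/
theorem geom_sum_le (ρ : ℝ) (h0 : 0 ≤ ρ) (h1 : ρ ≤ 1 / 2) (L : ℕ) :
    ∑ j ∈ Finset.Icc 1 L, ρ ^ j ≤ 2 * ρ := by
  have h : ∀ L : ℕ, ∑ j ∈ Finset.Icc 1 L, ρ ^ j ≤ 2 * ρ - 2 * ρ * ρ ^ L := by
    intro L
    induction L with
    | zero => simp
    | succ L ih =>
      rw [Finset.sum_Icc_succ_top (by omega), pow_succ]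
      have h2 : 0 ≤ ρ ^ L := by positivity
      have h3 : 0 ≤ ρ ^ L * ρ := by positivity
      nlinarith
  have h2 : 0 ≤ 2 * ρ * ρ ^ L := by positivity
  linarith [h L]

/-- the core dichotomy -/
theorem core (s L m q : ℕ) (hs : Fintype.card V ≤ s ^ 2) (hs1 : 1 ≤ s) (hL : 1 ≤ L)
    (hK : 1 ≤ K) (hq : 1 ≤ q) (hm : 4 * (K0 K s (2 * L) * K1 K (2 * L) q ^ K * m)
      ≤ Fintype.card (Cl V K)) (hC : 0 < Fintype.card (Cl V K))
    {l : List (Finset (Cl V K) → ℝ)} (hp : Prog (cnfInputs V K) l) {f : Finset (Cl V K) → ℝ}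
    (hf : f ∈ l) (θ : ℝ) :
    (univ.filter fun x : V → Bool => ¬ θ ≤ f (full x)).card * 2 ^ q
        ≤ l.length * (Fintype.card (Tm V K (2 * L)) * 2 ^ Fintype.card V) ∨
      ((univ.filter fun ω : Fin m → Cl V K => θ ≤ f (univ.image ω)).card : ℝ)
        ≤ ((l.length : ℝ) / (4 * 2 ^ L) + 2 * ((K0 K s (2 * L) * K1 K (2 * L) q ^ K * m : ℕ) /
          (Fintype.card (Cl V K) : ℝ))) * (Fintype.card (Cl V K) : ℝ) ^ m := by
  obtain ⟨badP, badN, hP, hN, happ⟩ := approx_prog s L m q hs hs1 hL hK hq hm hp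
  obtain ⟨lam, hc, hp1, hn1⟩ := happ f hf
  have hbot : (∅ : Finset (Cl V K)).card ≤ 2 * L := by simp
  by_cases hθ : θ ≤ lam ⟨∅, hbot⟩
  · left
    have hsub : (univ.filter fun x : V → Bool => ¬ θ ≤ f (full x)) ⊆ badN := by
      intro x hx
      simp only [mem_filter, mem_univ, true_and] at hx
      by_contra hx'
      exact hx (hθ.trans (hn1 x hx' ⟨∅, hbot⟩ (fun c hc => absurd hc (notMem_empty _))))
    exact (Nat.mul_le_mul_right _ (card_le_card hsub)).trans hN
  · right
    rw [not_le] at hθ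
    set C := Fintype.card (Cl V K) with hCdef
    set B := K0 K s (2 * L) * K1 K (2 * L) q ^ K * m with hB
    have hCr : (0 : ℝ) < C := by exact_mod_cast hC
    set ρ : ℝ := (B : ℝ) / C with hρ
    have hρ0 : 0 ≤ ρ := by positivity
    have hρ1 : ρ ≤ 1 / 2 := by
      rw [hρ, div_le_iff₀ hCr]
      have : (4 : ℝ) * B ≤ C := by exact_mod_cast hm
      linarith
    have hsub : (univ.filter fun ω : Fin m → Cl V K => θ ≤ f (univ.image ω)) ⊆
        badP ∪ (Finset.Icc 1 (2 * L)).biUnion (fun j => univ.filter fun ω : Fin m → Cl V K =>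
          ∃ t : Tm V K (2 * L), (Crit lam t ∧ t.1.card = j) ∧ t.1 ⊆ univ.image ω) := by
      intro ω hω
      simp only [mem_filter, mem_univ, true_and] at hω
      rw [mem_union]
      by_cases hbad : ω ∈ badP
      · exact Or.inl hbad
      · right
        obtain ⟨t0, -, ht0, ht0'⟩ := hp1 ω hbad
        have hne : (univ.filter fun t : Tm V K (2 * L) => t.1 ⊆ univ.image ω ∧
            θ ≤ lam t).Nonempty :=
          ⟨t0, by simp only [mem_filter, mem_univ, true_and]; exact ⟨ht0, hω.trans ht0'⟩⟩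
        obtain ⟨t, ht, hmin⟩ := Finset.exists_min_image _ (fun t => t.1.card) hne
        simp only [mem_filter, mem_univ, true_and] at ht hmin
        simp only [mem_biUnion, mem_filter, mem_univ, true_and, mem_Icc]
        refine ⟨t.1.card, ⟨?_, t.2⟩, t, ⟨?_, rfl⟩, ht.1⟩
        · rw [Nat.one_le_iff_ne_zero]
          intro h0
          have h1 : t = ⟨∅, hbot⟩ := Subtype.ext (card_eq_zero.1 h0)
          rw [h1] at ht
          exact absurd ht.2 (not_le.2 hθ)
        · intro t' ht'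
          refine lt_of_not_ge fun hge => ?_
          have h4 := hmin t' ⟨ht'.subset.trans ht.1, ht.2.trans hge⟩
          exact absurd (card_lt_card ht') (not_lt.2 h4)
    have hj : ∀ j ∈ Finset.Icc 1 (2 * L), ((univ.filter fun ω : Fin m → Cl V K =>
          ∃ t : Tm V K (2 * L), (Crit lam t ∧ t.1.card = j) ∧ t.1 ⊆ univ.image ω).card : ℝ)
          ≤ ρ ^ j * (C : ℝ) ^ m := by
      intro j hj
      rw [mem_Icc] at hj
      have h3 := card_bad_j s (2 * L) q m hs hs1 (by omega) hK hq lam hc j hj.2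
      rw [← hCdef, ← hB] at h3
      rw [hρ, div_pow, div_mul_eq_mul_div, le_div_iff₀ (by positivity)]
      exact_mod_cast h3
    have hPr : (badP.card : ℝ) ≤ (l.length : ℝ) / (4 * 2 ^ L) * (C : ℝ) ^ m := by
      rw [div_mul_eq_mul_div, le_div_iff₀ (by positivity)]
      exact_mod_cast hP
    calc ((univ.filter fun ω : Fin m → Cl V K => θ ≤ f (univ.image ω)).card : ℝ)
        ≤ ((badP ∪ (Finset.Icc 1 (2 * L)).biUnion (fun j => univ.filter
          fun ω : Fin m → Cl V K => ∃ t : Tm V K (2 * L), (Crit lam t ∧ t.1.card = j) ∧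
            t.1 ⊆ univ.image ω)).card : ℝ) := by exact_mod_cast card_le_card hsub
      _ ≤ (badP.card : ℝ) + ((∑ j ∈ Finset.Icc 1 (2 * L), (univ.filter
          fun ω : Fin m → Cl V K => ∃ t : Tm V K (2 * L), (Crit lam t ∧ t.1.card = j) ∧
            t.1 ⊆ univ.image ω).card : ℕ) : ℝ) := by
          exact_mod_cast (card_union_le _ _).trans (Nat.add_le_add_left card_biUnion_le _)
      _ = (badP.card : ℝ) + ∑ j ∈ Finset.Icc 1 (2 * L), ((univ.filter
          fun ω : Fin m → Cl V K => ∃ t : Tm V K (2 * L), (Crit lam t ∧ t.1.card = j) ∧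
            t.1 ⊆ univ.image ω).card : ℝ) := by push_cast; rfl
      _ ≤ (l.length : ℝ) / (4 * 2 ^ L) * (C : ℝ) ^ m +
          ∑ j ∈ Finset.Icc 1 (2 * L), ρ ^ j * (C : ℝ) ^ m :=
          add_le_add hPr (Finset.sum_le_sum hj)
      _ = (l.length : ℝ) / (4 * 2 ^ L) * (C : ℝ) ^ m +
          (∑ j ∈ Finset.Icc 1 (2 * L), ρ ^ j) * (C : ℝ) ^ m := by rw [Finset.sum_mul]
      _ ≤ (l.length : ℝ) / (4 * 2 ^ L) * (C : ℝ) ^ m + (2 * ρ) * (C : ℝ) ^ m := by
          gcongr
          exact geom_sum_le ρ hρ0 hρ1 _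
      _ = _ := by ring

end H630XR
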