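import Pool.Agent.H630XR.One

/-! Spread families and the number of critical sets of clauses (helper630) -/

open scoped Classical
open Finset

namespace H630XR

variable {V : Type*} [Fintype V] {K : ℕ}

omit [Fintype V] in
theorem oddSat_congr {x x' : V → Bool} {c : Cl V K} (h : ∀ i, x (c i).1 = x' (c i).1) :
    OddSat x c ↔ OddSat x' c := by
  unfold OddSat
  simp only [h]

theorem sats_congr {x x' : V → Bool} {A : Finset (Cl V K)} (h : ∀ v ∈ vars A, x v = x' v) :
    Sats x A ↔ Sats x' A := by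
  unfold Sats
  refine forall_congr' fun c => forall_congr' fun hc => ?_
  exact oddSat_congr fun i => h _ (mem_vars.2 ⟨c, hc, i, rfl⟩)

/-- a spread family fails with probability at most `2^-q` -/
theorem spread_fail (s l q : ℕ) (hs : Fintype.card V ≤ s ^ 2) (hs1 : 1 ≤ s) (hl : 1 ≤ l)
    (hK : 1 ≤ K) (hq : 1 ≤ q) (G : Finset (Finset (Cl V K))) (t0 : Finset (Cl V K)) (Z : Finset V)
    (hG : G.Nonempty) (k : ℕ) (hk : ∀ t ∈ G, (t \ t0).card = k)
    (hmem : ∀ t ∈ G, t0 ⊆ t ∧ t.card ≤ l ∧ Z ⊆ vars t)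
    (hspread : ∀ (Y : Finset (Cl V K)) (U : Finset V), Disjoint Y t0 → Disjoint U Z →
      ((G.filter fun t => Y ⊆ t ∧ U ⊆ vars t).card : ℝ) *
        ((K0 K s l : ℝ) ^ Y.card * (K1 K l q : ℝ) ^ U.card) ≤ G.card) :
    (univ.filter fun x : V → Bool => Sats x t0 ∧ ∀ t ∈ G, ¬ Sats x t).card * 2 ^ q
      ≤ 2 ^ Fintype.card V := by
  suffices h : ∀ y : V → Bool, (univ.filter fun x : V → Bool =>
      (fun x => Sats x t0 ∧ ∀ t ∈ G, ¬ Sats x t) (glue Z y x)).card * 2 ^ q
      ≤ 2 ^ Fintype.card V by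
    have h1 := card_glue Z (fun x => Sats x t0 ∧ ∀ t ∈ G, ¬ Sats x t) (2 ^ q) (by
      intro y
      refine le_of_eq_of_le ?_ (h y)
      congr!)
    refine le_of_eq_of_le ?_ h1
    congr!
  intro y
  have h2 := amplify hq (fun g c x => ∀ t ∈ G, (∀ v ∈ vars t \ Z, g v = c) →
    ¬ Sats (glue Z y x) (t \ t0)) ?_ ?_ (fun x => Sats (glue Z y x) t0 ∧
      ∀ t ∈ G, ¬ Sats (glue Z y x) t) ?_
  · refine le_of_eq_of_le ?_ h2
    congr!
  · intro g c x x' hxx' hE t ht hv hsat
    refine hE t ht hv ?_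
    refine (sats_congr ?_).2 hsat
    intro v hv'
    unfold glue
    by_cases hZ : v ∈ Z
    · rw [if_pos hZ, if_pos hZ]
    · rw [if_neg hZ, if_neg hZ]
      exact hxx' v (hv v (mem_sdiff.2 ⟨vars_mono sdiff_subset hv', hZ⟩))
  · intro c
    have h3 := one_round s l q hs hs1 hl hK hq G t0 Z hG k hk hmem hspread y c
    refine le_of_eq_of_le ?_ h3
    congr 2
    ext p
    simp only [mem_filter]
  · rintro g x ⟨h0, h1⟩ c t ht hv hsat
    refine h1 t ht ?_
    intro c' hc'
    by_cases h : c' ∈ t0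
    · exact h0 c' h
    · exact hsat c' (mem_sdiff.2 ⟨hc', h⟩)

/-- sets of at most `l` clauses -/
abbrev Tm (V : Type*) [Fintype V] (K l : ℕ) : Type _ := {t : Finset (Cl V K) // t.card ≤ l}

/-- closed level functions -/
def Closed (q l : ℕ) (lam : Tm V K l → ℝ) : Prop :=
  ∀ (t0 : Tm V K l) (θ : ℝ), (univ.filter fun x : V → Bool =>
    ¬ ∃ t : Tm V K l, (Sats x t0.1 → Sats x t.1) ∧ θ ≤ lam t).card * 2 ^ q
      ≤ 2 ^ Fintype.card V → θ ≤ lam t0

/-- `t` has a higher level than all its proper parts -/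
def Crit {l : ℕ} (lam : Tm V K l → ℝ) (t : Tm V K l) : Prop :=
  ∀ t' : Tm V K l, t'.1 ⊂ t.1 → lam t' < lam t

/-- a closed level function has few critical sets of each size -/
theorem card_crit (s l q : ℕ) (hs : Fintype.card V ≤ s ^ 2) (hs1 : 1 ≤ s) (hl : 1 ≤ l)
    (hK : 1 ≤ K) (hq : 1 ≤ q) (lam : Tm V K l → ℝ) (hc : Closed q l lam) (j : ℕ) (hj : j ≤ l) :
    (univ.filter fun t : Tm V K l => Crit lam t ∧ t.1.card = j).card
      ≤ (K0 K s l * K1 K l q ^ K) ^ j := by
  by_contra hcon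
  push Not at hcon
  have hK0 : 1 ≤ K0 K s l := K0_pos hK hs1 hl
  have hK1 : 2 ≤ K1 K l q := by
    unfold K1
    have h1 : 1 ≤ q * K * l := Nat.one_le_iff_ne_zero.2 (by positivity)
    nlinarith
  set k0 := K0 K s l with hk0
  set k1 := K1 K l q with hk1
  set M : Finset (Tm V K l) := univ.filter fun t : Tm V K l => Crit lam t ∧ t.1.card = j with hM
  let F : Finset (Cl V K) × Finset V → Finset (Tm V K l) := fun p =>
    M.filter fun t => p.1 ⊆ t.1 ∧ p.2 ⊆ vars t.1
  obtain ⟨⟨t0, Z⟩, -, hmax⟩ := Finset.exists_max_image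
    (univ : Finset (Finset (Cl V K) × Finset V))
    (fun p => (F p).card * (k0 ^ p.1.card * k1 ^ p.2.card)) ⟨(∅, ∅), mem_univ _⟩
  have hF0 : F (∅, ∅) = M :=
    Finset.filter_true_of_mem fun t _ => ⟨empty_subset _, empty_subset _⟩
  set G : Finset (Tm V K l) := F (t0, Z) with hG
  have hbig : k0 ^ j * k1 ^ (K * j) < G.card * (k0 ^ t0.card * k1 ^ Z.card) := by
    have h := hmax (∅, ∅) (mem_univ _)
    simp only [hF0, card_empty, pow_zero, mul_one] at h
    have h2 : (k0 * k1 ^ K) ^ j = k0 ^ j * k1 ^ (K * j) := by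
      rw [mul_pow, ← pow_mul]
    rw [h2] at hcon
    exact hcon.trans_le h
  have hmemG : ∀ t ∈ G, Crit lam t ∧ t.1.card = j ∧ t0 ⊆ t.1 ∧ Z ⊆ vars t.1 := by
    intro t ht
    have h1 := Finset.mem_filter.1 ht
    have h2 := Finset.mem_filter.1 h1.1
    exact ⟨h2.2.1, h2.2.2, h1.2.1, h1.2.2⟩
  have hne : G.Nonempty := by
    rw [Finset.nonempty_iff_ne_empty]
    intro h
    rw [h, card_empty, zero_mul] at hbig
    omega
  obtain ⟨t1, ht1⟩ := hne
  have hZl : Z.card ≤ K * j := by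
    have h := hmemG t1 ht1
    rw [← h.2.1]
    exact (card_le_card h.2.2.2).trans (card_vars_le _)
  have ht0j : t0.card ≤ j := by
    have h := hmemG t1 ht1
    rw [← h.2.1]
    exact card_le_card h.2.2.1
  have ht0lt : t0.card < j := by
    refine lt_of_le_of_ne ht0j fun heq => ?_
    have huniq : ∀ t ∈ G, t.1 = t0 := by
      intro t ht
      have h := hmemG t ht
      exact (Finset.eq_of_subset_of_card_le h.2.2.1 (by rw [h.2.1, heq])).symm
    have hcard : G.card ≤ 1 := by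
      rw [Finset.card_le_one]
      intro a ha b hb
      exact Subtype.ext ((huniq a ha).trans (huniq b hb).symm)
    have h1 : G.card * (k0 ^ t0.card * k1 ^ Z.card) ≤ 1 * (k0 ^ j * k1 ^ (K * j)) := by
      refine Nat.mul_le_mul hcard (Nat.mul_le_mul ?_ ?_)
      · rw [heq]
      · exact Nat.pow_le_pow_right (by omega) hZl
    omega
  have hvars : vars t0 ⊆ Z := by
    intro v hv
    by_contra hvZ
    have h := hmax (t0, insert v Z) (mem_univ _)
    have h1 : F (t0, insert v Z) = G := by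
      ext t
      simp only [F, hG, mem_filter]
      constructor
      · rintro ⟨a, b, c⟩
        exact ⟨a, b, (subset_insert _ _).trans c⟩
      · rintro ⟨a, b, c⟩
        exact ⟨a, b, insert_subset (vars_mono b hv) c⟩
    rw [h1] at h
    simp only [card_insert_of_notMem hvZ, pow_succ] at h
    have hpos : 0 < G.card * (k0 ^ t0.card * k1 ^ Z.card) := by omega
    nlinarith
  -- the family as a family of finsets
  set Gs : Finset (Finset (Cl V K)) := G.image Subtype.val with hGs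
  have hinj : Set.InjOn Subtype.val (G : Set (Tm V K l)) := Subtype.val_injective.injOn
  have hGscard : Gs.card = G.card := card_image_of_injOn hinj
  have hspread : ∀ (Y : Finset (Cl V K)) (U : Finset V), Disjoint Y t0 → Disjoint U Z →
      ((Gs.filter fun t => Y ⊆ t ∧ U ⊆ vars t).card : ℝ) *
        ((k0 : ℝ) ^ Y.card * (k1 : ℝ) ^ U.card) ≤ Gs.card := by
    intro Y U hY hU
    have h := hmax (t0 ∪ Y, Z ∪ U) (mem_univ _)
    simp only at h
    rw [card_union_of_disjoint hY.symm, card_union_of_disjoint hU.symm] at h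
    have h1 : (Gs.filter fun t => Y ⊆ t ∧ U ⊆ vars t).card ≤ (F (t0 ∪ Y, Z ∪ U)).card := by
      rw [← card_image_of_injOn (s := F (t0 ∪ Y, Z ∪ U)) (f := Subtype.val)
        Subtype.val_injective.injOn]
      refine card_le_card ?_
      intro t ht
      rw [mem_filter, hGs, mem_image] at ht
      obtain ⟨⟨t', ht', rfl⟩, hYt, hUt⟩ := ht
      refine mem_image.2 ⟨t', ?_, rfl⟩
      have h2 := Finset.mem_filter.1 ht'
      exact Finset.mem_filter.2 ⟨h2.1, union_subset h2.2.1 hYt, union_subset h2.2.2 hUt⟩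
    have h3 : (Gs.filter fun t => Y ⊆ t ∧ U ⊆ vars t).card * (k0 ^ Y.card * k1 ^ U.card)
        ≤ G.card := by
      have h4 : ((Gs.filter fun t => Y ⊆ t ∧ U ⊆ vars t).card * (k0 ^ Y.card * k1 ^ U.card)) *
          (k0 ^ t0.card * k1 ^ Z.card) ≤ G.card * (k0 ^ t0.card * k1 ^ Z.card) := by
        calc _ = (Gs.filter fun t => Y ⊆ t ∧ U ⊆ vars t).card *
              (k0 ^ (t0.card + Y.card) * k1 ^ (Z.card + U.card)) := by
              rw [pow_add, pow_add]; ring
          _ ≤ (F (t0 ∪ Y, Z ∪ U)).card * (k0 ^ (t0.card + Y.card) * k1 ^ (Z.card + U.card)) :=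
              Nat.mul_le_mul_right _ h1
          _ ≤ _ := h
      exact Nat.le_of_mul_le_mul_right h4 (by positivity)
    rw [hGscard]
    exact_mod_cast h3
  have hfail := spread_fail s l q hs hs1 hl hK hq Gs t0 Z
    ⟨t1.1, mem_image.2 ⟨t1, ht1, rfl⟩⟩ (j - t0.card)
    (by
      intro t ht
      obtain ⟨t', ht', rfl⟩ := mem_image.1 ht
      have h := hmemG t' ht'
      rw [card_sdiff_of_subset h.2.2.1, h.2.1])
    (by
      intro t ht
      obtain ⟨t', ht', rfl⟩ := mem_image.1 ht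
      have h := hmemG t' ht'
      exact ⟨h.2.2.1, t'.2, h.2.2.2⟩) hspread
  obtain ⟨ts, hts, hmin⟩ := Finset.exists_min_image G lam ⟨t1, ht1⟩
  have htsG := hmemG ts hts
  let T0 : Tm V K l := ⟨t0, ht0j.trans hj⟩
  have hsub : (univ.filter fun x : V → Bool => ¬ ∃ t : Tm V K l,
      (Sats x t0 → Sats x t.1) ∧ lam ts ≤ lam t) ⊆
      (univ.filter fun x : V → Bool => Sats x t0 ∧ ∀ t ∈ Gs, ¬ Sats x t) := by
    intro x hx
    simp only [mem_filter, mem_univ, true_and] at hx ⊢
    constructor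
    · by_contra h
      exact hx ⟨ts, fun h' => absurd h' h, le_rfl⟩
    · intro t ht hsat
      obtain ⟨t', ht', rfl⟩ := mem_image.1 ht
      exact hx ⟨t', fun _ => hsat, hmin t' ht'⟩
  have hle : lam ts ≤ lam T0 := by
    refine hc T0 (lam ts) ?_
    exact (Nat.mul_le_mul_right _ (card_le_card hsub)).trans hfail
  have hlt : lam T0 < lam ts := by
    refine htsG.1 T0 ?_
    refine Finset.ssubset_iff_subset_ne.2 ⟨htsG.2.2.1, ?_⟩
    intro h
    have h1 : t0.card = ts.1.card := congrArg Finset.card h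
    omega
  linarith

end H630XR
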